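import Mathlib

/-!
# Gamma means: definitions

`gm v w j` is the mean of `v` against the Gamma density of order `j` and rate `w`, which is concentrated around
`t = j / w` with relative width `1 / √j`.
-/

namespace Pool.Agent.Helper7.GW

open MeasureTheory Set Filter Topology

/-- The Gamma density of order `j` and rate `w`. -/
noncomputable def ker (w : ℝ) (j : ℕ) (t : ℝ) : ℝ :=
  w * (w * t) ^ j / (j.factorial : ℝ) * Real.exp (-w * t)

/-- The Gamma mean of `f`. -/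
noncomputable def gm (f : ℝ → ℝ) (w : ℝ) (j : ℕ) : ℝ := ∫ t in Ioi (0 : ℝ), f t * ker w j t

/-- Laplace transform (the same as `Pool.Agent.Helper13.Bsd.Lap`). -/
noncomputable def lap (f : ℝ → ℝ) (w : ℂ) : ℂ := ∫ t in Ioi (0 : ℝ), (f t : ℂ) * Complex.exp (-w * t)

/-- `f` is measurable and `|f t| ≤ A e^{a t}` for `t > 0`. -/
structure Grow (f : ℝ → ℝ) (A a : ℝ) : Prop where
  meas : Measurable f
  hA : 0 ≤ A
  ha : 0 ≤ a
  bd : ∀ t, 0 < t → |f t| ≤ A * Real.exp (a * t)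

/-- The window around `j / w` of relative width `δ`. -/
def win (δ w : ℝ) (j : ℕ) : Set ℝ := Icc ((1 - δ) * (j / w)) ((1 + δ) * (j / w))

/-- The Gamma density times `e^{a t}` has exponentially small mass outside the window. -/
structure TailBd (a δ w q C : ℝ) : Prop where
  hq0 : 0 < q
  hq1 : q < 1
  hC : 0 ≤ C
  bd : ∀ j : ℕ, ∫ t in Ioi (0 : ℝ) \ win δ w j, Real.exp (a * t) * ker w j t ≤ C * q ^ j

/-- `G` is holomorphic in `Re w > -η` and `G(w) = exp (- w ∫ v(t) e^{-wt} dt)` for `Re w > a`, with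
`|v t| ≤ A e^{a t}`. -/
structure Setup (v : ℝ → ℝ) (G : ℂ → ℂ) (A a η : ℝ) : Prop where
  grow : Grow v A a
  hη : 0 < η
  diff : DifferentiableOn ℂ G {s : ℂ | -η < s.re}
  eq : ∀ w : ℂ, a < w.re → G w = Complex.exp (-(w * lap v w))

/-- The differences of `M` are, up to an exponentially small error, power sums of finitely many points of the
closed unit disk: `(j+1) (M_{j+1} - M_j) = ∑_ζ m_ζ ζ^{-(j+1)} + u_j`. -/
structure Data (M : ℕ → ℝ) (Z : Finset ℂ) (m : ℂ → ℕ) (u : ℕ → ℂ) (q C : ℝ) : Prop where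
  hZ0 : ∀ ζ ∈ Z, ζ ≠ 0
  hZ1 : ∀ ζ ∈ Z, ‖ζ‖ ≤ 1
  hm : ∀ ζ ∈ Z, 1 ≤ m ζ
  hq0 : 0 ≤ q
  hq1 : q < 1
  hC : 0 ≤ C
  hu : ∀ j, ‖u j‖ ≤ C * q ^ j
  hrec : ∀ j : ℕ, ((j : ℂ) + 1) * ((M (j + 1) : ℂ) - (M j : ℂ)) =
    ∑ ζ ∈ Z, (m ζ : ℂ) * (ζ⁻¹) ^ (j + 1) + u j

end Pool.Agent.Helper7.GW
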