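import Pool.Agent.Helper7.GW.SSDef
import Pool.Agent.Helper58.BSD.BFrame

namespace Pool.Agent.Helper7.GW

open MeasureTheory Set Filter Topology Pool.Agent.Helper13.Bsd

theorem SS_eq58 (W : WeierstrassCurve ℤ) (N : ℕ → ℕ) (x : ℝ) : SS W N x = Pool.Agent.Helper58.BSD.SS W N x := rfl

theorem bsd_frame (W : WeierstrassCurve ℤ) (N : ℕ → ℕ) (hΔ : W.Δ ≠ 0)
    (hNdef : ∀ p : ℕ, N p = 1 + ((Finset.range p ×ˢ Finset.range p).filter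
      (fun q : ℕ × ℕ => (p : ℤ) ∣ ((q.2 : ℤ) ^ 2 + W.a₁ * (q.1 : ℤ) * (q.2 : ℤ) + W.a₃ * (q.2 : ℤ)
        - ((q.1 : ℤ) ^ 3 + W.a₂ * (q.1 : ℤ) ^ 2 + W.a₄ * (q.1 : ℤ) + W.a₆)))).card)
    (F : ℂ → ℂ) (hFd : Differentiable ℂ F) (hF : EulerHyp W N F) :
    ∃ (e : ℝ → ℝ) (G : ℂ → ℂ) (A η C0 E0 : ℝ), Setup (fun t => LL N (badW W) t - e t) G A (1 / 2) η ∧
      Measurable e ∧ (∀ t, 0 < t → |e t| ≤ C0) ∧ (∀ s : ℂ, 0 < s.re → (G s = 0 ↔ F (1 + s) = 0)) ∧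
      0 < ‖iteratedDeriv (analyticOrderNatAt F 1) F 1‖ ∧
      Tendsto (fun y : ℝ => ‖G (y : ℂ)‖ / y ^ (analyticOrderNatAt F 1)) (𝓝[>] 0)
        (𝓝 (‖iteratedDeriv (analyticOrderNatAt F 1) F 1‖ / (analyticOrderNatAt F 1).factorial * Real.exp E0)) ∧
      Tendsto (fun t => e t + SS W N (Real.exp t)) atTop (𝓝 (Real.log 2 + E0)) ∧
      (∃ C1 : ℝ, ∀ x, 0 ≤ SS W N x ∧ SS W N x ≤ C1) := by
  obtain ⟨e, G, A, η, C0, E, h1, h2, h3, -, h5, h6, h7, h8, C1, -, h9⟩ :=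
    Pool.Agent.Helper58.BSD.bsd_frame W N hNdef hΔ F hFd hF
  refine ⟨e, G, A, η, C0, E, h1, h2, h3, h5, ?_, h7, h8, C1, h9⟩
  by_contra hc
  have h10 : ‖iteratedDeriv (analyticOrderNatAt F 1) F 1‖ = 0 := le_antisymm (not_lt.mp hc) (norm_nonneg _)
  rw [h10, zero_div, zero_mul] at h6
  exact lt_irrefl _ h6

end Pool.Agent.Helper7.GW
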