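import Pool.Agent.Helper7.GW.AFinal
import Pool.Agent.Helper7.GW.Frame

/-!
# Zero-free disks and Gamma means, assembled
-/

namespace Pool.Agent.Helper7.GW

open MeasureTheory Set Filter Topology Pool.Agent.Helper13.Bsd

/-- Gamma mean of `log P_E(e^t)`. -/
noncomputable def MM (W : WeierstrassCurve ℤ) (N : ℕ → ℕ) (w : ℝ) (j : ℕ) : ℝ :=
  ∫ t in Ioi (0 : ℝ), Real.log (PE W N (Real.exp t)) * (w * (w * t) ^ j / (j.factorial : ℝ) * Real.exp (-w * t))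

theorem MM_eq (W : WeierstrassCurve ℤ) (N : ℕ → ℕ)
    (hNdef : ∀ p : ℕ, N p = 1 + ((Finset.range p ×ˢ Finset.range p).filter
      (fun q : ℕ × ℕ => (p : ℤ) ∣ ((q.2 : ℤ) ^ 2 + W.a₁ * (q.1 : ℤ) * (q.2 : ℤ) + W.a₃ * (q.2 : ℤ)
        - ((q.1 : ℤ) ^ 3 + W.a₂ * (q.1 : ℤ) ^ 2 + W.a₄ * (q.1 : ℤ) + W.a₆)))).card) (w : ℝ) (j : ℕ) :
    MM W N w j = gm (LL N (badW W)) w j := by
  unfold MM gm ker
  congr 1
  funext t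
  rw [PE_exp W N hNdef, Real.log_exp]

theorem criterion (W : WeierstrassCurve ℤ) (N : ℕ → ℕ) (hΔ : W.Δ ≠ 0)
    (hNdef : ∀ p : ℕ, N p = 1 + ((Finset.range p ×ˢ Finset.range p).filter
      (fun q : ℕ × ℕ => (p : ℤ) ∣ ((q.2 : ℤ) ^ 2 + W.a₁ * (q.1 : ℤ) * (q.2 : ℤ) + W.a₃ * (q.2 : ℤ)
        - ((q.1 : ℤ) ^ 3 + W.a₂ * (q.1 : ℤ) ^ 2 + W.a₄ * (q.1 : ℤ) + W.a₆)))).card)
    (F : ℂ → ℂ) (hFd : Differentiable ℂ F) (hF : EulerHyp W N F) :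
    (∀ w : ℝ, 1 / 2 < w →
      ((∀ ρ : ℂ, ‖ρ - (1 + w)‖ < w → F ρ ≠ 0) ↔
        ∃ K : ℝ, ∀ j : ℕ, 1 ≤ j → |MM W N w j - (analyticOrderNatAt F 1) * Real.log j| ≤ K) ∧
      ((∀ ρ : ℂ, ‖ρ - (1 + w)‖ < w → F ρ ≠ 0) ↔
        ∀ ε : ℝ, 0 < ε → ∀ᶠ j : ℕ in atTop, MM W N w j ≤ Real.exp (ε * j))) ∧
    ((∀ ρ : ℂ, 1 < ρ.re → F ρ ≠ 0) ↔ ∀ w : ℝ, 1 / 2 < w →
        ∃ K : ℝ, ∀ j : ℕ, 1 ≤ j → |MM W N w j - (analyticOrderNatAt F 1) * Real.log j| ≤ K) ∧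
    ((∀ ρ : ℂ, 1 < ρ.re → F ρ ≠ 0) ↔ ∀ w0 : ℝ, ∃ w : ℝ, w0 < w ∧
        ∀ ε : ℝ, 0 < ε → ∀ᶠ j : ℕ in atTop, MM W N w j ≤ Real.exp (ε * j)) := by
  obtain ⟨e, G, A, η, C0, E0, h1, he, h3, h4, h5, h6, h7, h8⟩ := bsd_frame W N hΔ hNdef F hFd hF
  have h : FrameData W N F e G A η C0 E0 := ⟨h1, h3, h4, h5, h6, h7⟩
  have hM := MM_eq W N hNdef
  simp only [hM]
  have c1 : ∀ w : ℝ, 1 / 2 < w → ((∀ ρ : ℂ, ‖ρ - (1 + w)‖ < w → F ρ ≠ 0) ↔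
        ∃ K : ℝ, ∀ j : ℕ, 1 ≤ j → |gm (LL N (badW W)) w j - (analyticOrderNatAt F 1) * Real.log j| ≤ K) := by
    intro w hw
    exact ⟨h.crit1 he hw, fun hK => h.crit2 he hw (fun ε hε => bdd_imp_exp hK hε)⟩
  have c2 : ∀ w : ℝ, 1 / 2 < w → ((∀ ρ : ℂ, ‖ρ - (1 + w)‖ < w → F ρ ≠ 0) ↔
        ∀ ε : ℝ, 0 < ε → ∀ᶠ j : ℕ in atTop, gm (LL N (badW W)) w j ≤ Real.exp (ε * j)) := by
    intro w hw
    exact ⟨fun hz ε hε => bdd_imp_exp (h.crit1 he hw hz) hε, h.crit2 he hw⟩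
  refine ⟨fun w hw => ⟨c1 w hw, c2 w hw⟩, ?_, ?_⟩
  · rw [halfplane_iff (1 / 2)]
    constructor
    · intro hz w hw
      exact (c1 w hw).mp (hz w hw (by linarith))
    · intro hz w hw _
      exact (c1 w hw).mpr (hz w hw)
  · rw [halfplane_iff (1 / 2)]
    constructor
    · intro hz w0
      have hw : 1 / 2 < max (w0 + 1) 1 := lt_of_lt_of_le (by norm_num) (le_max_right _ _)
      exact ⟨max (w0 + 1) 1, lt_of_lt_of_le (by linarith) (le_max_left _ _), (c2 _ hw).mp (hz _ hw (by linarith))⟩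
    · intro hz w hw _ ρ hρ
      obtain ⟨w', hw', hw2⟩ := hz w
      apply (c2 w' (by linarith)).mpr hw2
      calc ‖ρ - (1 + (w' : ℂ))‖ = ‖(ρ - (1 + w)) + ((w - w' : ℝ) : ℂ)‖ := by
            congr 1; push_cast; ring
        _ ≤ ‖ρ - (1 + w)‖ + ‖((w - w' : ℝ) : ℂ)‖ := norm_add_le _ _
        _ = ‖ρ - (1 + w)‖ + (w' - w) := by
            rw [Complex.norm_real, Real.norm_eq_abs, abs_of_neg (by linarith)]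
            ring
        _ < w' := by linarith

end Pool.Agent.Helper7.GW
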