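import Pool.Agent.Helper7.GW.Defs

/-!
# GW-11: location of the windows and elementary growth facts

(a) With `J = ⌈w (1+δ/2) T⌉₊` and `J ≤ j < J + N`: `(1-δ') j/w ≥ (1-δ/8)(1+δ/2) T ≥ T` (as `δ ≤ 1`), and
`(1+δ') j/w ≤ (1+δ/8) ((1+δ/2) T + (N+1)/w) ≤ (1 + 11δ/16) T + 2(N+1)/w ≤ (1+δ) T` for `T ≥ 32 (N+1)/(5 δ w)`.
(b) `t ∈ win δ' w j`: `(1-δ') ≤ t/(j/w) ≤ 1+δ'`, `log(1+δ') ≤ δ'`, `-log(1-δ') ≤ 2δ'` for `δ' ≤ 1/2`.
(c) `log j · q^j → 0`. (d) `(ρ⁻¹)^j/j` beats every `c + r |log (j/w)|`.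
-/

namespace Pool.Agent.Helper7.GW

open MeasureTheory Set Filter Topology

theorem win_subset {δ δ' w : ℝ} (hδ : 0 < δ) (hδ1 : δ ≤ 1) (hδ' : 0 ≤ δ') (hδ'' : δ' ≤ δ / 8) (hw : 0 < w) (N : ℕ) :
    ∀ᶠ T : ℝ in atTop, ∀ j : ℕ, ⌈w * (1 + δ / 2) * T⌉₊ ≤ j → j < ⌈w * (1 + δ / 2) * T⌉₊ + N →
      win δ' w j ⊆ Icc T ((1 + δ) * T) := by
  filter_upwards [eventually_ge_atTop (0 : ℝ), eventually_ge_atTop (32 * ((N : ℝ) + 1) / (5 * δ * w))]
    with T hT0 hT j hj1 hj2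
  have hx0 : 0 ≤ w * (1 + δ / 2) * T := by positivity
  have h1 : w * (1 + δ / 2) * T ≤ j := le_trans (Nat.le_ceil _) (by exact_mod_cast hj1)
  have h2 : (j : ℝ) ≤ w * (1 + δ / 2) * T + 1 + N := by
    have h3 : (j : ℝ) < (⌈w * (1 + δ / 2) * T⌉₊ : ℝ) + N := by exact_mod_cast hj2
    have h4 := Nat.ceil_lt_add_one hx0
    linarith
  have h5 : (1 + δ / 2) * T ≤ j / w := by
    rw [le_div_iff₀ hw]
    linarith
  have h6 : j / w ≤ (1 + δ / 2) * T + ((N : ℝ) + 1) / w := by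
    rw [div_le_iff₀ hw, add_mul, div_mul_cancel₀ _ hw.ne']
    linarith
  have hx : 0 ≤ (j : ℝ) / w := by positivity
  have h7 : 32 * (((N : ℝ) + 1) / w) ≤ 5 * δ * T := by
    rw [div_le_iff₀ (by positivity)] at hT
    rw [← mul_div_assoc, div_le_iff₀ hw]
    linarith
  have hN : 0 ≤ ((N : ℝ) + 1) / w := by positivity
  unfold win
  apply Icc_subset_Icc
  · have e1 : (1 - δ / 8) * ((1 + δ / 2) * T) ≤ (1 - δ') * (j / w) :=
      mul_le_mul (by linarith) h5 (by positivity) (by linarith)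
    have e2 : T ≤ (1 - δ / 8) * ((1 + δ / 2) * T) := by
      have : 0 ≤ δ * (6 - δ) * T := by
        apply mul_nonneg (mul_nonneg hδ.le (by linarith)) hT0
      nlinarith
    linarith
  · have e1 : (1 + δ') * (j / w) ≤ (1 + δ / 8) * ((1 + δ / 2) * T + ((N : ℝ) + 1) / w) :=
      mul_le_mul (by linarith) h6 hx (by linarith)
    have e2 : δ ^ 2 * T ≤ δ * T := by
      apply mul_le_mul_of_nonneg_right _ hT0
      nlinarith
    have e3 : δ * (((N : ℝ) + 1) / w) ≤ 1 * (((N : ℝ) + 1) / w) :=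
      mul_le_mul_of_nonneg_right hδ1 hN
    nlinarith

theorem tendsto_J {δ w : ℝ} (hδ : 0 < δ) (hw : 0 < w) :
    Tendsto (fun T : ℝ => ⌈w * (1 + δ / 2) * T⌉₊) atTop atTop := by
  apply tendsto_nat_ceil_atTop.comp
  exact Tendsto.const_mul_atTop (by positivity) tendsto_id

theorem log_win {δ w t : ℝ} (hδ : 0 ≤ δ) (hδ1 : δ ≤ 1 / 2) (hw : 0 < w) {j : ℕ} (hj : 1 ≤ j) (ht : t ∈ win δ w j) :
    |Real.log t - Real.log (j / w)| ≤ 2 * δ := by
  have hj' : (0 : ℝ) < j := by exact_mod_cast hj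
  have hx : 0 < (j : ℝ) / w := by positivity
  obtain ⟨h1, h2⟩ := ht
  have ht0 : 0 < t := by
    have : 0 < (1 - δ) * ((j : ℝ) / w) := mul_pos (by linarith) hx
    linarith
  have hy : 0 < t / (j / w) := by positivity
  rw [← Real.log_div ht0.ne' hx.ne', abs_le]
  have h3 : 1 - δ ≤ t / (j / w) := by
    rw [le_div_iff₀ hx]
    exact h1
  have h4 : t / (j / w) ≤ 1 + δ := by
    rw [div_le_iff₀ hx]
    exact h2
  constructor
  · have h5 := Real.one_sub_inv_le_log_of_pos hy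
    have h6 : (t / (j / w))⁻¹ ≤ 1 + 2 * δ := by
      rw [inv_le_comm₀ hy (by linarith)]
      have h7 : (1 + 2 * δ)⁻¹ ≤ 1 - δ := by
        rw [inv_le_iff_one_le_mul₀ (by linarith)]
        nlinarith
      linarith
    linarith
  · have h5 := Real.log_le_sub_one_of_pos hy
    linarith

private lemma loc_abs_log (w : ℝ) {j : ℕ} (hj : 1 ≤ j) : |Real.log (j / w)| ≤ j + |Real.log w| := by
  have hj' : (1 : ℝ) ≤ j := by exact_mod_cast hj
  by_cases hw : w = 0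
  · rw [hw, div_zero, Real.log_zero, abs_zero]
    linarith
  · rw [Real.log_div (by linarith) hw]
    have h1 : 0 ≤ Real.log (j : ℝ) := Real.log_nonneg hj'
    have h2 : Real.log (j : ℝ) ≤ j := by
      have := Real.log_le_sub_one_of_pos (by linarith : (0 : ℝ) < j)
      linarith
    calc |Real.log (j : ℝ) - Real.log w| ≤ |Real.log (j : ℝ)| + |Real.log w| := abs_sub _ _
      _ ≤ j + |Real.log w| := by
        rw [abs_of_nonneg h1]
        linarith

theorem tendsto_log_mul_pow {q : ℝ} (hq0 : 0 < q) (hq1 : q < 1) (w : ℝ) (r c C : ℝ) :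
    Tendsto (fun j : ℕ => (|r * Real.log (j / w) + c| + |c|) * (C * q ^ j)) atTop (𝓝 0) := by
  have h1 := tendsto_self_mul_const_pow_of_lt_one hq0.le hq1
  have h2 := tendsto_pow_atTop_nhds_zero_of_lt_one hq0.le hq1
  have h3 : Tendsto (fun j : ℕ => |r| * |C| * ((j : ℝ) * q ^ j) +
      (|r| * |Real.log w| + 2 * |c|) * |C| * q ^ j) atTop (𝓝 0) := by
    have := (h1.const_mul (|r| * |C|)).add (h2.const_mul ((|r| * |Real.log w| + 2 * |c|) * |C|))
    simpa using this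
  apply squeeze_zero_norm' _ h3
  filter_upwards [eventually_ge_atTop 1] with j hj
  have h4 := loc_abs_log w hj
  have h5 : |r * Real.log (j / w) + c| ≤ |r| * (j + |Real.log w|) + |c| := by
    refine le_trans (abs_add_le _ _) ?_
    rw [abs_mul]
    have := mul_le_mul_of_nonneg_left h4 (abs_nonneg r)
    linarith
  have hqj : 0 ≤ q ^ j := pow_nonneg hq0.le j
  rw [Real.norm_eq_abs, abs_mul, abs_mul, abs_of_nonneg hqj,
    abs_of_nonneg (add_nonneg (abs_nonneg _) (abs_nonneg c))]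
  have h6 : 0 ≤ |C| * q ^ j := mul_nonneg (abs_nonneg C) hqj
  have h7 := mul_le_mul_of_nonneg_right (add_le_add_left h5 |c|) h6
  refine le_trans ?_ (le_trans h7 (le_of_eq ?_))
  · exact le_rfl
  · ring

theorem eventually_log_lt {ρ η : ℝ} (hρ0 : 0 < ρ) (hρ1 : ρ < 1) (hη : 0 < η) (w r c : ℝ) :
    ∀ᶠ j : ℕ in atTop, |r * Real.log (j / w)| + c < η * (ρ⁻¹) ^ j / j := by
  have h1 := tendsto_pow_const_mul_const_pow_of_lt_one 1 hρ0.le hρ1
  have h2 := tendsto_pow_const_mul_const_pow_of_lt_one 2 hρ0.le hρ1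
  have h3 : Tendsto (fun j : ℕ => |r| * ((j : ℝ) ^ 2 * ρ ^ j) +
      (|r| * |Real.log w| + |c|) * ((j : ℝ) ^ 1 * ρ ^ j)) atTop (𝓝 0) := by
    have := (h2.const_mul |r|).add (h1.const_mul (|r| * |Real.log w| + |c|))
    simpa using this
  filter_upwards [h3.eventually (gt_mem_nhds hη), eventually_ge_atTop 1] with j hlt hj
  have hj' : (0 : ℝ) < j := by exact_mod_cast hj
  have hρj : 0 < ρ ^ j := pow_pos hρ0 j
  rw [lt_div_iff₀ hj', inv_pow, ← div_eq_mul_inv, lt_div_iff₀ hρj]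
  have h4 := loc_abs_log w hj
  have h5 : |r * Real.log (j / w)| + c ≤ |r| * (j + |Real.log w|) + |c| := by
    rw [abs_mul]
    have := mul_le_mul_of_nonneg_left h4 (abs_nonneg r)
    have := le_abs_self c
    linarith
  have h6 : 0 ≤ (j : ℝ) * ρ ^ j := by positivity
  have h7 := mul_le_mul_of_nonneg_right h5 h6
  refine lt_of_le_of_lt ?_ hlt
  refine le_trans (le_of_eq ?_) (le_trans h7 (le_of_eq ?_))
  · ring
  · ring

end Pool.Agent.Helper7.GW
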