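import Pool.Agent.Helper7.GW.Power

/-!
# GW-02: tails of the Gamma density (Chernoff)

For `t > (1+δ) j/w`: `1 ≤ e^{s (t - (1+δ) j/w)}` with `s = w δ/4`, so the right tail is at most
`e^{-s(1+δ)j/w} ∫ e^{(a+s)t} ker = e^{-δ(1+δ)j/4} (w/(w-a-s))^{j+1} = C (e^{-δ(1+δ)/4}/(1-y))^j`, `y = δ/4 + a/w`.
With `W0 = 64 (a+1)/δ²`: `a/w ≤ δ²/64`, `-log(1-y) ≤ y + y²` (for `0 ≤ y ≤ 1/2`), `y + y² ≤ δ/4 + 0.1 δ² < δ(1+δ)/4`: base `< 1`.
For `t < (1-δ) j/w`: `1 ≤ e^{s ((1-δ) j/w - t)}` with `s = w δ`, so the left tail is at most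
`e^{δ(1-δ)j} ∫ e^{(a-s)t} ker = e^{δ(1-δ)j} (w/(w-a+s))^{j+1} = C (e^{δ(1-δ)}/(1+y))^j`, `y = δ - a/w ≥ δ - δ²/64`,
`log(1+y) ≥ y - y²/2 ≥ δ - δ²/64 - δ²/2 > δ(1-δ)`: base `< 1`.
Use `integral_exp_ker` (valid for any real `a < w`, also negative). Take for `q` the maximum of the two bases, `C` the sum of
the two constants.
-/

namespace Pool.Agent.Helper7.GW

open MeasureTheory Set Filter Topology

private lemma gw2_base1 {δ u : ℝ} (hδ : 0 < δ) (hδ1 : δ < 1) (hu0 : 0 ≤ u) (hu : u ≤ δ ^ 2 / 64) :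
    Real.exp (-(δ * (1 + δ) / 4)) < 1 - (δ / 4 + u) := by
  set x : ℝ := δ * (1 + δ) / 4 with hx
  have hx0 : 0 ≤ x := by positivity
  have h1 := Real.quadratic_le_exp_of_nonneg hx0
  have h2 : 0 < 1 + x + x ^ 2 / 2 := by positivity
  have hy : 0 < 1 - (δ / 4 + u) := by nlinarith
  rw [Real.exp_neg]
  have h3 : (Real.exp x)⁻¹ ≤ (1 + x + x ^ 2 / 2)⁻¹ := inv_anti₀ h2 h1
  refine lt_of_le_of_lt h3 ?_
  rw [inv_lt_iff_one_lt_mul₀ h2]
  -- `1 < (1 + x + x^2/2) (1 - y)`
  have hxy : (1 + x + x ^ 2 / 2) * (1 - (δ / 4 + δ ^ 2 / 64)) ≤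
      (1 - (δ / 4 + u)) * (1 + x + x ^ 2 / 2) := by
    nlinarith
  refine lt_of_lt_of_le ?_ hxy
  rw [hx]
  have hd2 : 0 < δ ^ 2 := by positivity
  have hd3 : 0 < δ ^ 3 := by positivity
  have hd4 : 0 < δ ^ 4 := by positivity
  have hd5 : 0 < δ ^ 5 := by positivity
  have hd6 : 0 < δ ^ 6 := by positivity
  have h43 : δ ^ 4 ≤ δ ^ 3 := pow_le_pow_of_le_one hδ.le hδ1.le (by norm_num)
  have h53 : δ ^ 5 ≤ δ ^ 3 := pow_le_pow_of_le_one hδ.le hδ1.le (by norm_num)
  have h63 : δ ^ 6 ≤ δ ^ 3 := pow_le_pow_of_le_one hδ.le hδ1.le (by norm_num)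
  have h32 : δ ^ 3 ≤ δ ^ 2 := pow_le_pow_of_le_one hδ.le hδ1.le (by norm_num)
  nlinarith

private lemma gw2_base2 {δ u : ℝ} (hδ : 0 < δ) (hδ1 : δ < 1) (hu : u ≤ δ ^ 2 / 64) :
    Real.exp (δ * (1 - δ)) < 1 + (δ - u) := by
  set x : ℝ := δ * (1 - δ) with hx
  have hx0 : 0 ≤ x := mul_nonneg hδ.le (by linarith)
  have hx1 : x ≤ 1 := by nlinarith
  have h1 := Real.exp_bound' hx0 hx1 (n := 3) (by norm_num)
  have h2 : Real.exp x ≤ 1 + x + x ^ 2 / 2 + x ^ 3 * (2 / 9) := by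
    refine h1.trans (le_of_eq ?_)
    simp only [Finset.sum_range_succ, Finset.sum_range_zero, Nat.factorial]
    push_cast
    ring
  refine lt_of_le_of_lt h2 ?_
  have h3 : 0 ≤ x ^ 2 := sq_nonneg x
  have hxd : x ≤ δ := by nlinarith
  have h4 : x ^ 2 ≤ δ ^ 2 * (1 - δ) := by
    have : x ^ 2 = δ ^ 2 * (1 - δ) * (1 - δ) := by rw [hx]; ring
    rw [this]
    have h5 : 0 ≤ δ ^ 2 * (1 - δ) := mul_nonneg (sq_nonneg _) (by linarith)
    nlinarith
  have h6 : x ^ 3 ≤ δ ^ 2 * (1 - δ) * δ := by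
    have : x ^ 3 = x ^ 2 * x := by ring
    rw [this]
    have h7 : 0 ≤ δ ^ 2 * (1 - δ) := mul_nonneg (sq_nonneg _) (by linarith)
    calc x ^ 2 * x ≤ δ ^ 2 * (1 - δ) * x := mul_le_mul_of_nonneg_right h4 hx0
      _ ≤ δ ^ 2 * (1 - δ) * δ := mul_le_mul_of_nonneg_left hxd h7
  have hd2 : 0 < δ ^ 2 := by positivity
  have h8 : x = δ - δ ^ 2 := by rw [hx]; ring
  have h9 : 0 ≤ δ ^ 3 := by positivity
  have h10 : 0 ≤ δ ^ 4 := by positivity
  have h11 : 1 + x + x ^ 2 / 2 + x ^ 3 * (2 / 9) ≤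
      1 + (δ - δ ^ 2) + δ ^ 2 * (1 - δ) / 2 + δ ^ 2 * (1 - δ) * δ * (2 / 9) := by
    rw [← h8]
    linarith
  refine lt_of_le_of_lt h11 ?_
  nlinarith

theorem gamma_tail {a δ : ℝ} (ha : 0 ≤ a) (hδ : 0 < δ) (hδ1 : δ < 1) :
    ∃ W0 : ℝ, a < W0 ∧ 1 ≤ W0 ∧ ∀ w : ℝ, W0 ≤ w → ∃ q C : ℝ, TailBd a δ w q C := by
  have hd2 : 0 < δ ^ 2 := by positivity
  have hd21 : δ ^ 2 ≤ 1 := by nlinarith
  refine ⟨64 * (a + 1) / δ ^ 2, ?_, ?_, fun w hw => ?_⟩
  · rw [lt_div_iff₀ hd2]
    nlinarith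
  · rw [le_div_iff₀ hd2]
    nlinarith
  have hW1 : 1 ≤ 64 * (a + 1) / δ ^ 2 := by
    rw [le_div_iff₀ hd2]
    nlinarith
  have hw1 : 1 ≤ w := hW1.trans hw
  have hw0 : 0 < w := by linarith
  rw [div_le_iff₀ hd2] at hw
  set u : ℝ := a / w with hu
  have hua : a = u * w := by
    rw [hu]
    field_simp
  have hu0 : 0 ≤ u := div_nonneg ha hw0.le
  have hu1 : u ≤ δ ^ 2 / 64 := by
    rw [hu, div_le_iff₀ hw0]
    nlinarith
  have hb1 := gw2_base1 hδ hδ1 hu0 hu1
  have hb2 := gw2_base2 hδ hδ1 hu1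
  set E1 : ℝ := Real.exp (-(δ * (1 + δ) / 4)) with hE1
  set E2 : ℝ := Real.exp (δ * (1 - δ)) with hE2
  have hE10 : 0 < E1 := Real.exp_pos _
  have hE20 : 0 < E2 := Real.exp_pos _
  have hy1 : 0 < 1 - (δ / 4 + u) := lt_trans hE10 hb1
  have hy2 : 0 < 1 + (δ - u) := lt_trans hE20 hb2
  set b1 : ℝ := E1 / (1 - (δ / 4 + u)) with hb1d
  set b2 : ℝ := E2 / (1 + (δ - u)) with hb2d
  have hb10 : 0 < b1 := div_pos hE10 hy1
  have hb20 : 0 < b2 := div_pos hE20 hy2
  have hb11 : b1 < 1 := (div_lt_one hy1).2 hb1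
  have hb21 : b2 < 1 := (div_lt_one hy2).2 hb2
  refine ⟨max b1 b2, 1 / (1 - (δ / 4 + u)) + 1 / (1 + (δ - u)),
    lt_of_lt_of_le hb10 (le_max_left _ _), max_lt hb11 hb21, by positivity, fun j => ?_⟩
  obtain ⟨s, hs⟩ : ∃ s : ℝ, s = w * δ / 4 := ⟨_, rfl⟩
  obtain ⟨s', hs'⟩ : ∃ s' : ℝ, s' = w * δ := ⟨_, rfl⟩
  have hs0 : 0 < s := by rw [hs]; positivity
  have hs0' : 0 < s' := by rw [hs']; positivity
  have has : a + s < w := by
    rw [hs, hua]
    nlinarith
  have has' : a - s' < w := by linarith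
  set k1 : ℝ := Real.exp (-(s * ((1 + δ) * (j / w)))) with hk1
  set k2 : ℝ := Real.exp (s' * ((1 - δ) * (j / w))) with hk2
  have haw : a < w := by linarith
  have hi := integrableOn_exp_ker hw0 haw j
  have hi1 := (integrableOn_exp_ker hw0 has j).const_mul k1
  have hi2 := (integrableOn_exp_ker hw0 has' j).const_mul k2
  have hmw : MeasurableSet (win δ w j) := measurableSet_Icc
  have hsub : Ioi (0 : ℝ) \ win δ w j ⊆ Ioi 0 := sdiff_subset
  have hi12 : IntegrableOn (fun t => k1 * (Real.exp ((a + s) * t) * ker w j t) +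
      k2 * (Real.exp ((a - s') * t) * ker w j t)) (Ioi 0) := hi1.add hi2
  have hg0 : ∀ t ∈ Ioi (0 : ℝ), 0 ≤ k1 * (Real.exp ((a + s) * t) * ker w j t) +
      k2 * (Real.exp ((a - s') * t) * ker w j t) := by
    intro t ht
    have h1 := ker_nonneg hw0 j (le_of_lt ht)
    positivity
  calc ∫ t in Ioi (0 : ℝ) \ win δ w j, Real.exp (a * t) * ker w j t
      ≤ ∫ t in Ioi (0 : ℝ) \ win δ w j, (k1 * (Real.exp ((a + s) * t) * ker w j t) +
          k2 * (Real.exp ((a - s') * t) * ker w j t)) := by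
        refine setIntegral_mono_on (hi.mono_set hsub) (hi12.mono_set hsub)
          (measurableSet_Ioi.diff hmw) fun t ht => ?_
        have ht0 : 0 < t := ht.1
        have hk := ker_nonneg hw0 j ht0.le
        have h1 : k1 * (Real.exp ((a + s) * t) * ker w j t) =
            Real.exp (s * (t - (1 + δ) * (j / w))) * (Real.exp (a * t) * ker w j t) := by
          have h0 : Real.exp (-(s * ((1 + δ) * (j / w)))) * Real.exp ((a + s) * t) =
              Real.exp (s * (t - (1 + δ) * (j / w))) * Real.exp (a * t) := by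
            rw [← Real.exp_add, ← Real.exp_add]
            congr 1
            ring
          calc k1 * (Real.exp ((a + s) * t) * ker w j t)
              = (Real.exp (-(s * ((1 + δ) * (j / w)))) * Real.exp ((a + s) * t)) *
                ker w j t := (mul_assoc _ _ _).symm
            _ = _ := by rw [h0, mul_assoc]
        have h2 : k2 * (Real.exp ((a - s') * t) * ker w j t) =
            Real.exp (s' * ((1 - δ) * (j / w) - t)) * (Real.exp (a * t) * ker w j t) := by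
          have h0 : Real.exp (s' * ((1 - δ) * (j / w))) * Real.exp ((a - s') * t) =
              Real.exp (s' * ((1 - δ) * (j / w) - t)) * Real.exp (a * t) := by
            rw [← Real.exp_add, ← Real.exp_add]
            congr 1
            ring
          calc k2 * (Real.exp ((a - s') * t) * ker w j t)
              = (Real.exp (s' * ((1 - δ) * (j / w))) * Real.exp ((a - s') * t)) *
                ker w j t := (mul_assoc _ _ _).symm
            _ = _ := by rw [h0, mul_assoc]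
        rw [h1, h2, ← add_mul]
        have hp : 0 ≤ Real.exp (a * t) * ker w j t := mul_nonneg (Real.exp_pos _).le hk
        refine le_mul_of_one_le_left hp ?_
        have hnot : ¬ ((1 - δ) * (j / w) ≤ t ∧ t ≤ (1 + δ) * (j / w)) := ht.2
        rcases lt_or_ge t ((1 - δ) * (j / w)) with h | h
        · have h3 : 0 ≤ s' * ((1 - δ) * (j / w) - t) :=
            mul_nonneg hs0'.le (by linarith)
          have h4 := Real.one_le_exp h3
          have h5 := Real.exp_pos (s * (t - (1 + δ) * (j / w)))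
          linarith
        · have h6 : (1 + δ) * (j / w) < t := by
            by_contra hcon
            exact hnot ⟨h, not_lt.1 hcon⟩
          have h3 : 0 ≤ s * (t - (1 + δ) * (j / w)) :=
            mul_nonneg hs0.le (by linarith)
          have h4 := Real.one_le_exp h3
          have h5 := Real.exp_pos (s' * ((1 - δ) * (j / w) - t))
          linarith
    _ ≤ ∫ t in Ioi (0 : ℝ), (k1 * (Real.exp ((a + s) * t) * ker w j t) +
          k2 * (Real.exp ((a - s') * t) * ker w j t)) := by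
        refine setIntegral_mono_set hi12 ?_ (Eventually.of_forall hsub)
        exact (ae_restrict_iff' measurableSet_Ioi).2 (Eventually.of_forall hg0)
    _ = k1 * (w / (w - (a + s))) ^ (j + 1) + k2 * (w / (w - (a - s'))) ^ (j + 1) := by
        rw [integral_add hi1 hi2, integral_const_mul, integral_const_mul,
          integral_exp_ker hw0 has, integral_exp_ker hw0 has']
    _ = 1 / (1 - (δ / 4 + u)) * b1 ^ j + 1 / (1 + (δ - u)) * b2 ^ j := by
        have h1 : w / (w - (a + s)) = 1 / (1 - (δ / 4 + u)) := by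
          have h2 : w - (a + s) = w * (1 - (δ / 4 + u)) := by
            rw [hs, hua]
            ring
          rw [h2, div_mul_eq_div_div, div_self hw0.ne']
        have h3 : w / (w - (a - s')) = 1 / (1 + (δ - u)) := by
          have h2 : w - (a - s') = w * (1 + (δ - u)) := by
            rw [hs', hua]
            ring
          rw [h2, div_mul_eq_div_div, div_self hw0.ne']
        have h4 : k1 = E1 ^ j := by
          rw [hk1, hE1, ← Real.exp_nat_mul]
          congr 1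
          rw [hs]
          field_simp
        have h5 : k2 = E2 ^ j := by
          rw [hk2, hE2, ← Real.exp_nat_mul]
          congr 1
          rw [hs']
          field_simp
        have h6 : ∀ E D : ℝ, E ^ j * (1 / D) ^ (j + 1) = 1 / D * (E / D) ^ j := by
          intro E D
          rw [div_eq_mul_inv E D, mul_pow, one_div, pow_succ]
          ring
        rw [h1, h3, h4, h5, hb1d, hb2d, h6, h6]
    _ ≤ 1 / (1 - (δ / 4 + u)) * (max b1 b2) ^ j + 1 / (1 + (δ - u)) * (max b1 b2) ^ j := by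
        have h1 : b1 ^ j ≤ (max b1 b2) ^ j := pow_le_pow_left₀ hb10.le (le_max_left _ _) j
        have h2 : b2 ^ j ≤ (max b1 b2) ^ j := pow_le_pow_left₀ hb20.le (le_max_right _ _) j
        exact add_le_add (mul_le_mul_of_nonneg_left h1 (by positivity))
          (mul_le_mul_of_nonneg_left h2 (by positivity))
    _ = (1 / (1 - (δ / 4 + u)) + 1 / (1 + (δ - u))) * (max b1 b2) ^ j := by ring

end Pool.Agent.Helper7.GW
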