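import Pool.Agent.Helper7.GW.Power

/-!
# GW-03: an upper bound on the window bounds the Gamma mean

`gm f w j = ∫_{win} f ker + ∫_{tail} f ker ≤ K ∫_{win} ker + A ∫_{tail} e^{at} ker`, `∫_{win} ker = 1 - ∫_{tail} ker` and
`0 ≤ ∫_{tail} ker ≤ ∫_{tail} e^{at} ker ≤ C q^j` (`a ≥ 0`, `t > 0`). All integrals over subsets of `Ioi 0`
(`win` intersected with `Ioi 0`; for `j = 0` the window is `{0}`, fine).
-/

namespace Pool.Agent.Helper7.GW

open MeasureTheory Set Filter Topology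

theorem window_ub {f : ℝ → ℝ} {A a δ w q C : ℝ} (hf : Grow f A a) (haw : a < w) (hT : TailBd a δ w q C)
    (j : ℕ) (K : ℝ) (hK : ∀ t ∈ win δ w j, 0 < t → f t ≤ K) :
    gm f w j ≤ K + (|K| + A) * (C * q ^ j) := by
  have hw : 0 < w := lt_of_le_of_lt hf.ha haw
  have hWm : MeasurableSet (win δ w j) := measurableSet_Icc
  have hTm : MeasurableSet (Ioi (0 : ℝ) \ win δ w j) := measurableSet_Ioi.diff hWm
  have hIm : MeasurableSet (Ioi (0 : ℝ) ∩ win δ w j) := measurableSet_Ioi.inter hWm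
  have hi1 := integrableOn_mul_ker hf haw j
  have hi2 := integrableOn_ker hw j
  have hi3 := integrableOn_exp_ker hw haw j
  have hsub1 : Ioi (0 : ℝ) ∩ win δ w j ⊆ Ioi 0 := inter_subset_left
  have hsub2 : Ioi (0 : ℝ) \ win δ w j ⊆ Ioi 0 := diff_subset
  have e1 : gm f w j = (∫ t in Ioi (0 : ℝ) ∩ win δ w j, f t * ker w j t) +
      ∫ t in Ioi (0 : ℝ) \ win δ w j, f t * ker w j t := by
    unfold gm
    exact (integral_inter_add_diff hWm hi1).symm
  have e2 : (∫ t in Ioi (0 : ℝ) ∩ win δ w j, ker w j t) +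
      ∫ t in Ioi (0 : ℝ) \ win δ w j, ker w j t = 1 := by
    rw [integral_inter_add_diff hWm hi2, integral_ker hw j]
  have b1 : ∫ t in Ioi (0 : ℝ) ∩ win δ w j, f t * ker w j t ≤
      K * ∫ t in Ioi (0 : ℝ) ∩ win δ w j, ker w j t := by
    rw [← integral_const_mul]
    refine setIntegral_mono_on (hi1.mono_set hsub1) ((hi2.mono_set hsub1).const_mul K) hIm ?_
    intro t ht
    exact mul_le_mul_of_nonneg_right (hK t ht.2 ht.1) (ker_nonneg hw j (le_of_lt ht.1))
  have b2 : ∫ t in Ioi (0 : ℝ) \ win δ w j, f t * ker w j t ≤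
      A * ∫ t in Ioi (0 : ℝ) \ win δ w j, Real.exp (a * t) * ker w j t := by
    rw [← integral_const_mul]
    refine setIntegral_mono_on (hi1.mono_set hsub2) ((hi3.mono_set hsub2).const_mul A) hTm ?_
    intro t ht
    have h1 : f t ≤ A * Real.exp (a * t) := (le_abs_self _).trans (hf.bd t ht.1)
    calc f t * ker w j t ≤ (A * Real.exp (a * t)) * ker w j t :=
          mul_le_mul_of_nonneg_right h1 (ker_nonneg hw j (le_of_lt ht.1))
      _ = A * (Real.exp (a * t) * ker w j t) := by ring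
  have b3 : ∫ t in Ioi (0 : ℝ) \ win δ w j, ker w j t ≤
      ∫ t in Ioi (0 : ℝ) \ win δ w j, Real.exp (a * t) * ker w j t := by
    refine setIntegral_mono_on (hi2.mono_set hsub2) (hi3.mono_set hsub2) hTm ?_
    intro t ht
    have h1 : 1 ≤ Real.exp (a * t) := Real.one_le_exp (mul_nonneg hf.ha (le_of_lt ht.1))
    exact le_mul_of_one_le_left (ker_nonneg hw j (le_of_lt ht.1)) h1
  have b4 : 0 ≤ ∫ t in Ioi (0 : ℝ) \ win δ w j, ker w j t :=
    setIntegral_nonneg hTm fun t ht => ker_nonneg hw j (le_of_lt ht.1)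
  have b5 := hT.bd j
  have b6 : -K * (∫ t in Ioi (0 : ℝ) \ win δ w j, ker w j t) ≤
      |K| * ∫ t in Ioi (0 : ℝ) \ win δ w j, ker w j t :=
    mul_le_mul_of_nonneg_right (neg_le_abs K) b4
  have b7 : |K| * ∫ t in Ioi (0 : ℝ) \ win δ w j, ker w j t ≤ |K| * (C * q ^ j) :=
    mul_le_mul_of_nonneg_left (b3.trans b5) (abs_nonneg K)
  have b8 : A * ∫ t in Ioi (0 : ℝ) \ win δ w j, Real.exp (a * t) * ker w j t ≤
      A * (C * q ^ j) := mul_le_mul_of_nonneg_left b5 hf.hA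
  have e3 : ∫ t in Ioi (0 : ℝ) ∩ win δ w j, ker w j t =
      1 - ∫ t in Ioi (0 : ℝ) \ win δ w j, ker w j t := by linarith
  rw [e3] at b1
  rw [e1]
  have e4 : K * (1 - ∫ t in Ioi (0 : ℝ) \ win δ w j, ker w j t) =
      K + -K * ∫ t in Ioi (0 : ℝ) \ win δ w j, ker w j t := by ring
  have e5 : K + (|K| + A) * (C * q ^ j) = K + |K| * (C * q ^ j) + A * (C * q ^ j) := by ring
  linarith

end Pool.Agent.Helper7.GW
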