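import Pool.Agent.Helper7.GW.AbsI
import Pool.Agent.Helper7.GW.Tail
import Pool.Agent.Helper7.GW.WinUB
import Pool.Agent.Helper7.GW.Loc

/-!
# GW-16: a zero with real part `θ > 0` makes `v` large in every window

WLOG `δ ≤ 1` and `ε < θ`. `δ' = min (δ/8) (ε/(4θ))`, `w ≥ W0(a,δ')` and `w ≥ 2‖s‖²/ε`, `w > ‖s‖²/θ` (so that `‖s - w‖ < w`:
`‖s-w‖² = w² - 2wθ + ‖s‖²`), for `abs_small` also `w ≥ W1` (`exists_WH`). Suppose `v t < exp((θ-ε) t)` for all `t ∈ [T, (1+δ)T]`. `gm_big`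
gives `j ∈ [J,J+N)` with `gm v w j ≥ η ρ^{-j}/j`, `ρ ≤ ‖s-w‖/w`, so by `dist_bound` `ρ^{-j} ≥ exp((j/w)(θ - ‖s‖²/(2w))) ≥ exp((j/w)(θ - ε/4))`.
On `win δ' w j`: `v t ≤ K := exp((θ-ε)(1+δ')(j/w)) ≤ exp((θ - 3ε/4)(j/w))`, so `gm v w j ≤ K + (K + A) C q^j ≤ (1 + C + AC) K`, and
`η exp((j/w)(ε/2)) / j ≤ 1 + C + AC` fails for large `j`. (`‖s - w‖ ≠ 0` because `G w ≠ 0`.) `abs_small`: the same for `-v` with `gm_small`.
-/

namespace Pool.Agent.Helper7.GW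

open MeasureTheory Set Filter Topology

private theorem ab_core {f : ℝ → ℝ} {A a δ δ' w q C θ ε η ρ : ℝ} {N : ℕ} (hf : Grow f A a)
    (haw : a < w) (hw : 0 < w) (hT : TailBd a δ' w q C) (hθε : 0 < θ - ε) (hε : 0 < ε)
    (hδδ : (θ - ε) * (1 + δ') ≤ θ - 3 * ε / 4) (hη : 0 < η)
    (hρ : ∀ j : ℕ, Real.exp ((j / w) * (θ - ε / 4)) ≤ (ρ⁻¹) ^ j)
    (hbig : ∀ᶠ J : ℕ in atTop, ∃ j : ℕ, J ≤ j ∧ j < J + N ∧ η * (ρ⁻¹) ^ j / j ≤ gm f w j)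
    (hδ : 0 < δ) (hδ1 : δ ≤ 1) (hδ' : 0 ≤ δ') (hδ'' : δ' ≤ δ / 8) :
    ∀ᶠ T : ℝ in atTop, ∃ t ∈ Icc T ((1 + δ) * T), Real.exp ((θ - ε) * t) ≤ f t := by
  have hσ0 : (0 : ℝ) < Real.exp (-(ε / (2 * w))) := Real.exp_pos _
  have hσ1 : Real.exp (-(ε / (2 * w))) < 1 := by
    rw [Real.exp_lt_one_iff]
    have : 0 < ε / (2 * w) := by positivity
    linarith
  have hgrow := eventually_log_lt hσ0 hσ1 hη w 0 (1 + C + A * C)
  have hev : ∀ᶠ j : ℕ in atTop, (∃ i : ℕ, j ≤ i ∧ i < j + N ∧ η * (ρ⁻¹) ^ i / i ≤ gm f w i) ∧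
      (∀ i : ℕ, j ≤ i → 1 + C + A * C < η * ((Real.exp (-(ε / (2 * w))))⁻¹) ^ i / i) := by
    refine hbig.and ?_
    obtain ⟨J0, hJ0⟩ := eventually_atTop.1 hgrow
    filter_upwards [eventually_ge_atTop J0] with j hj i hi
    have h1 := hJ0 i (hj.trans hi)
    simpa using h1
  have hev' := (tendsto_J (δ := δ) (w := w) hδ hw).eventually hev
  filter_upwards [hev', win_subset hδ hδ1 hδ' hδ'' hw N] with T hT1 hT2
  obtain ⟨⟨j, hj1, hj2, hj3⟩, hj4⟩ := hT1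
  by_contra hcon
  push Not at hcon
  set K : ℝ := Real.exp ((θ - ε) * ((1 + δ') * (j / w))) with hK
  have hK0 : 0 < K := Real.exp_pos _
  have hwin : ∀ t ∈ win δ' w j, 0 < t → f t ≤ K := by
    intro t ht _
    have h1 := hcon t (hT2 j hj1 hj2 ht)
    refine h1.le.trans (Real.exp_le_exp.2 (mul_le_mul_of_nonneg_left ht.2 hθε.le))
  have hub := window_ub hf haw hT j K hwin
  have hqj : q ^ j ≤ 1 := pow_le_one₀ hT.hq0.le hT.hq1.le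
  have hub2 : gm f w j ≤ K * (1 + C + A * C) := by
    have hC := hT.hC
    have hA := hf.hA
    rw [abs_of_pos hK0] at hub
    have h1 : (K + A) * (C * q ^ j) ≤ (K + A) * C := by
      refine mul_le_mul_of_nonneg_left ?_ (by positivity)
      calc C * q ^ j ≤ C * 1 := mul_le_mul_of_nonneg_left hqj hC
        _ = C := mul_one C
    have h2 : 1 ≤ K := by
      rw [hK]
      apply Real.one_le_exp
      positivity
    have h3 : A * C ≤ K * (A * C) := le_mul_of_one_le_left (by positivity) h2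
    nlinarith
  have hKle : K ≤ Real.exp ((j / w) * (θ - 3 * ε / 4)) := by
    rw [hK]
    apply Real.exp_le_exp.2
    have h1 : (θ - ε) * ((1 + δ') * (j / w)) = (j / w) * ((θ - ε) * (1 + δ')) := by ring
    rw [h1]
    exact mul_le_mul_of_nonneg_left hδδ (by positivity)
  have h5 := hj4 j hj1
  have hjpos : (0 : ℝ) < j := by
    rcases Nat.eq_zero_or_pos j with h0 | h0
    · exfalso
      rw [h0] at h5
      have hC := hT.hC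
      have hA := hf.hA
      have : 0 ≤ 1 + C + A * C := by positivity
      simp at h5
      linarith
    · exact_mod_cast h0
  have hpow : ((Real.exp (-(ε / (2 * w))))⁻¹) ^ j = Real.exp ((j / w) * (ε / 2)) := by
    rw [← Real.exp_neg, neg_neg, ← Real.exp_nat_mul]
    congr 1
    field_simp
  rw [hpow] at h5
  have h6 : Real.exp ((j / w) * (θ - 3 * ε / 4)) * Real.exp ((j / w) * (ε / 2)) =
      Real.exp ((j / w) * (θ - ε / 4)) := by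
    rw [← Real.exp_add]
    congr 1
    ring
  have h7 : K * (1 + C + A * C) < η * (ρ⁻¹) ^ j / j := by
    calc K * (1 + C + A * C) < K * (η * Real.exp ((j / w) * (ε / 2)) / j) :=
          mul_lt_mul_of_pos_left h5 hK0
      _ ≤ Real.exp ((j / w) * (θ - 3 * ε / 4)) * (η * Real.exp ((j / w) * (ε / 2)) / j) :=
          mul_le_mul_of_nonneg_right hKle (by positivity)
      _ = η * Real.exp ((j / w) * (θ - ε / 4)) / j := by
          rw [← h6]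
          ring
      _ ≤ η * (ρ⁻¹) ^ j / j := by
          gcongr
          exact hρ j
  linarith

private theorem ab_prel {v : ℝ → ℝ} {G : ℂ → ℂ} {A a η₀ : ℝ} (h : Setup v G A a η₀) {s : ℂ}
    (hs : G s = 0) (hs0 : 0 < s.re) {δ ε : ℝ} (hδ : 0 < δ) (hε : 0 < ε) (W1 : ℝ) :
    ∃ δ₁ ε₁ δ' w q C : ℝ, 0 < δ₁ ∧ δ₁ ≤ 1 ∧ δ₁ ≤ δ ∧ 0 < ε₁ ∧ ε₁ ≤ ε ∧ 0 < s.re - ε₁ ∧ 0 ≤ δ' ∧
      δ' ≤ δ₁ / 8 ∧ (s.re - ε₁) * (1 + δ') ≤ s.re - 3 * ε₁ / 4 ∧ a < w ∧ 0 < w ∧ W1 ≤ w ∧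
      TailBd a δ' w q C ∧ ‖s - w‖ < w ∧
      ∀ ρ : ℝ, 0 < ρ → ρ ≤ ‖s - w‖ / w →
        ∀ j : ℕ, Real.exp ((j / w) * (s.re - ε₁ / 4)) ≤ (ρ⁻¹) ^ j := by
  set θ := s.re with hθ
  set δ₁ := min δ 1 with hδ₁
  set ε₁ := min ε (θ / 2) with hε₁
  have hδ₁0 : 0 < δ₁ := lt_min hδ one_pos
  have hδ₁1 : δ₁ ≤ 1 := min_le_right _ _
  have hε₁0 : 0 < ε₁ := lt_min hε (by positivity)
  have hε₁θ : ε₁ ≤ θ / 2 := min_le_right _ _
  set δ' := min (δ₁ / 8) (ε₁ / (4 * θ)) with hδ'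
  have hδ'0 : 0 < δ' := lt_min (by positivity) (by positivity)
  have hδ'8 : δ' ≤ δ₁ / 8 := min_le_left _ _
  have hδ'1 : δ' < 1 := by linarith
  have hδ'θ : δ' * θ ≤ ε₁ / 4 := by
    have h1 : δ' ≤ ε₁ / (4 * θ) := min_le_right _ _
    calc δ' * θ ≤ ε₁ / (4 * θ) * θ := mul_le_mul_of_nonneg_right h1 hs0.le
      _ = ε₁ / 4 := by field_simp
  obtain ⟨W0, haW0, hW01, hW0⟩ := gamma_tail h.grow.ha hδ'0 hδ'1
  set w := max (max W0 W1) (max (2 * ‖s‖ ^ 2 / ε₁) (‖s‖ ^ 2 / θ + 1)) with hw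
  have hwW0 : W0 ≤ w := (le_max_left _ _).trans (le_max_left _ _)
  have hwW1 : W1 ≤ w := (le_max_right _ _).trans (le_max_left _ _)
  have hw2 : 2 * ‖s‖ ^ 2 / ε₁ ≤ w := (le_max_left _ _).trans (le_max_right _ _)
  have hw3 : ‖s‖ ^ 2 / θ + 1 ≤ w := (le_max_right _ _).trans (le_max_right _ _)
  have hw0 : 0 < w := by linarith
  have haw : a < w := haW0.trans_le hwW0
  obtain ⟨q, C, hqC⟩ := hW0 w hwW0
  have hnorm : ‖s - w‖ ^ 2 = w ^ 2 - 2 * w * θ + ‖s‖ ^ 2 := by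
    rw [← Complex.normSq_eq_norm_sq, ← Complex.normSq_eq_norm_sq, Complex.normSq_apply,
      Complex.normSq_apply]
    simp only [Complex.sub_re, Complex.sub_im, Complex.ofReal_re, Complex.ofReal_im]
    rw [hθ]
    ring
  have hlt : ‖s - w‖ < w := by
    have h1 : ‖s‖ ^ 2 + θ ≤ w * θ := by
      have h2 : (‖s‖ ^ 2 / θ + 1) * θ ≤ w * θ := mul_le_mul_of_nonneg_right hw3 hs0.le
      have h3 : (‖s‖ ^ 2 / θ + 1) * θ = ‖s‖ ^ 2 + θ := by field_simp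
      linarith
    have h4 : ‖s - w‖ ^ 2 < w ^ 2 := by
      rw [hnorm]
      nlinarith [sq_nonneg ‖s‖]
    exact lt_of_pow_lt_pow_left₀ 2 hw0.le h4
  have hne : 0 < ‖s - w‖ := by
    rw [norm_pos_iff, sub_ne_zero]
    intro hsw
    have h1 := h.eq (w : ℂ) (by rw [Complex.ofReal_re]; exact haw)
    rw [← hsw, hs] at h1
    exact Complex.exp_ne_zero _ h1.symm
  refine ⟨δ₁, ε₁, δ', w, q, C, hδ₁0, hδ₁1, min_le_left _ _, hε₁0, min_le_left _ _, by linarith,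
    hδ'0.le, hδ'8, ?_, haw, hw0, hwW1, hqC, hlt, ?_⟩
  · nlinarith
  · intro ρ hρ0 hρ j
    have h1 := dist_bound hw0 hne hlt j
    have h2 : ‖s‖ ^ 2 / (2 * w) ≤ ε₁ / 4 := by
      rw [div_le_iff₀ (by positivity)]
      rw [div_le_iff₀ hε₁0] at hw2
      nlinarith
    calc Real.exp ((j / w) * (θ - ε₁ / 4)) ≤ Real.exp ((j / w) * (θ - ‖s‖ ^ 2 / (2 * w))) := by
          apply Real.exp_le_exp.2
          exact mul_le_mul_of_nonneg_left (by linarith) (by positivity)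
      _ ≤ (w / ‖s - w‖) ^ j := h1
      _ ≤ (ρ⁻¹) ^ j := by
          apply pow_le_pow_left₀ (by positivity)
          rw [← inv_div]
          exact inv_anti₀ hρ0 hρ

theorem abs_big {v : ℝ → ℝ} {G : ℂ → ℂ} {A a η₀ : ℝ} (h : Setup v G A a η₀) {s : ℂ} (hs : G s = 0) (hs0 : 0 < s.re)
    {δ ε : ℝ} (hδ : 0 < δ) (hε : 0 < ε) :
    ∀ᶠ T : ℝ in atTop, ∃ t ∈ Icc T ((1 + δ) * T), Real.exp ((s.re - ε) * t) ≤ v t := by
  obtain ⟨δ₁, ε₁, δ', w, q, C, h1, h2, h3, h4, h5, h6, h7, h8, h9, haw, hw0, _, hqC, hlt, hρj⟩ :=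
    ab_prel h hs hs0 hδ hε 0
  obtain ⟨N, η, ρ, hη, hρ0, _, hρ, hbig⟩ := gm_big h haw hs hlt
  have key := ab_core h.grow haw hw0 hqC h6 h4 h9 hη (hρj ρ hρ0 (hρ s hs hlt)) hbig h1 h2 h7 h8
  filter_upwards [key, eventually_ge_atTop (0 : ℝ)] with T hT hT0
  obtain ⟨t, ht, hv⟩ := hT
  have ht0 : 0 ≤ t := hT0.trans ht.1
  refine ⟨t, ⟨ht.1, ht.2.trans ?_⟩, le_trans ?_ hv⟩
  · exact mul_le_mul_of_nonneg_right (by linarith) hT0
  · exact Real.exp_le_exp.2 (mul_le_mul_of_nonneg_right (by linarith) ht0)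

theorem abs_small {v : ℝ → ℝ} {G : ℂ → ℂ} {A a η₀ : ℝ} (h : Setup v G A a η₀)
    (hH : ∀ β : ℝ, 0 < β → G β = 0 → ∃ s : ℂ, β < s.re ∧ G s = 0) {s : ℂ} (hs : G s = 0) (hs0 : 0 < s.re)
    {δ ε : ℝ} (hδ : 0 < δ) (hε : 0 < ε) :
    ∀ᶠ T : ℝ in atTop, ∃ t ∈ Icc T ((1 + δ) * T), v t ≤ - Real.exp ((s.re - ε) * t) := by
  have hne : ∀ x : ℝ, a < x → G x ≠ 0 := by
    intro x hx h0
    have h1 := h.eq (x : ℂ) (by rw [Complex.ofReal_re]; exact hx)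
    rw [h0] at h1
    exact Complex.exp_ne_zero _ h1.symm
  obtain ⟨W1, hW1⟩ := exists_WH h.hη h.diff hne hH
  obtain ⟨δ₁, ε₁, δ', w, q, C, h1, h2, h3, h4, h5, h6, h7, h8, h9, haw, hw0, hwW1, hqC, hlt, hρj⟩ :=
    ab_prel h hs hs0 hδ hε W1
  obtain ⟨N, η, ρ, hη, hρ0, _, hρ, hbig⟩ := gm_small h haw hs hlt (hW1 w hwW1)
  have hgrow : Grow (fun t => - v t) A a :=
    ⟨h.grow.meas.neg, h.grow.hA, h.grow.ha, fun t ht => by rw [abs_neg]; exact h.grow.bd t ht⟩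
  have hbig' : ∀ᶠ J : ℕ in atTop, ∃ j : ℕ, J ≤ j ∧ j < J + N ∧
      η * (ρ⁻¹) ^ j / j ≤ gm (fun t => - v t) w j := by
    filter_upwards [hbig] with J hJ
    obtain ⟨j, hj1, hj2, hj3⟩ := hJ
    refine ⟨j, hj1, hj2, ?_⟩
    rw [gm_neg]
    linarith
  have key := ab_core hgrow haw hw0 hqC h6 h4 h9 hη (hρj ρ hρ0 (hρ s hs hlt)) hbig' h1 h2 h7 h8
  filter_upwards [key, eventually_ge_atTop (0 : ℝ)] with T hT hT0
  obtain ⟨t, ht, hv⟩ := hT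
  have ht0 : 0 ≤ t := hT0.trans ht.1
  refine ⟨t, ⟨ht.1, ht.2.trans ?_⟩, ?_⟩
  · exact mul_le_mul_of_nonneg_right (by linarith) hT0
  · have h10 : Real.exp ((s.re - ε) * t) ≤ Real.exp ((s.re - ε₁) * t) :=
      Real.exp_le_exp.2 (mul_le_mul_of_nonneg_right (by linarith) ht0)
    linarith

end Pool.Agent.Helper7.GW
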