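import Pool.Agent.Helper7.GW.SSDef

/-!
# GW-18: small jumps, discrete intermediate value theorem

`Fn n = LLs n + SS n - r log log n`. `|Fn (n+1) - Fn n| ≤ [n prime, good] (|ell n| + (1/2) alp_n²) + [n = p², p prime] (1/2) alp_p² +
r (log log (n+1) - log log n)`, everything tends to `0`: `|alp p| ≤ 14/√p` (`alp_bound`, `ap_bound`), for `p ≥ 1024` `N_p/p = 1 - alp + 1/p` is within
`15/√p ≤ 1/2` of `1`, so `|ell p| ≤ 30/√p`; `p = √n` in the second bracket, `log log (n+1) - log log n ≤ 1/(n log n)`.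
(The set of primes in `SS n` is `{p < n, n ≤ p²}`: going from `n` to `n+1` adds `p = n` if `n` is prime and removes `p` with `p² = n`.)
-/

namespace Pool.Agent.Helper7.GW

open MeasureTheory Set Filter Topology Pool.Agent.Helper13.Bsd

theorem ivt_discrete {f : ℕ → ℝ} {a b n1 n2 : ℕ} {y ε : ℝ} (hn1 : a ≤ n1 ∧ n1 ≤ b) (hn2 : a ≤ n2 ∧ n2 ≤ b)
    (h1 : y - ε ≤ f n1) (h2 : f n2 ≤ y + ε) (hstep : ∀ n, a ≤ n → n < b → |f (n + 1) - f n| ≤ ε) :
    ∃ n, a ≤ n ∧ n ≤ b ∧ |f n - y| ≤ ε := by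
  classical
  by_cases c1 : f n1 ≤ y + ε
  · exact ⟨n1, hn1.1, hn1.2, abs_le.mpr ⟨by linarith, by linarith⟩⟩
  by_cases c2 : y - ε ≤ f n2
  · exact ⟨n2, hn2.1, hn2.2, abs_le.mpr ⟨by linarith, by linarith⟩⟩
  push Not at c1 c2
  rcases le_total n1 n2 with h | h
  · -- first index `≥ n1` with `f ≤ y + ε`
    have hex : ∃ k, n1 ≤ k ∧ f k ≤ y + ε := ⟨n2, h, h2⟩
    have hs := Nat.find_spec hex
    set k := Nat.find hex with hk
    have hkn2 : k ≤ n2 := Nat.find_min' hex ⟨h, h2⟩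
    have hk1 : n1 < k := lt_of_le_of_ne hs.1 (fun he => by rw [he] at c1; linarith [hs.2])
    obtain ⟨m, hmk⟩ : ∃ m, k = m + 1 := ⟨k - 1, by omega⟩
    have hm := Nat.find_min hex (m := m) (by omega)
    push Not at hm
    have hm2 := hm (by omega)
    have hst := abs_le.mp (hstep m (by omega) (by omega))
    have hε : 0 ≤ ε := (abs_nonneg _).trans (hstep m (by omega) (by omega))
    rw [hmk] at hs
    exact ⟨m + 1, by omega, by omega, abs_le.mpr ⟨by linarith [hst.1], by linarith [hs.2]⟩⟩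
  · have hex : ∃ k, n2 ≤ k ∧ y - ε ≤ f k := ⟨n1, h, h1⟩
    have hs := Nat.find_spec hex
    set k := Nat.find hex with hk
    have hkn2 : k ≤ n1 := Nat.find_min' hex ⟨h, h1⟩
    have hk1 : n2 < k := lt_of_le_of_ne hs.1 (fun he => by rw [he] at c2; linarith [hs.2])
    obtain ⟨m, hmk⟩ : ∃ m, k = m + 1 := ⟨k - 1, by omega⟩
    have hm := Nat.find_min hex (m := m) (by omega)
    push Not at hm
    have hm2 := hm (by omega)
    have hst := abs_le.mp (hstep m (by omega) (by omega))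
    have hε : 0 ≤ ε := (abs_nonneg _).trans (hstep m (by omega) (by omega))
    rw [hmk] at hs
    exact ⟨m + 1, by omega, by omega, abs_le.mpr ⟨by linarith [hs.2], by linarith [hst.2]⟩⟩

section

variable (W : WeierstrassCurve ℤ) (N : ℕ → ℕ)

/-- the function whose values we follow -/
noncomputable def Fn (r : ℕ) (n : ℕ) : ℝ :=
  LLs N (badW W) n + SS W N n - r * Real.log (Real.log n)

theorem LLs_succ (n : ℕ) : LLs N (badW W) (n + 1) - LLs N (badW W) n
    = if n.Prime ∧ ¬ badW W n then ell N n else 0 := by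
  unfold LLs
  rw [Finset.range_add_one, Finset.filter_insert]
  split_ifs with h
  · rw [Finset.sum_insert (by simp)]
    ring
  · ring

theorem alp_sq_le' (hH : ∀ p : ℕ, p.Prime → |(p : ℝ) + 1 - N p| ≤ 14 * Real.sqrt p) (p : ℕ) (hp : p.Prime) :
    (((p : ℝ) + 1 - N p) / p) ^ 2 ≤ 196 / (p : ℝ) := by
  have hp0 : (0 : ℝ) < p := by exact_mod_cast hp.pos
  have h1 := alp_bound N hH p hp
  rw [alp] at h1
  have h2 : (((p : ℝ) + 1 - N p) / p) ^ 2 = |((p : ℝ) + 1 - N p) / p| ^ 2 := (sq_abs _).symm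
  rw [h2]
  calc |((p : ℝ) + 1 - N p) / p| ^ 2 ≤ (14 * (Real.sqrt p)⁻¹) ^ 2 := by gcongr
    _ = 196 / (p : ℝ) := by
        rw [mul_pow, inv_pow, Real.sq_sqrt hp0.le]
        norm_num
        ring

theorem SS_succ (hH : ∀ p : ℕ, p.Prime → |(p : ℝ) + 1 - N p| ≤ 14 * Real.sqrt p) (n : ℕ) (hn : 1 ≤ n) :
    |SS W N ((n + 1 : ℕ) : ℝ) - SS W N (n : ℝ)| ≤ 98 / n + 98 / Real.sqrt n := by
  classical
  have hn0 : (0 : ℝ) < n := by exact_mod_cast hn
  set al : ℕ → ℝ := fun p => (((p : ℝ) + 1 - N p) / p) ^ 2 with hal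
  have hal0 : ∀ p, 0 ≤ al p := fun p => sq_nonneg _
  have e1 : ∀ m : ℕ, SS W N (m : ℝ) = (1 / 2) * ∑ p ∈ Finset.range m,
      (if p.Prime ∧ ¬ (((p : ℕ) : ℤ) ∣ W.Δ) ∧ m ≤ p ^ 2 then al p else 0) := by
    intro m
    unfold SS
    rw [Nat.ceil_natCast, Finset.sum_filter]
    congr 1
    apply Finset.sum_congr rfl
    intro p _
    have : ((m : ℝ) ≤ (p : ℝ) ^ 2) ↔ m ≤ p ^ 2 := by
      rw [← Nat.cast_pow, Nat.cast_le]
    simp only [this, hal]
  rw [e1, e1, Finset.sum_range_succ]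
  set a1 : ℝ := (if n.Prime ∧ ¬ (((n : ℕ) : ℤ) ∣ W.Δ) ∧ n + 1 ≤ n ^ 2 then al n else 0) with ha1
  have hb1 : 0 ≤ a1 ∧ a1 ≤ 196 / n := by
    rw [ha1]
    split_ifs with h
    · exact ⟨hal0 n, alp_sq_le' N hH n h.1⟩
    · exact ⟨le_rfl, by positivity⟩
  have e2 : ∀ p ∈ Finset.range n, (if p.Prime ∧ ¬ (((p : ℕ) : ℤ) ∣ W.Δ) ∧ n ≤ p ^ 2 then al p else 0)
      = (if p.Prime ∧ ¬ (((p : ℕ) : ℤ) ∣ W.Δ) ∧ n + 1 ≤ p ^ 2 then al p else 0)
        + (if p.Prime ∧ ¬ (((p : ℕ) : ℤ) ∣ W.Δ) ∧ n = p ^ 2 then al p else 0) := by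
    intro p _
    by_cases hp : p.Prime ∧ ¬ (((p : ℕ) : ℤ) ∣ W.Δ)
    · rcases lt_trichotomy n (p ^ 2) with h | h | h
      · have h1 : n ≤ p ^ 2 := h.le
        have h2 : n + 1 ≤ p ^ 2 := h
        have h3 : n ≠ p ^ 2 := h.ne
        simp [hp, h1, h2, h3]
      · have h2 : ¬ (n + 1 ≤ p ^ 2) := by omega
        simp [hp, h.le, h]
      · have h1 : ¬ (n ≤ p ^ 2) := by omega
        have h2 : ¬ (n + 1 ≤ p ^ 2) := by omega
        have h3 : n ≠ p ^ 2 := h.ne'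
        simp [h1, h2, h3]
    · have h1 : ¬ (p.Prime ∧ ¬ (((p : ℕ) : ℤ) ∣ W.Δ) ∧ n ≤ p ^ 2) := fun h => hp ⟨h.1, h.2.1⟩
      have h2 : ¬ (p.Prime ∧ ¬ (((p : ℕ) : ℤ) ∣ W.Δ) ∧ n + 1 ≤ p ^ 2) := fun h => hp ⟨h.1, h.2.1⟩
      have h3 : ¬ (p.Prime ∧ ¬ (((p : ℕ) : ℤ) ∣ W.Δ) ∧ n = p ^ 2) := fun h => hp ⟨h.1, h.2.1⟩
      rw [if_neg h1, if_neg h2, if_neg h3, add_zero]
  rw [Finset.sum_congr rfl e2, Finset.sum_add_distrib]
  set b1 : ℝ := ∑ p ∈ Finset.range n, (if p.Prime ∧ ¬ (((p : ℕ) : ℤ) ∣ W.Δ) ∧ n = p ^ 2 then al p else 0) with hbb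
  have hb2 : 0 ≤ b1 ∧ b1 ≤ 196 / Real.sqrt n := by
    constructor
    · apply Finset.sum_nonneg
      intro p _
      split_ifs
      · exact hal0 p
      · exact le_rfl
    · by_cases hex : ∃ q, q ∈ Finset.range n ∧ q.Prime ∧ n = q ^ 2
      · obtain ⟨q, hq, hqp, hqn⟩ := hex
        have h1 : b1 ≤ al q := by
          rw [hbb, Finset.sum_eq_single q]
          · split_ifs
            · exact le_rfl
            · exact hal0 q
          · intro p _ hpq
            rw [if_neg]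
            rintro ⟨-, -, h⟩
            apply hpq
            have h2 : p ^ 2 = q ^ 2 := by rw [← h, hqn]
            exact Nat.pow_left_injective (n := 2) (by norm_num) h2
          · intro h; exact absurd hq h
        have h3 : Real.sqrt n = q := by
          rw [hqn]; push_cast
          exact Real.sqrt_sq (Nat.cast_nonneg q)
        rw [h3]
        exact h1.trans (alp_sq_le' N hH q hqp)
      · push Not at hex
        have : b1 = 0 := by
          apply Finset.sum_eq_zero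
          intro p hp
          rw [if_neg]
          rintro ⟨h1, -, h⟩
          exact hex p hp h1 h
        rw [this]; positivity
  rw [abs_le]
  have hx : (98 : ℝ) / n = 196 / n / 2 := by ring
  have hy : (98 : ℝ) / Real.sqrt n = 196 / Real.sqrt n / 2 := by ring
  rw [hx, hy]
  constructor <;> nlinarith [hb1.1, hb1.2, hb2.1, hb2.2]

theorem ell_small (hN : ∀ p : ℕ, p.Prime → 1 ≤ N p)
    (hH : ∀ p : ℕ, p.Prime → |(p : ℝ) + 1 - N p| ≤ 14 * Real.sqrt p) (p : ℕ) (hp : p.Prime) (hbig : 1024 ≤ p) :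
    |ell N p| ≤ 30 / Real.sqrt p := by
  obtain ⟨h1, h2, h3⟩ := delta_facts p hp (by omega)
  have h4 := alp_bound N hH p hp
  rw [ell_eq N p hp]
  set δ := (Real.sqrt p)⁻¹ with hδ
  have h5 := abs_le.mp h4
  rw [h3, div_eq_mul_inv, ← hδ]
  have hpos : 1 / 2 ≤ 1 - alp N p + δ ^ 2 := by nlinarith [h5.2]
  rw [abs_le]
  constructor
  · have h6 := Real.one_sub_inv_le_log_of_pos (show 0 < 1 - alp N p + δ ^ 2 by linarith)
    have h7 : -(30 * δ) ≤ 1 - (1 - alp N p + δ ^ 2)⁻¹ := by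
      have h8 : (1 - alp N p + δ ^ 2)⁻¹ ≤ 1 + 30 * δ := by
        rw [inv_le_comm₀ (by linarith) (by positivity)]
        rw [inv_le_iff_one_le_mul₀ (by positivity)]
        nlinarith [h5.2, h5.1, h1, h2, mul_pos h1 h1]
      linarith
    linarith
  · have h6 := Real.log_le_sub_one_of_pos (show 0 < 1 - alp N p + δ ^ 2 by linarith)
    nlinarith [h5.1, h5.2, h1, h2]

theorem step_tendsto (hNdef : ∀ p : ℕ, N p = 1 + ((Finset.range p ×ˢ Finset.range p).filter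
      (fun q : ℕ × ℕ => (p : ℤ) ∣ ((q.2 : ℤ) ^ 2 + W.a₁ * (q.1 : ℤ) * (q.2 : ℤ) + W.a₃ * (q.2 : ℤ)
        - ((q.1 : ℤ) ^ 3 + W.a₂ * (q.1 : ℤ) ^ 2 + W.a₄ * (q.1 : ℤ) + W.a₆)))).card) (r : ℕ) :
    Tendsto (fun n : ℕ => Fn W N r (n + 1) - Fn W N r n) atTop (𝓝 0) := by
  have hN := hN_of W N hNdef
  have hH := ap_bound W N hNdef
  have hsq : Tendsto (fun n : ℕ => Real.sqrt (n : ℝ)) atTop atTop :=
    Real.tendsto_sqrt_atTop.comp tendsto_natCast_atTop_atTop
  have t1 : Tendsto (fun n : ℕ => (30 : ℝ) / Real.sqrt n) atTop (𝓝 0) := hsq.const_div_atTop 30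
  have t2 : Tendsto (fun n : ℕ => (98 : ℝ) / n) atTop (𝓝 0) := tendsto_natCast_atTop_atTop.const_div_atTop 98
  have t3 : Tendsto (fun n : ℕ => (98 : ℝ) / Real.sqrt n) atTop (𝓝 0) := hsq.const_div_atTop 98
  have t4 : Tendsto (fun n : ℕ => (r : ℝ) / n) atTop (𝓝 0) := tendsto_natCast_atTop_atTop.const_div_atTop _
  have t5 := ((t1.add t2).add t3).add t4
  simp only [add_zero] at t5
  apply squeeze_zero_norm' _ t5
  filter_upwards [eventually_ge_atTop 1024] with n hn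
  have hn0 : (0 : ℝ) < n := by exact_mod_cast (by omega : 0 < n)
  have hnr : (1024 : ℝ) ≤ n := by exact_mod_cast hn
  rw [Real.norm_eq_abs]
  have e : Fn W N r (n + 1) - Fn W N r n = (LLs N (badW W) (n + 1) - LLs N (badW W) n)
      + (SS W N ((n + 1 : ℕ) : ℝ) - SS W N (n : ℝ))
      - r * (Real.log (Real.log ((n + 1 : ℕ) : ℝ)) - Real.log (Real.log n)) := by
    unfold Fn; ring
  rw [e]
  have b1 : |LLs N (badW W) (n + 1) - LLs N (badW W) n| ≤ 30 / Real.sqrt n := by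
    rw [LLs_succ]
    split_ifs with h
    · exact ell_small N hN hH n h.1 hn
    · rw [abs_zero]; positivity
  have b2 := SS_succ W N hH n (by omega)
  have hlog : 1 ≤ Real.log n := by
    rw [Real.le_log_iff_exp_le hn0]
    have := Real.exp_one_lt_d9
    linarith
  have b3 : |Real.log (Real.log ((n + 1 : ℕ) : ℝ)) - Real.log (Real.log n)| ≤ 1 / n := by
    have h1 : Real.log n ≤ Real.log ((n + 1 : ℕ) : ℝ) := by
      apply Real.log_le_log hn0
      push_cast; linarith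
    have h2 : Real.log ((n + 1 : ℕ) : ℝ) - Real.log n ≤ 1 / n := by
      have h3 := Real.log_le_sub_one_of_pos (show 0 < ((n + 1 : ℕ) : ℝ) / n by positivity)
      rw [Real.log_div (by positivity) hn0.ne'] at h3
      push_cast at h3 ⊢
      have h4 : ((n : ℝ) + 1) / n - 1 = 1 / n := by field_simp; ring
      linarith
    have h5 : 0 ≤ Real.log (Real.log ((n + 1 : ℕ) : ℝ)) - Real.log (Real.log n) := by
      have := Real.log_le_log (by linarith) h1
      linarith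
    rw [abs_of_nonneg h5]
    have h6 := Real.log_le_sub_one_of_pos (show 0 < Real.log ((n + 1 : ℕ) : ℝ) / Real.log n from
      div_pos (by linarith) (by linarith))
    rw [Real.log_div (by linarith) (by linarith)] at h6
    have h7 : Real.log ((n + 1 : ℕ) : ℝ) / Real.log n - 1 = (Real.log ((n + 1 : ℕ) : ℝ) - Real.log n) / Real.log n := by
      field_simp
    rw [h7] at h6
    have h8 : (Real.log ((n + 1 : ℕ) : ℝ) - Real.log n) / Real.log n ≤ Real.log ((n + 1 : ℕ) : ℝ) - Real.log n :=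
      div_le_self (by linarith) hlog
    linarith
  have b4 : |(r : ℝ) * (Real.log (Real.log ((n + 1 : ℕ) : ℝ)) - Real.log (Real.log n))| ≤ r / n := by
    rw [abs_mul, Nat.abs_cast]
    calc (r : ℝ) * |Real.log (Real.log ((n + 1 : ℕ) : ℝ)) - Real.log (Real.log n)| ≤ r * (1 / n) := by gcongr
      _ = r / n := by ring
  calc _ ≤ |LLs N (badW W) (n + 1) - LLs N (badW W) n| + |SS W N ((n + 1 : ℕ) : ℝ) - SS W N (n : ℝ)|
        + |(r : ℝ) * (Real.log (Real.log ((n + 1 : ℕ) : ℝ)) - Real.log (Real.log n))| := by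
        refine (abs_sub _ _).trans ?_
        gcongr
        exact abs_add_le _ _
    _ ≤ 30 / Real.sqrt n + 98 / n + 98 / Real.sqrt n + r / n := by linarith

theorem SS_ceil (x : ℝ) : SS W N x = SS W N (⌈x⌉₊ : ℕ) := by
  unfold SS
  rw [Nat.ceil_natCast]
  congr 1
  apply Finset.sum_congr _ (fun _ _ => rfl)
  apply Finset.filter_congr
  intro p _
  have h : x ≤ (p : ℝ) ^ 2 ↔ ((⌈x⌉₊ : ℕ) : ℝ) ≤ (p : ℝ) ^ 2 := by
    rw [← Nat.cast_pow, ← Nat.ceil_le, Nat.cast_le]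
  rw [h]

end

end Pool.Agent.Helper7.GW
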