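import Pool.Agent.Helper7.GW.AbsLU
import Pool.Agent.Helper7.GW.AbsBig
import Pool.Agent.Helper7.GW.Step

/-!
# The windows theorem for the original Birch and Swinnerton-Dyer product
-/

namespace Pool.Agent.Helper7.GW

open MeasureTheory Set Filter Topology Pool.Agent.Helper13.Bsd

section

variable (W : WeierstrassCurve ℤ) (N : ℕ → ℕ)

/-- the constant `2 e^{rγ} r! / |F^{(r)}(1)|` -/
noncomputable def CC (F : ℂ → ℂ) : ℝ :=
  2 * Real.exp ((analyticOrderNatAt F 1 : ℝ) * Real.eulerMascheroniConstant) * (analyticOrderNatAt F 1).factorial /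
    ‖iteratedDeriv (analyticOrderNatAt F 1) F 1‖

theorem rpow_one_add {X : ℝ} (hX : 0 < X) (δ : ℝ) : X ^ (1 + δ) = Real.exp ((1 + δ) * Real.log X) := by
  rw [Real.rpow_def_of_pos hX]; congr 1; ring

/-- transfer from `T = log X` to `X`. -/
theorem transfer {δ : ℝ} {Q : ℝ → Prop} (h : ∀ᶠ T : ℝ in atTop, ∃ t ∈ Icc T ((1 + δ) * T), Q (Real.exp t)) :
    ∀ᶠ X : ℝ in atTop, ∃ x, X ≤ x ∧ x ≤ X ^ (1 + δ) ∧ Q x := by
  filter_upwards [Real.tendsto_log_atTop.eventually h, eventually_gt_atTop 0] with X hX hX0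
  obtain ⟨t, ht, hQ⟩ := hX
  refine ⟨Real.exp t, ?_, ?_, hQ⟩
  · calc X = Real.exp (Real.log X) := (Real.exp_log hX0).symm
      _ ≤ Real.exp t := Real.exp_le_exp.mpr ht.1
  · rw [rpow_one_add hX0]
    exact Real.exp_le_exp.mpr ht.2

variable (hNdef : ∀ p : ℕ, N p = 1 + ((Finset.range p ×ˢ Finset.range p).filter
      (fun q : ℕ × ℕ => (p : ℤ) ∣ ((q.2 : ℤ) ^ 2 + W.a₁ * (q.1 : ℤ) * (q.2 : ℤ) + W.a₃ * (q.2 : ℤ)
        - ((q.1 : ℤ) ^ 3 + W.a₂ * (q.1 : ℤ) ^ 2 + W.a₄ * (q.1 : ℤ) + W.a₆)))).card)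

/-- The data produced by `bsd_frame`, for fixed `F`. -/
structure FrameData (F : ℂ → ℂ) (e : ℝ → ℝ) (G : ℂ → ℂ) (A η C0 E0 : ℝ) : Prop where
  setup : Setup (fun t => LL N (badW W) t - e t) G A (1 / 2) η
  bd : ∀ t, 0 < t → |e t| ≤ C0
  zeros : ∀ s : ℂ, 0 < s.re → (G s = 0 ↔ F (1 + s) = 0)
  dpos : 0 < ‖iteratedDeriv (analyticOrderNatAt F 1) F 1‖
  lim : Tendsto (fun y : ℝ => ‖G (y : ℂ)‖ / y ^ (analyticOrderNatAt F 1)) (𝓝[>] 0)
        (𝓝 (‖iteratedDeriv (analyticOrderNatAt F 1) F 1‖ / (analyticOrderNatAt F 1).factorial * Real.exp E0))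
  elim : Tendsto (fun t => e t + SS W N (Real.exp t)) atTop (𝓝 (Real.log 2 + E0))

variable {W N} {F : ℂ → ℂ} {e : ℝ → ℝ} {G : ℂ → ℂ} {A η C0 E0 : ℝ}

theorem FrameData.gpos (h : FrameData W N F e G A η C0 E0) :
    0 < ‖iteratedDeriv (analyticOrderNatAt F 1) F 1‖ / (analyticOrderNatAt F 1).factorial * Real.exp E0 := by
  have := h.dpos
  positivity

theorem FrameData.CC_pos (h : FrameData W N F e G A η C0 E0) : 0 < CC F := by
  have := h.dpos
  unfold CC
  positivity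

theorem FrameData.log_CC (h : FrameData W N F e G A η C0 E0) :
    Real.log (CC F) = ((analyticOrderNatAt F 1 : ℝ) * Real.eulerMascheroniConstant
      - Real.log (‖iteratedDeriv (analyticOrderNatAt F 1) F 1‖ / (analyticOrderNatAt F 1).factorial * Real.exp E0))
      + (Real.log 2 + E0) := by
  have h1 := h.dpos
  have h2 : (0 : ℝ) < (analyticOrderNatAt F 1).factorial := by positivity
  unfold CC
  rw [Real.log_div (by positivity) h1.ne', Real.log_mul (by positivity) h2.ne', Real.log_mul (by norm_num)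
    (Real.exp_pos _).ne', Real.log_exp, Real.log_mul (by positivity) (Real.exp_pos _).ne', Real.log_exp,
    Real.log_div h1.ne' h2.ne']
  ring

/-- lower windows, additive form -/
theorem FrameData.lower (h : FrameData W N F e G A η C0 E0) {δ ε : ℝ} (hδ : 0 < δ) (hε : 0 < ε) :
    ∀ᶠ T : ℝ in atTop, ∃ t ∈ Icc T ((1 + δ) * T),
      (analyticOrderNatAt F 1) * Real.log t + Real.log (CC F) - ε ≤ LL N (badW W) t + SS W N (Real.exp t) := by
  have h1 := abs_lower h.setup h.gpos h.lim hδ (half_pos hε)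
  have h2 := (Metric.tendsto_nhds.mp h.elim) (ε / 2) (half_pos hε)
  obtain ⟨T0, hT0⟩ := eventually_atTop.mp h2
  filter_upwards [h1, eventually_ge_atTop T0] with T hT hT1
  obtain ⟨t, ht, h3⟩ := hT
  refine ⟨t, ht, ?_⟩
  have h4 := hT0 t (hT1.trans ht.1)
  rw [Real.dist_eq] at h4
  have h5 := (abs_lt.mp h4).1
  rw [h.log_CC]
  linarith

/-- upper windows, additive form -/
theorem FrameData.upper (h : FrameData W N F e G A η C0 E0)
    (hH : ∀ β : ℝ, 0 < β → G β = 0 → ∃ s : ℂ, β < s.re ∧ G s = 0) {δ ε : ℝ} (hδ : 0 < δ) (hε : 0 < ε) :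
    ∀ᶠ T : ℝ in atTop, ∃ t ∈ Icc T ((1 + δ) * T),
      LL N (badW W) t + SS W N (Real.exp t) ≤ (analyticOrderNatAt F 1) * Real.log t + Real.log (CC F) + ε := by
  have h1 := abs_upper h.setup hH h.gpos h.lim hδ (half_pos hε)
  have h2 := (Metric.tendsto_nhds.mp h.elim) (ε / 2) (half_pos hε)
  obtain ⟨T0, hT0⟩ := eventually_atTop.mp h2
  filter_upwards [h1, eventually_ge_atTop T0] with T hT hT1
  obtain ⟨t, ht, h3⟩ := hT
  refine ⟨t, ht, ?_⟩
  have h4 := hT0 t (hT1.trans ht.1)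
  rw [Real.dist_eq] at h4
  have h5 := (abs_lt.mp h4).2
  rw [h.log_CC]
  linarith

include hNdef in
/-- Part 1: lower bound in every window. -/
theorem FrameData.part1 (h : FrameData W N F e G A η C0 E0) {δ ε : ℝ} (hδ : 0 < δ) (hε : 0 < ε) :
    ∀ᶠ X : ℝ in atTop, ∃ x, X ≤ x ∧ x ≤ X ^ (1 + δ) ∧
      (CC F - ε) * Real.log x ^ (analyticOrderNatAt F 1) ≤ PE W N x * Real.exp (SS W N x) := by
  have hC := h.CC_pos
  set ε1 := ε / CC F with hε1
  have hε1' : 0 < ε1 := by positivity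
  apply transfer (Q := fun x => (CC F - ε) * Real.log x ^ (analyticOrderNatAt F 1) ≤ PE W N x * Real.exp (SS W N x))
  filter_upwards [h.lower hδ hε1', eventually_ge_atTop 1] with T hT hT1
  obtain ⟨t, ht, h1⟩ := hT
  refine ⟨t, ht, ?_⟩
  have ht0 : 0 < t := lt_of_lt_of_le one_pos (hT1.trans ht.1)
  rw [Real.log_exp, PE_exp W N hNdef, ← Real.exp_add]
  have h2 : CC F * Real.exp (-ε1) * t ^ (analyticOrderNatAt F 1)
      = Real.exp ((analyticOrderNatAt F 1) * Real.log t + Real.log (CC F) - ε1) := by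
    rw [sub_eq_add_neg, Real.exp_add, Real.exp_add, Real.exp_log hC, ← Real.log_pow, Real.exp_log (by positivity)]
    ring
  have h3 : CC F - ε ≤ CC F * Real.exp (-ε1) := by
    have h4 := Real.add_one_le_exp (-ε1)
    have h5 : CC F * ε1 = ε := by rw [hε1]; field_simp
    nlinarith
  calc (CC F - ε) * t ^ (analyticOrderNatAt F 1) ≤ CC F * Real.exp (-ε1) * t ^ (analyticOrderNatAt F 1) := by
        gcongr
    _ ≤ _ := by
        rw [h2]
        exact Real.exp_le_exp.mpr h1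

/-- elementary: absorb a constant. -/
theorem absorb {θ ε C : ℝ} (hε : 0 < ε) (hθ : ε ≤ θ) :
    ∀ᶠ t : ℝ in atTop, Real.exp ((θ - ε) * t) + C ≤ Real.exp ((θ - ε / 2) * t) := by
  have h1 : Tendsto (fun t : ℝ => Real.exp ((ε / 2) * t)) atTop atTop :=
    Real.tendsto_exp_atTop.comp (tendsto_id.const_mul_atTop (half_pos hε))
  filter_upwards [h1.eventually (eventually_ge_atTop (1 + |C|)), eventually_ge_atTop 0] with t ht ht0
  have h2 : Real.exp ((θ - ε / 2) * t) = Real.exp ((θ - ε) * t) * Real.exp ((ε / 2) * t) := by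
    rw [← Real.exp_add]; congr 1; ring
  have h3 : 1 ≤ Real.exp ((θ - ε) * t) := Real.one_le_exp (mul_nonneg (by linarith) ht0)
  rw [h2]
  have h4 := le_abs_self C
  have h5 := abs_nonneg C
  nlinarith

include hNdef in
/-- Part 2: zeros to the right make `P` large in every window. -/
theorem FrameData.part2 (h : FrameData W N F e G A η C0 E0) {ρ : ℂ} (hρ : F ρ = 0) (hρ1 : 1 < ρ.re) {δ ε : ℝ}
    (hδ : 0 < δ) (hε : 0 < ε) :
    ∀ᶠ X : ℝ in atTop, ∃ x, X ≤ x ∧ x ≤ X ^ (1 + δ) ∧ Real.exp (x ^ (ρ.re - 1 - ε)) ≤ PE W N x := by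
  set ε' := min ε (ρ.re - 1) with hε'
  have hε'0 : 0 < ε' := lt_min hε (by linarith)
  have hs : G (ρ - 1) = 0 := by
    rw [h.zeros (ρ - 1) (by simp; linarith)]
    rw [show (1 : ℂ) + (ρ - 1) = ρ by ring]; exact hρ
  have hsre : (ρ - 1).re = ρ.re - 1 := by simp
  have h1 := abs_big h.setup hs (by rw [hsre]; linarith) hδ (half_pos hε'0)
  rw [hsre] at h1
  apply transfer (Q := fun x => Real.exp (x ^ (ρ.re - 1 - ε)) ≤ PE W N x)
  obtain ⟨T0, hT0⟩ := eventually_atTop.mp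
    (absorb (θ := ρ.re - 1) (C := C0) hε'0 (min_le_right _ _))
  filter_upwards [h1, eventually_ge_atTop T0, eventually_ge_atTop 1] with T hT hT1 hT2
  obtain ⟨t, ht, h2⟩ := hT
  refine ⟨t, ht, ?_⟩
  have ht0 : 0 < t := lt_of_lt_of_le one_pos (hT2.trans ht.1)
  have h3 := hT0 t (hT1.trans ht.1)
  have h4 := (abs_le.mp (h.bd t ht0)).1
  rw [PE_exp W N hNdef, Real.exp_le_exp, ← Real.exp_mul]
  have h5 : Real.exp (t * (ρ.re - 1 - ε)) ≤ Real.exp ((ρ.re - 1 - ε') * t) := by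
    rw [Real.exp_le_exp]
    have : ε' ≤ ε := min_le_left _ _
    nlinarith
  linarith

include hNdef in
/-- Part 3: zeros to the right make `P` small in every window, unless the rightmost zeros are real. -/
theorem FrameData.part3 (h : FrameData W N F e G A η C0 E0)
    (hH : ∀ β : ℝ, 0 < β → G β = 0 → ∃ s : ℂ, β < s.re ∧ G s = 0) {ρ : ℂ} (hρ : F ρ = 0) (hρ1 : 1 < ρ.re) {δ ε : ℝ}
    (hδ : 0 < δ) (hε : 0 < ε) :
    ∀ᶠ X : ℝ in atTop, ∃ x, X ≤ x ∧ x ≤ X ^ (1 + δ) ∧ PE W N x ≤ Real.exp (-x ^ (ρ.re - 1 - ε)) := by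
  set ε' := min ε (ρ.re - 1) with hε'
  have hε'0 : 0 < ε' := lt_min hε (by linarith)
  have hs : G (ρ - 1) = 0 := by
    rw [h.zeros (ρ - 1) (by simp; linarith)]
    rw [show (1 : ℂ) + (ρ - 1) = ρ by ring]; exact hρ
  have hsre : (ρ - 1).re = ρ.re - 1 := by simp
  have h1 := abs_small h.setup hH hs (by rw [hsre]; linarith) hδ (half_pos hε'0)
  rw [hsre] at h1
  apply transfer (Q := fun x => PE W N x ≤ Real.exp (-x ^ (ρ.re - 1 - ε)))
  obtain ⟨T0, hT0⟩ := eventually_atTop.mp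
    (absorb (θ := ρ.re - 1) (C := C0) hε'0 (min_le_right _ _))
  filter_upwards [h1, eventually_ge_atTop T0, eventually_ge_atTop 1] with T hT hT1 hT2
  obtain ⟨t, ht, h2⟩ := hT
  refine ⟨t, ht, ?_⟩
  have ht0 : 0 < t := lt_of_lt_of_le one_pos (hT2.trans ht.1)
  have h3 := hT0 t (hT1.trans ht.1)
  have h4 := (abs_le.mp (h.bd t ht0)).2
  rw [PE_exp W N hNdef, Real.exp_le_exp, ← Real.exp_mul]
  have h5 : Real.exp (t * (ρ.re - 1 - ε)) ≤ Real.exp ((ρ.re - 1 - ε') * t) := by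
    rw [Real.exp_le_exp]
    have : ε' ≤ ε := min_le_left _ _
    nlinarith
  linarith

theorem LL_eq_nat (t : ℝ) : LL N (badW W) t = LLs N (badW W) ⌈Real.exp t⌉₊ := rfl

/-- `log ⌈e^t⌉` is close to `t`. -/
theorem log_ceil_bounds {t : ℝ} (ht : 0 < t) : t ≤ Real.log ⌈Real.exp t⌉₊ ∧ Real.log ⌈Real.exp t⌉₊ ≤ t + 1 := by
  have h0 := Real.exp_pos t
  have h1 : Real.exp t ≤ ⌈Real.exp t⌉₊ := Nat.le_ceil _
  have h2 : (⌈Real.exp t⌉₊ : ℝ) < Real.exp t + 1 := Nat.ceil_lt_add_one h0.le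
  constructor
  · rw [Real.le_log_iff_exp_le (h0.trans_le h1)]; exact h1
  · have h3 : (⌈Real.exp t⌉₊ : ℝ) ≤ Real.exp (t + 1) := by
      have h4 : Real.exp t + 1 ≤ Real.exp (t + 1) := by
        rw [Real.exp_add]
        have h5 : 1 ≤ Real.exp t := Real.one_le_exp ht.le
        have h6 := Real.add_one_le_exp (1 : ℝ)
        nlinarith
      linarith
    calc Real.log ⌈Real.exp t⌉₊ ≤ Real.log (Real.exp (t + 1)) :=
          Real.log_le_log (h0.trans_le h1) h3
      _ = t + 1 := Real.log_exp _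

include hNdef in
/-- Part 4: the asymptotic with the right constant recurs in every window. -/
theorem FrameData.part4 (h : FrameData W N F e G A η C0 E0)
    (hH : ∀ β : ℝ, 0 < β → G β = 0 → ∃ s : ℂ, β < s.re ∧ G s = 0) {δ ε : ℝ}
    (hδ : 0 < δ) (hε : 0 < ε) :
    ∀ᶠ X : ℝ in atTop, ∃ x, X ≤ x ∧ x ≤ X ^ (1 + δ) ∧
      |PE W N x * Real.exp (SS W N x) / Real.log x ^ (analyticOrderNatAt F 1) - CC F| ≤ ε := by
  have hC := h.CC_pos
  set r := analyticOrderNatAt F 1 with hr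
  -- choose the additive precision
  obtain ⟨ε1, hε1, hexp⟩ : ∃ ε1 : ℝ, 0 < ε1 ∧ ∀ y : ℝ, |y| ≤ ε1 → |CC F * Real.exp y - CC F| ≤ ε := by
    have hcont : Tendsto (fun y : ℝ => CC F * Real.exp y - CC F) (𝓝 0) (𝓝 0) := by
      have : ContinuousAt (fun y : ℝ => CC F * Real.exp y - CC F) 0 := by fun_prop
      have h2 := this.tendsto
      simpa using h2
    obtain ⟨d, hd, hd2⟩ := Metric.tendsto_nhds_nhds.mp hcont ε hε
    refine ⟨d / 2, by positivity, fun y hy => ?_⟩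
    have h3 := hd2 (x := y) (by rw [Real.dist_eq, sub_zero]; linarith)
    rw [Real.dist_eq, sub_zero] at h3
    exact h3.le
  have hδ2 : 0 < δ / 2 := half_pos hδ
  have hε2 : 0 < ε1 / 2 := half_pos hε1
  have hlow := h.lower hδ2 hε2
  have hup := h.upper hH hδ2 hε2
  have hst := (Metric.tendsto_nhds.mp (step_tendsto W N hNdef r)) ε1 hε1
  obtain ⟨n0, hn0⟩ := eventually_atTop.mp hst
  have hfin : ∀ᶠ T : ℝ in atTop, ∃ n : ℕ, Real.exp T ≤ n ∧ (n : ℝ) ≤ Real.exp ((1 + δ) * T) ∧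
      |Fn W N r n - Real.log (CC F)| ≤ ε1 := by
    filter_upwards [hlow, hup, eventually_ge_atTop (1 : ℝ), eventually_ge_atTop (2 / δ),
      eventually_ge_atTop (2 * r / ε1), Real.tendsto_exp_atTop.eventually (eventually_ge_atTop (n0 : ℝ))] with
      T hT1 hT2 hT3 hT4 hT5 hT6
    obtain ⟨t1, ht1, h1⟩ := hT1
    obtain ⟨t2, ht2, h2⟩ := hT2
    have ht10 : 0 < t1 := lt_of_lt_of_le one_pos (hT3.trans ht1.1)
    have ht20 : 0 < t2 := lt_of_lt_of_le one_pos (hT3.trans ht2.1)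
    set n1 := ⌈Real.exp t1⌉₊ with hn1
    set n2 := ⌈Real.exp t2⌉₊ with hn2
    obtain ⟨la1, lb1⟩ := log_ceil_bounds ht10
    obtain ⟨la2, lb2⟩ := log_ceil_bounds ht20
    rw [← hn1] at la1 lb1
    rw [← hn2] at la2 lb2
    rw [LL_eq_nat, SS_ceil, ← hn1] at h1
    rw [LL_eq_nat, SS_ceil, ← hn2] at h2
    -- lower value
    have hr0 : (0 : ℝ) ≤ r := Nat.cast_nonneg r
    have hF1 : Real.log (CC F) - ε1 ≤ Fn W N r n1 := by
      have hl : Real.log (Real.log n1) ≤ Real.log t1 + 1 / t1 := by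
        have h3 := Real.log_le_sub_one_of_pos (show 0 < Real.log n1 / t1 from div_pos (by linarith) ht10)
        rw [Real.log_div (by linarith) ht10.ne'] at h3
        have h4 : Real.log n1 / t1 - 1 ≤ 1 / t1 := by
          rw [div_sub_one ht10.ne']
          gcongr
          linarith
        linarith
      have h5 : (r : ℝ) * (1 / t1) ≤ ε1 / 2 := by
        have h6 : 2 * r / ε1 ≤ t1 := hT5.trans ht1.1
        rw [div_le_iff₀ hε1] at h6
        rw [mul_one_div, div_le_iff₀ ht10]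
        linarith
      have h7 : (r : ℝ) * Real.log (Real.log n1) ≤ r * Real.log t1 + r * (1 / t1) := by
        rw [← mul_add]; gcongr
      unfold Fn
      linarith
    have hF2 : Fn W N r n2 ≤ Real.log (CC F) + ε1 := by
      have hl : Real.log t2 ≤ Real.log (Real.log n2) := Real.log_le_log ht20 la2
      have h7 : (r : ℝ) * Real.log t2 ≤ r * Real.log (Real.log n2) := by gcongr
      unfold Fn
      linarith
    -- range
    have hA : ∀ t : ℝ, t ∈ Icc T ((1 + δ / 2) * T) → ⌈Real.exp T⌉₊ ≤ ⌈Real.exp t⌉₊ ∧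
        ⌈Real.exp t⌉₊ ≤ ⌊Real.exp ((1 + δ) * T)⌋₊ := by
      intro t ht
      constructor
      · exact Nat.ceil_mono (Real.exp_le_exp.mpr ht.1)
      · apply Nat.le_floor
        have ht0 : 0 < t := lt_of_lt_of_le one_pos (hT3.trans ht.1)
        obtain ⟨-, lb⟩ := log_ceil_bounds ht0
        have hpos : (0 : ℝ) < ⌈Real.exp t⌉₊ := lt_of_lt_of_le (Real.exp_pos t) (Nat.le_ceil _)
        rw [← Real.log_le_iff_le_exp hpos]
        have h8 : 1 ≤ δ / 2 * T := by
          rw [div_le_iff₀ hδ] at hT4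
          linarith
        have h9 := ht.2
        linarith
    obtain ⟨n, hna, hnb, hnc⟩ := ivt_discrete (f := Fn W N r) (a := ⌈Real.exp T⌉₊) (b := ⌊Real.exp ((1 + δ) * T)⌋₊)
      (n1 := n1) (n2 := n2) (y := Real.log (CC F)) (ε := ε1) (hA t1 ht1) (hA t2 ht2) hF1 hF2 (by
        intro n hn _
        have h8 : n0 ≤ n := by
          have h9 : (n0 : ℝ) ≤ n := hT6.trans ((Nat.le_ceil _).trans (by exact_mod_cast hn))
          exact_mod_cast h9
        have h9 := hn0 n h8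
        rw [Real.dist_eq, sub_zero] at h9
        exact h9.le)
    refine ⟨n, ?_, ?_, hnc⟩
    · exact (Nat.le_ceil _).trans (by exact_mod_cast hna)
    · calc (n : ℝ) ≤ ⌊Real.exp ((1 + δ) * T)⌋₊ := by exact_mod_cast hnb
        _ ≤ _ := Nat.floor_le (Real.exp_pos _).le
  filter_upwards [Real.tendsto_log_atTop.eventually hfin, eventually_gt_atTop (Real.exp 1)] with X hX hX0
  have hXpos : 0 < X := (Real.exp_pos 1).trans hX0
  obtain ⟨n, ha, hb, hc⟩ := hX
  rw [Real.exp_log hXpos] at ha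
  refine ⟨n, ha, by rw [rpow_one_add hXpos]; exact hb, ?_⟩
  have hnpos : (0 : ℝ) < n := hXpos.trans_le ha
  have hlogn : 0 < Real.log n := by
    apply Real.log_pos
    have : (1 : ℝ) < Real.exp 1 := by
      have := Real.add_one_lt_exp (x := (1 : ℝ)) (by norm_num)
      linarith
    linarith
  have key : PE W N n * Real.exp (SS W N n) / Real.log n ^ r = CC F * Real.exp (Fn W N r n - Real.log (CC F)) := by
    rw [PE_eq W N hNdef n hnpos, LL_eq_nat, Real.exp_log hnpos, Nat.ceil_natCast, ← Real.exp_add, Fn]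
    rw [show LLs N (badW W) n + SS W N n - r * Real.log (Real.log n) - Real.log (CC F)
      = (LLs N (badW W) n + SS W N n) - (r * Real.log (Real.log n) + Real.log (CC F)) by ring, Real.exp_sub,
      Real.exp_add (r * Real.log (Real.log n)), Real.exp_log hC, ← Real.log_pow, Real.exp_log (by positivity)]
    field_simp
  rw [key]
  exact hexp _ hc

end

end Pool.Agent.Helper7.GW
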