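import Pool.Agent.Helper7.GW.AbsA
import Pool.Agent.Helper7.GW.WFinal

/-!
# Zero-free disks and Gamma means of `log P_E`
-/

namespace Pool.Agent.Helper7.GW

open MeasureTheory Set Filter Topology Pool.Agent.Helper13.Bsd

section

variable {W : WeierstrassCurve ℤ} {N : ℕ → ℕ} {F : ℂ → ℂ} {e : ℝ → ℝ} {G : ℂ → ℂ} {A η C0 E0 : ℝ}

theorem FrameData.gm_LL (h : FrameData W N F e G A η C0 E0) (he : Measurable e) {w : ℝ} (hw : 1 / 2 < w) (j : ℕ) :
    |gm (LL N (badW W)) w j - gm (fun t => LL N (badW W) t - e t) w j| ≤ C0 := by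
  have hC0 : 0 ≤ C0 := (abs_nonneg _).trans (h.bd 1 one_pos)
  have hge : Grow e C0 0 := ⟨he, hC0, le_rfl, fun t ht => by simpa using h.bd t ht⟩
  have h1 := gm_add (h.setup.grow) hge (by linarith : (1 : ℝ) / 2 < w) (by linarith : (0 : ℝ) < w) j
  have h2 : (fun t => (LL N (badW W) t - e t) + e t) = LL N (badW W) := by funext t; ring
  rw [h2] at h1
  rw [h1]
  have h3 := gm_of_bounded he h.bd (by linarith : (0 : ℝ) < w) j
  have h4 : gm (fun t => LL N (badW W) t - e t) w j + gm e w j - gm (fun t => LL N (badW W) t - e t) w j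
      = gm e w j := by ring
  rw [h4]
  exact h3

theorem FrameData.disk (h : FrameData W N F e G A η C0 E0) {w : ℝ} (hw : 1 / 2 < w) :
    (∀ s : ℂ, ‖s - w‖ < w → G s ≠ 0) ↔ (∀ ρ : ℂ, ‖ρ - (1 + w)‖ < w → F ρ ≠ 0) := by
  have key : ∀ s : ℂ, ‖s - w‖ < w → (G s = 0 ↔ F (1 + s) = 0) := by
    intro s hs
    apply h.zeros
    have h1 := Complex.abs_re_le_norm (s - w)
    have h2 : (s - w).re = s.re - w := by simp
    rw [h2] at h1
    have h3 := (abs_lt.mp (h1.trans_lt hs)).1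
    linarith
  constructor
  · intro h1 ρ hρ h0
    have h2 : ‖(ρ - 1) - w‖ < w := by rwa [show (ρ - 1) - (w : ℂ) = ρ - (1 + w) by ring]
    apply h1 (ρ - 1) h2
    rw [key _ h2, show (1 : ℂ) + (ρ - 1) = ρ by ring]
    exact h0
  · intro h1 s hs h0
    apply h1 (1 + s)
    · rwa [show (1 + s) - (1 + (w : ℂ)) = s - w by ring]
    · exact (key s hs).mp h0

/-- zero-free disk implies bounded -/
theorem FrameData.crit1 (h : FrameData W N F e G A η C0 E0) (he : Measurable e) {w : ℝ} (hw : 1 / 2 < w)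
    (hz : ∀ ρ : ℂ, ‖ρ - (1 + w)‖ < w → F ρ ≠ 0) :
    ∃ K : ℝ, ∀ j : ℕ, 1 ≤ j → |gm (LL N (badW W)) w j - (analyticOrderNatAt F 1) * Real.log j| ≤ K := by
  obtain ⟨K, hK⟩ := (abs_criterion h.setup (by linarith : (1 : ℝ) / 2 < w) h.gpos h.lim).1 ((h.disk hw).mpr hz)
  refine ⟨K + C0, fun j hj => ?_⟩
  have h1 := hK j hj
  have h2 := h.gm_LL he hw j
  have h3 := abs_add_le (gm (LL N (badW W)) w j - gm (fun t => LL N (badW W) t - e t) w j)
    (gm (fun t => LL N (badW W) t - e t) w j - (analyticOrderNatAt F 1) * Real.log j)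
  rw [show gm (LL N (badW W)) w j - gm (fun t => LL N (badW W) t - e t) w j
    + (gm (fun t => LL N (badW W) t - e t) w j - (analyticOrderNatAt F 1) * Real.log j)
    = gm (LL N (badW W)) w j - (analyticOrderNatAt F 1) * Real.log j by ring] at h3
  linarith

/-- one-sided bound implies zero-free disk -/
theorem FrameData.crit2 (h : FrameData W N F e G A η C0 E0) (he : Measurable e) {w : ℝ} (hw : 1 / 2 < w)
    (hM : ∀ ε : ℝ, 0 < ε → ∀ᶠ j : ℕ in atTop, gm (LL N (badW W)) w j ≤ Real.exp (ε * j)) :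
    ∀ ρ : ℂ, ‖ρ - (1 + w)‖ < w → F ρ ≠ 0 := by
  apply (h.disk hw).mp
  apply (abs_criterion h.setup (by linarith : (1 : ℝ) / 2 < w) h.gpos h.lim).2
  intro ε hε
  have h0 : Tendsto (fun j : ℕ => Real.exp ((ε / 2) * j)) atTop atTop :=
    Real.tendsto_exp_atTop.comp (tendsto_natCast_atTop_atTop.const_mul_atTop (half_pos hε))
  filter_upwards [hM (ε / 2) (half_pos hε), h0.eventually (eventually_ge_atTop (1 + |C0|))] with j hj h1
  have h2 := (abs_le.mp (h.gm_LL he hw j)).1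
  have h3 : Real.exp (ε * j) = Real.exp ((ε / 2) * j) * Real.exp ((ε / 2) * j) := by
    rw [← Real.exp_add]; congr 1; ring
  rw [h3]
  have h4 := le_abs_self C0
  have h5 := abs_nonneg C0
  nlinarith

/-- boundedness implies the one-sided bound -/
theorem bdd_imp_exp {M : ℕ → ℝ} {r : ℕ} (h : ∃ K : ℝ, ∀ j : ℕ, 1 ≤ j → |M j - r * Real.log j| ≤ K) {ε : ℝ} (hε : 0 < ε) :
    ∀ᶠ j : ℕ in atTop, M j ≤ Real.exp (ε * j) := by
  obtain ⟨K, hK⟩ := h
  have h1 : Tendsto (fun j : ℕ => Real.exp (ε * j)) atTop atTop :=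
    Real.tendsto_exp_atTop.comp (tendsto_natCast_atTop_atTop.const_mul_atTop hε)
  -- `r log j ≤ r (2/ε) * log (exp ...)`: use `log j ≤ (ε/(2 (r+1))) j + c`
  have h2 : ∀ᶠ j : ℕ in atTop, (r : ℝ) * Real.log j + K ≤ Real.exp (ε * j) := by
    have h3 : Tendsto (fun j : ℕ => ((r : ℝ) * Real.log j + K) / j) atTop (𝓝 0) := by
      have h4 : Tendsto (fun x : ℝ => Real.log x / x) atTop (𝓝 0) := by
        have := Real.isLittleO_log_id_atTop.tendsto_div_nhds_zero
        simpa using this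
      have h5 := h4.comp tendsto_natCast_atTop_atTop
      have h6 : Tendsto (fun j : ℕ => K / (j : ℝ)) atTop (𝓝 0) := tendsto_natCast_atTop_atTop.const_div_atTop K
      have h7 := (h5.const_mul (r : ℝ)).add h6
      simp only [mul_zero, add_zero] at h7
      apply h7.congr
      intro j
      simp only [Function.comp]
      ring
    have h8 := h3.eventually (gt_mem_nhds hε)
    filter_upwards [h8, eventually_ge_atTop 1] with j hj hj1
    have hj0 : (0 : ℝ) < j := by exact_mod_cast hj1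
    rw [div_lt_iff₀ hj0] at hj
    have := Real.add_one_le_exp (ε * j)
    linarith
  filter_upwards [h2, eventually_ge_atTop 1] with j h3 hj1
  have h4 := (abs_le.mp (hK j hj1)).2
  linarith

/-- the half plane is the union of the disks -/
theorem halfplane_iff {F : ℂ → ℂ} (w0 : ℝ) :
    (∀ ρ : ℂ, 1 < ρ.re → F ρ ≠ 0) ↔ ∀ w : ℝ, w0 < w → 0 < w → ∀ ρ : ℂ, ‖ρ - (1 + w)‖ < w → F ρ ≠ 0 := by
  constructor
  · intro h w _ hw0 ρ hρ
    apply h
    have h1 := Complex.abs_re_le_norm (ρ - (1 + w))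
    have h2 : (ρ - (1 + w)).re = ρ.re - 1 - w := by simp; ring
    rw [h2] at h1
    have h3 := (abs_lt.mp (h1.trans_lt hρ)).1
    linarith
  · intro h ρ hρ
    set x := ρ.re - 1 with hx
    have hx0 : 0 < x := by linarith
    set n := ‖ρ - 1‖ with hn
    set w := max (w0 + 1) (n ^ 2 / x + 1) with hw
    have hw1 : w0 < w := lt_of_lt_of_le (by linarith) (le_max_left _ _)
    have hw2 : n ^ 2 / x + 1 ≤ w := le_max_right _ _
    have hw3 : 0 < w := lt_of_lt_of_le (by positivity) hw2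
    apply h w hw1 hw3
    have h4 : ‖ρ - (1 + w)‖ ^ 2 = w ^ 2 - 2 * w * x + n ^ 2 := by
      rw [hn, ← Complex.normSq_eq_norm_sq, ← Complex.normSq_eq_norm_sq, Complex.normSq_apply, Complex.normSq_apply, hx]
      simp
      ring
    have h5 : n ^ 2 < 2 * w * x := by
      have h6 : n ^ 2 / x < w := by linarith
      rw [div_lt_iff₀ hx0] at h6
      nlinarith
    have h7 : ‖ρ - (1 + w)‖ ^ 2 < w ^ 2 := by rw [h4]; linarith
    exact lt_of_pow_lt_pow_left₀ 2 hw3.le h7

end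

end Pool.Agent.Helper7.GW
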