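import Pool.Agent.Helper7.GW.Defs

/-!
# GW-10: identification of the limit by Abel's theorem

Let `T_j = M_j - r H_j → L`. By Abel's limit theorem (`Real.tendsto_tsum_powerSeries_nhdsWithin_lt`)
`(1 - x) ∑ T_j x^j → L` as `x → 1-`. The `M_j` are bounded by `C (j + 1)` (because `M_j - r H_j` converges), so
`F(z) = ∑ M_j z^j` is analytic on the unit disk, and `exp(-(1-z) F(z)) = B(z)` for small `z`, hence on the whole unit disk (identity theorem,
`AnalyticOnNhd.eqOn_of_preconnected_of_eventuallyEq` on `ball 0 1`). For `0 < x < 1`: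
`(1 - x) ∑ H_j x^j = - log(1-x)` (`Real.hasSum_pow_div_log_of_abs_lt_one`), so `exp(-(1-x) ∑ T_j x^j) = B(x)/(1-x)^r`, and `x → 1-` gives
`exp(-L) = b0`.
-/

namespace Pool.Agent.Helper7.GW

open MeasureTheory Set Filter Topology

private theorem bdd_of_tendsto {T : ℕ → ℝ} {L : ℝ} (hL : Tendsto T atTop (𝓝 L)) :
    ∃ C : ℝ, 0 ≤ C ∧ ∀ j, |T j| ≤ C := by
  have hb := hL.norm.bddAbove_range
  obtain ⟨C, hC⟩ := hb
  refine ⟨max C 0, le_max_right _ _, fun j => ?_⟩
  have h1 : ‖T j‖ ≤ C := hC ⟨j, rfl⟩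
  exact le_trans h1 (le_max_left _ _)

private theorem harm_bd (j : ℕ) : |((harmonic j : ℚ) : ℝ)| ≤ j := by
  induction j with
  | zero => simp
  | succ n ih =>
    rw [harmonic_succ]
    push_cast
    have h1 : |((n : ℝ) + 1)⁻¹| ≤ 1 := by
      rw [abs_of_nonneg (by positivity)]
      apply inv_le_one_of_one_le₀
      have : (0 : ℝ) ≤ n := Nat.cast_nonneg n
      linarith
    calc |((harmonic n : ℚ) : ℝ) + ((n : ℝ) + 1)⁻¹| ≤ |((harmonic n : ℚ) : ℝ)| + |((n : ℝ) + 1)⁻¹| :=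
          abs_add_le _ _
      _ ≤ n + 1 := add_le_add ih h1

private theorem summable_lin {u : ℕ → ℝ} {C : ℝ} (hu : ∀ j, |u j| ≤ C * (j + 1)) {ρ : ℝ} (h0 : 0 ≤ ρ)
    (h1 : ρ < 1) : Summable fun j => |u j| * ρ ^ j := by
  have h2 : Summable fun j : ℕ => C * (((j : ℝ) ^ 1 * ρ ^ j) + ρ ^ j) := by
    apply Summable.mul_left
    apply Summable.add
    · exact summable_pow_mul_geometric_of_norm_lt_one 1 (by rwa [Real.norm_of_nonneg h0])
    · exact summable_geometric_of_lt_one h0 h1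
  refine Summable.of_nonneg_of_le (fun j => by positivity) (fun j => ?_) h2
  have h3 := mul_le_mul_of_nonneg_right (hu j) (pow_nonneg h0 j)
  calc |u j| * ρ ^ j ≤ C * (j + 1) * ρ ^ j := h3
    _ = C * (((j : ℝ) ^ 1 * ρ ^ j) + ρ ^ j) := by ring

private theorem summable_real {u : ℕ → ℝ} {C : ℝ} (hu : ∀ j, |u j| ≤ C * (j + 1)) {x : ℝ} (h : |x| < 1) :
    Summable fun j => u j * x ^ j := by
  apply Summable.of_norm
  have := summable_lin hu (abs_nonneg x) h
  refine this.congr (fun j => ?_)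
  rw [norm_mul, norm_pow, Real.norm_eq_abs, Real.norm_eq_abs]

private theorem diff_series {u : ℕ → ℝ} {C : ℝ} (hu : ∀ j, |u j| ≤ C * (j + 1)) :
    DifferentiableOn ℂ (fun z : ℂ => ∑' j : ℕ, (u j : ℂ) * z ^ j) (Metric.ball 0 1) := by
  intro z hz
  have hz1 : ‖z‖ < 1 := by simpa using hz
  obtain ⟨ρ, hρ1, hρ2⟩ := exists_between hz1
  have hρ0 : 0 ≤ ρ := le_trans (norm_nonneg z) hρ1.le
  have h1 : DifferentiableOn ℂ (fun z : ℂ => ∑' j : ℕ, (u j : ℂ) * z ^ j) (Metric.ball 0 ρ) := by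
    apply Complex.differentiableOn_tsum_of_summable_norm (summable_lin hu hρ0 hρ2)
    · intro j
      fun_prop
    · exact Metric.isOpen_ball
    · intro j w hw
      have hw1 : ‖w‖ < ρ := by simpa using hw
      rw [norm_mul, norm_pow, Complex.norm_real, Real.norm_eq_abs]
      gcongr
  have h2 : z ∈ Metric.ball (0 : ℂ) ρ := by simpa using hρ1
  exact (h1.differentiableAt (Metric.isOpen_ball.mem_nhds h2)).differentiableWithinAt

private theorem abel_step {T : ℕ → ℝ} {L : ℝ} (hL : Tendsto T atTop (𝓝 L)) :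
    Tendsto (fun x : ℝ => (1 - x) * ∑' j : ℕ, T j * x ^ j) (𝓝[<] 1) (𝓝 L) := by
  obtain ⟨C, hC0, hC⟩ := bdd_of_tendsto hL
  have hC' : ∀ j, |T j| ≤ C * (j + 1) := by
    intro j
    have h1 : (0 : ℝ) ≤ j := Nat.cast_nonneg j
    nlinarith [hC j]
  set a : ℕ → ℝ := fun j => T j - (if j = 0 then 0 else T (j - 1)) with ha
  have hsum : ∀ n, ∑ i ∈ Finset.range (n + 1), a i = T n := by
    intro n
    induction n with
    | zero => simp [ha]
    | succ k ih =>
      rw [Finset.sum_range_succ, ih]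
      simp [ha]
  have hlim : Tendsto (fun n => ∑ i ∈ Finset.range n, a i) atTop (𝓝 L) := by
    rw [← tendsto_add_atTop_iff_nat 1]
    exact hL.congr (fun n => (hsum n).symm)
  have h1 := Real.tendsto_tsum_powerSeries_nhdsWithin_lt hlim
  refine h1.congr' ?_
  have hmem : ∀ᶠ x : ℝ in 𝓝[<] 1, x ∈ Ioo (0 : ℝ) 1 := Ioo_mem_nhdsLT one_pos
  filter_upwards [hmem] with x hx
  have hx1 : |x| < 1 := by
    rw [abs_of_pos hx.1]
    exact hx.2
  have hs := summable_real hC' hx1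
  have hs1 : Summable fun j : ℕ => (if j = 0 then 0 else T (j - 1)) * x ^ j := by
    rw [← summable_nat_add_iff 1]
    have := hs.mul_right x
    refine this.congr (fun j => ?_)
    simp only [Nat.add_eq_zero_iff, one_ne_zero, and_false, if_false, Nat.add_sub_cancel]
    ring
  have h2 : ∑' j : ℕ, (if j = 0 then 0 else T (j - 1)) * x ^ j = x * ∑' j : ℕ, T j * x ^ j := by
    rw [hs1.tsum_eq_zero_add, ← tsum_mul_left]
    simp only [if_true, zero_mul, zero_add, Nat.add_eq_zero_iff, one_ne_zero, and_false, if_false,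
      Nat.add_sub_cancel]
    refine tsum_congr (fun j => ?_)
    ring
  calc ∑' n, a n * x ^ n = ∑' n, (T n * x ^ n - (if n = 0 then 0 else T (n - 1)) * x ^ n) := by
        refine tsum_congr (fun j => ?_)
        simp only [ha]
        ring
    _ = (1 - x) * ∑' j : ℕ, T j * x ^ j := by
        rw [hs.tsum_sub hs1, h2]
        ring

private theorem harm_series {x : ℝ} (hx0 : 0 < x) (hx1 : x < 1) :
    (1 - x) * ∑' j : ℕ, ((harmonic j : ℚ) : ℝ) * x ^ j = -Real.log (1 - x) := by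
  have hx : |x| < 1 := by rwa [abs_of_pos hx0]
  have hb : ∀ j : ℕ, |((harmonic j : ℚ) : ℝ)| ≤ 1 * ((j : ℝ) + 1) := by
    intro j
    have := harm_bd j
    linarith
  have hs := summable_real hb hx
  have hl := Real.hasSum_pow_div_log_of_abs_lt_one hx
  have h0 := hs.tsum_eq_zero_add
  have h2 : ∑' j : ℕ, ((harmonic (j + 1) : ℚ) : ℝ) * x ^ (j + 1) =
      ∑' j : ℕ, (((harmonic j : ℚ) : ℝ) * x ^ j * x + x ^ (j + 1) / (j + 1)) := by
    refine tsum_congr (fun j => ?_)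
    rw [harmonic_succ]
    push_cast
    field_simp
    ring
  rw [h2, (hs.mul_right x).tsum_add hl.summable, tsum_mul_right, hl.tsum_eq] at h0
  simp only [harmonic_zero, Rat.cast_zero, zero_mul, zero_add] at h0
  linear_combination h0

theorem abel_id {M : ℕ → ℝ} {B : ℂ → ℂ} {r0 : ℝ} (hr0 : 0 < r0) (hB : DifferentiableOn ℂ B (Metric.ball 0 1))
    (hM : ∀ z : ℂ, ‖z‖ < r0 → ∃ S0 : ℂ, HasSum (fun j : ℕ => (M j : ℂ) * z ^ j) S0 ∧
      B z = Complex.exp (-((1 - z) * S0)))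
    {r : ℕ} {L : ℝ} (hL : Tendsto (fun j : ℕ => M j - (r : ℝ) * ((harmonic j : ℚ) : ℝ)) atTop (𝓝 L))
    {b0 : ℝ} (hb : Tendsto (fun x : ℝ => ‖B (x : ℂ)‖ / (1 - x) ^ r) (𝓝[<] 1) (𝓝 b0)) :
    Real.exp (-L) = b0 := by
  obtain ⟨C, hC0, hC⟩ := bdd_of_tendsto hL
  have hMb : ∀ j, |M j| ≤ (C + r) * (j + 1) := by
    intro j
    have h1 : (0 : ℝ) ≤ j := Nat.cast_nonneg j
    have h2 : (0 : ℝ) ≤ r := Nat.cast_nonneg r
    have h3 : |M j| ≤ |M j - (r : ℝ) * ((harmonic j : ℚ) : ℝ)| + |(r : ℝ) * ((harmonic j : ℚ) : ℝ)| := by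
      have := abs_add_le (M j - (r : ℝ) * ((harmonic j : ℚ) : ℝ)) ((r : ℝ) * ((harmonic j : ℚ) : ℝ))
      rwa [sub_add_cancel] at this
    have h4 : |(r : ℝ) * ((harmonic j : ℚ) : ℝ)| ≤ r * j := by
      rw [abs_mul, abs_of_nonneg h2]
      exact mul_le_mul_of_nonneg_left (harm_bd j) h2
    have h5 := hC j
    nlinarith
  have hTb : ∀ j, |M j - (r : ℝ) * ((harmonic j : ℚ) : ℝ)| ≤ C * (j + 1) := by
    intro j
    have h1 : (0 : ℝ) ≤ j := Nat.cast_nonneg j
    nlinarith [hC j]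
  have hHb : ∀ j : ℕ, |((harmonic j : ℚ) : ℝ)| ≤ 1 * ((j : ℝ) + 1) := by
    intro j
    have := harm_bd j
    linarith
  set F : ℂ → ℂ := fun z => ∑' j : ℕ, (M j : ℂ) * z ^ j with hF
  have hFd := diff_series hMb
  set E : ℂ → ℂ := fun z => Complex.exp (-((1 - z) * F z)) with hE
  have hEd : DifferentiableOn ℂ E (Metric.ball 0 1) := by
    apply DifferentiableOn.cexp
    apply DifferentiableOn.neg
    apply DifferentiableOn.mul _ hFd
    fun_prop
  have hBa : AnalyticOnNhd ℂ B (Metric.ball 0 1) := hB.analyticOnNhd Metric.isOpen_ball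
  have hEa : AnalyticOnNhd ℂ E (Metric.ball 0 1) := hEd.analyticOnNhd Metric.isOpen_ball
  have hev : B =ᶠ[𝓝 0] E := by
    filter_upwards [Metric.ball_mem_nhds (0 : ℂ) hr0] with z hz
    have hz1 : ‖z‖ < r0 := by simpa using hz
    obtain ⟨S0, hS, hBS⟩ := hM z hz1
    rw [hBS, hE, hF]
    simp only
    rw [hS.tsum_eq]
  have hEq : EqOn B E (Metric.ball 0 1) :=
    hBa.eqOn_of_preconnected_of_eventuallyEq hEa (convex_ball (0 : ℂ) 1).isPreconnected
      (Metric.mem_ball_self one_pos) hev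
  have hlim : Tendsto (fun x : ℝ => Real.exp (-((1 - x) * ∑' j : ℕ,
      (M j - (r : ℝ) * ((harmonic j : ℚ) : ℝ)) * x ^ j))) (𝓝[<] 1) (𝓝 (Real.exp (-L))) :=
    (Real.continuous_exp.tendsto _).comp (abel_step hL).neg
  have hcongr : (fun x : ℝ => ‖B (x : ℂ)‖ / (1 - x) ^ r) =ᶠ[𝓝[<] 1] fun x : ℝ =>
      Real.exp (-((1 - x) * ∑' j : ℕ, (M j - (r : ℝ) * ((harmonic j : ℚ) : ℝ)) * x ^ j)) := by
    have hmem : ∀ᶠ x : ℝ in 𝓝[<] 1, x ∈ Ioo (0 : ℝ) 1 := Ioo_mem_nhdsLT one_pos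
    filter_upwards [hmem] with x hx
    have hx1 : |x| < 1 := by
      rw [abs_of_pos hx.1]
      exact hx.2
    have hball : (x : ℂ) ∈ Metric.ball (0 : ℂ) 1 := by
      simpa using hx1
    have h1 : F (x : ℂ) = ((∑' j : ℕ, M j * x ^ j : ℝ) : ℂ) := by
      rw [hF, Complex.ofReal_tsum]
      refine tsum_congr (fun j => ?_)
      push_cast
      rfl
    have h2 : ‖B (x : ℂ)‖ = Real.exp (-((1 - x) * ∑' j : ℕ, M j * x ^ j)) := by
      rw [hEq hball, hE]
      simp only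
      rw [h1, Complex.norm_exp]
      congr 1
      have h3 : -((1 - (x : ℂ)) * ((∑' j : ℕ, M j * x ^ j : ℝ) : ℂ)) =
          ((-((1 - x) * ∑' j : ℕ, M j * x ^ j) : ℝ) : ℂ) := by
        push_cast
        rfl
      rw [h3, Complex.ofReal_re]
    have h3 : ∑' j : ℕ, M j * x ^ j = (∑' j : ℕ, (M j - (r : ℝ) * ((harmonic j : ℚ) : ℝ)) * x ^ j) +
        r * ∑' j : ℕ, ((harmonic j : ℚ) : ℝ) * x ^ j := by
      rw [← tsum_mul_left, ← (summable_real hTb hx1).tsum_add ((summable_real hHb hx1).mul_left _)]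
      refine tsum_congr (fun j => ?_)
      ring
    have h4 : (0 : ℝ) < 1 - x := by linarith [hx.2]
    rw [h2, h3, div_eq_iff (pow_pos h4 r).ne']
    have h5 := harm_series hx.1 hx.2
    have h6 : (1 - x) ^ r = Real.exp (r * Real.log (1 - x)) := by
      rw [Real.exp_nat_mul, Real.exp_log h4]
    rw [h6, ← Real.exp_add]
    congr 1
    linear_combination (-(r : ℝ)) * h5
  exact tendsto_nhds_unique (hlim.congr' hcongr.symm) hb

end Pool.Agent.Helper7.GW
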