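import Pool.Agent.Helper7.GW.AbsI
import Pool.Agent.Helper7.GW.Loc

/-!
# GW-17: zero-free disks and Gamma means

(i) → (ii): `gm_limit` (a convergent sequence is bounded; for the finitely many small `j ≥ 1` anyway). `log (j/w) = log j - log w`.
(ii) → (iii): `r log j + K ≤ e^{εj}` eventually. (iii) → (i): if `G s = 0`, `‖s - w‖ < w`, `gm_big` gives infinitely many `j` with
`gm v w j ≥ η ρ^{-j}/j > e^{εj}` for `ε = -(log ρ)/2`.
-/

namespace Pool.Agent.Helper7.GW

open MeasureTheory Set Filter Topology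

theorem abs_criterion {v : ℝ → ℝ} {G : ℂ → ℂ} {A a η₀ w : ℝ} (h : Setup v G A a η₀) (haw : a < w) {r : ℕ} {g : ℝ}
    (hg0 : 0 < g) (hg : Tendsto (fun y : ℝ => ‖G (y : ℂ)‖ / y ^ r) (𝓝[>] 0) (𝓝 g)) :
    ((∀ s : ℂ, ‖s - w‖ < w → G s ≠ 0) → ∃ K : ℝ, ∀ j : ℕ, 1 ≤ j → |gm v w j - r * Real.log j| ≤ K) ∧
    ((∀ ε : ℝ, 0 < ε → ∀ᶠ j : ℕ in atTop, gm v w j ≤ Real.exp (ε * j)) → ∀ s : ℂ, ‖s - w‖ < w → G s ≠ 0) := by
  have hw : 0 < w := h.grow.ha.trans_lt haw
  constructor
  · intro hzf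
    have h1 := gm_limit h haw hzf hg0 hg
    have h2 := h1.sub_const ((r : ℝ) * Real.log w)
    have h3 : Tendsto (fun j : ℕ => gm v w j - r * Real.log j) atTop
        (𝓝 (r * Real.eulerMascheroniConstant - Real.log g - r * Real.log w)) := by
      refine h2.congr' ?_
      filter_upwards [eventually_ge_atTop 1] with j hj
      have hj0 : (j : ℝ) ≠ 0 := by
        have : (1 : ℝ) ≤ j := by exact_mod_cast hj
        positivity
      rw [Real.log_div hj0 hw.ne']
      ring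
    obtain ⟨K, hK⟩ := (Metric.isBounded_range_of_tendsto _ h3).exists_norm_le
    refine ⟨K, fun j _ => ?_⟩
    have := hK _ (mem_range_self j)
    simpa [Real.norm_eq_abs] using this
  · intro hε s hsw hs
    obtain ⟨N, η, ρ, hη, hρ0, hρ1, _, hJ⟩ := gm_big h haw hs hsw
    set q : ℝ := Real.exp (-(Real.log ρ) / 2) with hq
    have hlog : Real.log ρ < 0 := Real.log_neg hρ0 hρ1
    have hq1 : 1 < q := by
      rw [hq]; apply Real.one_lt_exp_iff.2; linarith
    have hq2 : ρ⁻¹ = q * q := by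
      rw [hq, ← Real.exp_add]
      have : -Real.log ρ / 2 + -Real.log ρ / 2 = -Real.log ρ := by ring
      rw [this, Real.exp_neg, Real.exp_log hρ0]
    have h1 := hε (-(Real.log ρ) / 2) (by linarith)
    have h2 := (tendsto_pow_const_div_const_pow_of_one_lt 1 hq1).eventually_lt_const hη
    obtain ⟨J0, hJ0⟩ := eventually_atTop.1 ((h1.and h2).and (eventually_ge_atTop 1))
    obtain ⟨J, hJJ, hJ2⟩ := (hJ.and (eventually_ge_atTop J0)).exists
    obtain ⟨j, hj1, _, hj2⟩ := hJJ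
    obtain ⟨⟨h3, h4⟩, h5⟩ := hJ0 j (hJ2.trans hj1)
    have hj0 : (0 : ℝ) < j := by
      have : (1 : ℝ) ≤ j := by exact_mod_cast h5
      linarith
    have h6 : Real.exp (-(Real.log ρ) / 2 * j) = q ^ j := by
      rw [hq, ← Real.exp_nat_mul]; ring_nf
    rw [h6] at h3
    have hqj : 0 < q ^ j := by positivity
    rw [pow_one, div_lt_iff₀ hqj] at h4
    have h7 : η * (ρ⁻¹) ^ j / j ≤ q ^ j := hj2.trans h3
    rw [hq2, mul_pow, div_le_iff₀ hj0] at h7
    have h8 : η * q ^ j ≤ j := by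
      have : (η * q ^ j) * q ^ j ≤ j * q ^ j := by linarith
      exact le_of_mul_le_mul_right this hqj
    linarith

end Pool.Agent.Helper7.GW
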