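import Mathlib

/-!
# GW-06: oscillation lemma

`T(j) = ∑_{u ∈ S} c_u u^j`, `|u| = 1` distinct, `c_u ≠ 0`, `Im T(j) → 0`. Let `A = ∑ ‖c_u‖ > 0`, `s = ∑ ‖c_u‖² > 0`.
* `(1/B) ∑_{i<B} |T(J+i)|² = ∑_{u,v} c_u c̄_v (u v̄)^J (1/B) ∑_{i<B} (u v̄)^i ≥ s - K2/B`, `K2 = ∑_{u≠v} 2‖c_u‖‖c_v‖/|1 - u v̄|`
  (geometric sums; `u v̄ ≠ 1` for `u ≠ v` of modulus one).
* `(1/B) ∑_{i<B} Re T(J+i) ≥ -K1/B`, `K1 = ∑_{u≠1} 2‖c_u‖/|1-u|` (the term `u = 1` contributes `Re c_1 > 0`).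
Suppose `Re T(J+i) < η` for all `i < B`. Since `|Re T| = 2 (Re T)^+ - Re T ≤ 2η - Re T` and `|Re T| ≤ A`,
`(1/B)∑ (Re T)² ≤ A (2η + K1/B)`. For `J` large `(Im T)² ≤ s/4`. So `s - K2/B ≤ A(2η + K1/B) + s/4`, impossible for
`η = s/(16 A)` and `B ≥ 4 K2/s`, `B ≥ 8 A K1/s`, `B ≥ 1` (left `≥ 3s/4`, right `≤ s/8 + s/8 + s/4 = s/2`).
-/

namespace Pool.Agent.Helper7.GW

open Filter Topology

private theorem geo {w : ℂ} (hw : ‖w‖ = 1) (h1 : w ≠ 1) (B : ℕ) :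
    ‖∑ i ∈ Finset.range B, w ^ i‖ ≤ 2 / ‖1 - w‖ := by
  rw [geom_sum_eq h1, norm_div, norm_sub_rev w 1]
  have h2 : ‖w ^ B - 1‖ ≤ 2 := by
    refine (norm_sub_le _ _).trans ?_
    rw [norm_pow, hw, one_pow, norm_one]
    norm_num
  exact div_le_div_of_nonneg_right h2 (norm_nonneg _)

private theorem sumRe (S : Finset ℂ) (c : ℂ → ℂ) (hS : ∀ u ∈ S, ‖u‖ = 1)
    (h1 : (1 : ℂ) ∈ S → 0 < (c 1).re) (J B : ℕ) :
    -(∑ u ∈ S, 2 * ‖c u‖ / ‖1 - u‖) ≤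
      ∑ i ∈ Finset.range B, (∑ u ∈ S, c u * u ^ (J + i)).re := by
  have e1 : ∑ i ∈ Finset.range B, (∑ u ∈ S, c u * u ^ (J + i)).re =
      ∑ u ∈ S, (c u * u ^ J * ∑ i ∈ Finset.range B, u ^ i).re := by
    rw [← Complex.re_sum, Finset.sum_comm, Complex.re_sum]
    refine Finset.sum_congr rfl fun u _ => ?_
    congr 1
    rw [Finset.mul_sum]
    refine Finset.sum_congr rfl fun i _ => ?_
    rw [pow_add]
    ring
  rw [e1, ← Finset.sum_neg_distrib]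
  refine Finset.sum_le_sum fun u hu => ?_
  by_cases hu1 : u = 1
  · subst hu1
    have h2 : (c 1 * 1 ^ J * ∑ i ∈ Finset.range B, (1 : ℂ) ^ i).re = (c 1).re * B := by
      simp
    rw [h2]
    have h3 := h1 hu
    simp only [sub_self, norm_zero, div_zero, neg_zero]
    positivity
  · have h2 : ‖c u * u ^ J * ∑ i ∈ Finset.range B, u ^ i‖ ≤ 2 * ‖c u‖ / ‖1 - u‖ := by
      rw [norm_mul, norm_mul, norm_pow, hS u hu, one_pow, mul_one]
      have h3 := mul_le_mul_of_nonneg_left (geo (hS u hu) hu1 B) (norm_nonneg (c u))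
      calc ‖c u‖ * ‖∑ i ∈ Finset.range B, u ^ i‖ ≤ ‖c u‖ * (2 / ‖1 - u‖) := h3
        _ = 2 * ‖c u‖ / ‖1 - u‖ := by ring
    have h3 := Complex.abs_re_le_norm (c u * u ^ J * ∑ i ∈ Finset.range B, u ^ i)
    have h4 := neg_abs_le (c u * u ^ J * ∑ i ∈ Finset.range B, u ^ i).re
    linarith

private theorem sumSq (S : Finset ℂ) (c : ℂ → ℂ) (hS : ∀ u ∈ S, ‖u‖ = 1) (J B : ℕ) :
    (∑ u ∈ S, ‖c u‖ ^ 2) * B -
        (∑ u ∈ S, ∑ v ∈ S, 2 * (‖c u‖ * ‖c v‖) / ‖1 - u * (starRingEnd ℂ) v‖) ≤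
      ∑ i ∈ Finset.range B, ‖∑ u ∈ S, c u * u ^ (J + i)‖ ^ 2 := by
  have e1 : ∀ i : ℕ, ‖∑ u ∈ S, c u * u ^ (J + i)‖ ^ 2 =
      (∑ u ∈ S, ∑ v ∈ S, c u * (starRingEnd ℂ) (c v) *
        (u * (starRingEnd ℂ) v) ^ (J + i)).re := by
    intro i
    have h2 : ((‖∑ u ∈ S, c u * u ^ (J + i)‖ ^ 2 : ℝ) : ℂ) =
        ∑ u ∈ S, ∑ v ∈ S, c u * (starRingEnd ℂ) (c v) * (u * (starRingEnd ℂ) v) ^ (J + i) := by
      rw [Complex.ofReal_pow, ← Complex.mul_conj', map_sum, Finset.sum_mul_sum]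
      refine Finset.sum_congr rfl fun u _ => Finset.sum_congr rfl fun v _ => ?_
      rw [map_mul, map_pow, mul_pow]
      ring
    rw [← h2, Complex.ofReal_re]
  have e2 : ∑ i ∈ Finset.range B, ‖∑ u ∈ S, c u * u ^ (J + i)‖ ^ 2 =
      ∑ u ∈ S, ∑ v ∈ S, (c u * (starRingEnd ℂ) (c v) * (u * (starRingEnd ℂ) v) ^ J *
        ∑ i ∈ Finset.range B, (u * (starRingEnd ℂ) v) ^ i).re := by
    rw [Finset.sum_congr rfl fun i _ => e1 i, ← Complex.re_sum, Finset.sum_comm, Complex.re_sum]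
    refine Finset.sum_congr rfl fun u _ => ?_
    rw [Finset.sum_comm, Complex.re_sum]
    refine Finset.sum_congr rfl fun v _ => ?_
    congr 1
    rw [Finset.mul_sum]
    refine Finset.sum_congr rfl fun i _ => ?_
    rw [pow_add]
    ring
  rw [e2, Finset.sum_mul, ← Finset.sum_sub_distrib]
  refine Finset.sum_le_sum fun u hu => ?_
  classical
  have e3 : ∑ v ∈ S, (if v = u then ‖c u‖ ^ 2 * (B : ℝ) else 0) = ‖c u‖ ^ 2 * B := by
    rw [Finset.sum_ite_eq' S u, if_pos hu]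
  rw [← e3, ← Finset.sum_sub_distrib]
  refine Finset.sum_le_sum fun v hv => ?_
  have hn : ‖u * (starRingEnd ℂ) v‖ = 1 := by
    rw [norm_mul, hS u hu, RCLike.norm_conj, hS v hv, mul_one]
  by_cases huv : v = u
  · subst huv
    rw [if_pos rfl]
    have h2 : v * (starRingEnd ℂ) v = 1 := by
      rw [Complex.mul_conj', hS v hv]
      norm_num
    rw [h2]
    have h3 : (c v * (starRingEnd ℂ) (c v) * 1 ^ J * ∑ i ∈ Finset.range B, (1 : ℂ) ^ i).re =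
        ‖c v‖ ^ 2 * B := by
      rw [Complex.mul_conj']
      simp only [one_pow, mul_one, Finset.sum_const, Finset.card_range, nsmul_eq_mul]
      rw [← Complex.ofReal_pow, ← Complex.ofReal_natCast, ← Complex.ofReal_mul,
        Complex.ofReal_re]
    rw [h3]
    simp
  · rw [if_neg huv, zero_sub]
    have hw1 : u * (starRingEnd ℂ) v ≠ 1 := by
      intro h
      apply huv
      have h2 : (starRingEnd ℂ) v * v = 1 := by
        rw [mul_comm, Complex.mul_conj', hS v hv]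
        norm_num
      calc v = 1 * v := (one_mul v).symm
        _ = u * (starRingEnd ℂ) v * v := by rw [h]
        _ = u * ((starRingEnd ℂ) v * v) := by ring
        _ = u := by rw [h2, mul_one]
    have h2 : ‖c u * (starRingEnd ℂ) (c v) * (u * (starRingEnd ℂ) v) ^ J *
        ∑ i ∈ Finset.range B, (u * (starRingEnd ℂ) v) ^ i‖ ≤
        2 * (‖c u‖ * ‖c v‖) / ‖1 - u * (starRingEnd ℂ) v‖ := by
      rw [norm_mul, norm_mul, norm_mul, norm_pow, hn, one_pow, mul_one, RCLike.norm_conj]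
      have h3 := mul_le_mul_of_nonneg_left (geo hn hw1 B)
        (mul_nonneg (norm_nonneg (c u)) (norm_nonneg (c v)))
      calc _ ≤ ‖c u‖ * ‖c v‖ * (2 / ‖1 - u * (starRingEnd ℂ) v‖) := h3
        _ = _ := by ring
    have h3 := Complex.abs_re_le_norm (c u * (starRingEnd ℂ) (c v) *
      (u * (starRingEnd ℂ) v) ^ J * ∑ i ∈ Finset.range B, (u * (starRingEnd ℂ) v) ^ i)
    have h4 := neg_abs_le (c u * (starRingEnd ℂ) (c v) *
      (u * (starRingEnd ℂ) v) ^ J * ∑ i ∈ Finset.range B, (u * (starRingEnd ℂ) v) ^ i).re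
    linarith

theorem osc (S : Finset ℂ) (c : ℂ → ℂ) (hS : ∀ u ∈ S, ‖u‖ = 1) (hc : ∀ u ∈ S, c u ≠ 0) (hne : S.Nonempty)
    (h1 : (1 : ℂ) ∈ S → 0 < (c 1).re)
    (him : Tendsto (fun j : ℕ => (∑ u ∈ S, c u * u ^ j).im) atTop (𝓝 0)) :
    ∃ (N : ℕ) (η : ℝ), 0 < η ∧ ∀ᶠ J : ℕ in atTop, ∃ j : ℕ, J ≤ j ∧ j < J + N ∧
      η ≤ (∑ u ∈ S, c u * u ^ j).re := by
  set A : ℝ := ∑ u ∈ S, ‖c u‖ with hA
  set s : ℝ := ∑ u ∈ S, ‖c u‖ ^ 2 with hs
  set K1 : ℝ := ∑ u ∈ S, 2 * ‖c u‖ / ‖1 - u‖ with hK1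
  set K2 : ℝ := ∑ u ∈ S, ∑ v ∈ S, 2 * (‖c u‖ * ‖c v‖) / ‖1 - u * (starRingEnd ℂ) v‖ with hK2
  have hApos : 0 < A := Finset.sum_pos (fun u hu => norm_pos_iff.2 (hc u hu)) hne
  have hspos : 0 < s := Finset.sum_pos (fun u hu => pow_pos (norm_pos_iff.2 (hc u hu)) 2) hne
  obtain ⟨B, hB⟩ := exists_nat_gt (2 * (K2 + A * K1) / s)
  have hB' : 2 * (K2 + A * K1) < s * B := by
    rw [div_lt_iff₀ hspos] at hB
    linarith
  refine ⟨B, s / (16 * A), by positivity, ?_⟩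
  have him2 : ∀ᶠ j : ℕ in atTop, |(∑ u ∈ S, c u * u ^ j).im| < Real.sqrt (s / 4) := by
    have h2 : Tendsto (fun j : ℕ => |(∑ u ∈ S, c u * u ^ j).im|) atTop (𝓝 0) := by
      simpa using him.abs
    exact h2.eventually_lt_const (Real.sqrt_pos.2 (by positivity))
  obtain ⟨J₀, hJ₀⟩ := Filter.eventually_atTop.1 him2
  filter_upwards [Filter.eventually_ge_atTop J₀] with J hJ
  by_contra hcon
  push Not at hcon
  have hre : ∀ i ∈ Finset.range B, (∑ u ∈ S, c u * u ^ (J + i)).re < s / (16 * A) := by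
    intro i hi
    exact hcon (J + i) (by omega) (by have := Finset.mem_range.1 hi; omega)
  have hT : ∀ j : ℕ, |(∑ u ∈ S, c u * u ^ j).re| ≤ A := by
    intro j
    refine (Complex.abs_re_le_norm _).trans ((norm_sum_le _ _).trans (le_of_eq ?_))
    refine Finset.sum_congr rfl fun u hu => ?_
    rw [norm_mul, norm_pow, hS u hu, one_pow, mul_one]
  have hsq : ∀ i ∈ Finset.range B, ‖∑ u ∈ S, c u * u ^ (J + i)‖ ^ 2 ≤
      A * (2 * (s / (16 * A)) - (∑ u ∈ S, c u * u ^ (J + i)).re) + s / 4 := by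
    intro i hi
    have h2 := hre i hi
    have h3 := hT (J + i)
    have h4 := hJ₀ (J + i) (by omega)
    set z := ∑ u ∈ S, c u * u ^ (J + i) with hz
    have h5 : ‖z‖ ^ 2 = z.re ^ 2 + z.im ^ 2 := by
      rw [← Complex.normSq_eq_norm_sq, Complex.normSq_apply]
      ring
    rw [h5]
    have h6 : z.im ^ 2 ≤ s / 4 := by
      rw [← sq_abs]
      have h7 : |z.im| ^ 2 ≤ Real.sqrt (s / 4) ^ 2 :=
        pow_le_pow_left₀ (abs_nonneg _) h4.le 2
      rwa [Real.sq_sqrt (by positivity)] at h7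
    have hη : 0 < s / (16 * A) := by positivity
    have h7 : |z.re| ≤ 2 * (s / (16 * A)) - z.re := by
      rcases le_total 0 z.re with h | h
      · rw [abs_of_nonneg h]
        linarith
      · rw [abs_of_nonpos h]
        linarith
    have h8 : z.re ^ 2 ≤ A * (2 * (s / (16 * A)) - z.re) := by
      rw [← sq_abs, sq]
      exact mul_le_mul h3 h7 (abs_nonneg _) hApos.le
    linarith
  have h2 := Finset.sum_le_sum hsq
  have h3 := sumSq S c hS J B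
  have h4 := sumRe S c hS h1 J B
  rw [Finset.sum_add_distrib, ← Finset.mul_sum, Finset.sum_sub_distrib, Finset.sum_const,
    Finset.sum_const, Finset.card_range, nsmul_eq_mul, nsmul_eq_mul] at h2
  rw [← hs, ← hK2] at h3
  rw [← hK1] at h4
  have h5 : A * (B * (2 * (s / (16 * A)))) = s * B / 8 := by
    field_simp
    ring
  have h6 := mul_le_mul_of_nonneg_left h4 hApos.le
  have h7 : A * (B * (2 * (s / (16 * A))) -
      ∑ i ∈ Finset.range B, (∑ u ∈ S, c u * u ^ (J + i)).re) =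
      s * B / 8 - A * ∑ i ∈ Finset.range B, (∑ u ∈ S, c u * u ^ (J + i)).re := by
    rw [mul_sub, h5]
  rw [h7] at h2
  nlinarith

end Pool.Agent.Helper7.GW
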