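import Mathlib

/-!
# GW-07: the partial sums `∑_{i ≤ j} ζ^{-i} / i`

(a) `‖ζ‖ < 1`, `ζ ≠ 0`: `j ζ^j ∑_{1≤i≤j} ζ^{-i}/i = ∑_{0≤l<j} (j/(j-l)) ζ^l` (put `i = j - l`) and `j/(j-l) ≤ l + 1`, and tends to `1` for fixed
`l`: by dominated convergence (`tendsto_tsum_of_dominated_convergence`, bound `(l+1) ‖ζ‖^l`) the limit is `∑ ζ^l = 1/(1-ζ)`.
(b) `0 < ρ < ‖ζ‖`, `ρ < 1`: `‖∑_{i≤j} ζ^{-i}/i‖ ≤ j max(1, ‖ζ‖^{-j})`, and `j ρ^j · j · max(1, ‖ζ‖^{-j}) → 0`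
(`j² q^j → 0` for `q = max(ρ, ρ/‖ζ‖) < 1`).
(c) `‖u i‖ ≤ C q^i`: the series `∑ u_i/(i+1)` converges absolutely, partial sums bounded by `C/(1-q)`.
(d) `‖ζ‖ = 1`, `ζ ≠ 1`: `∑_{i≤j} ζ^{-i}/i` converges (Dirichlet's test,
`Antitone.cauchySeq_series_mul_of_tendsto_zero_of_bounded`; partial sums of `ζ^{-i}` are bounded by `2/|1-ζ^{-1}|`).
-/

namespace Pool.Agent.Helper7.GW

open Filter Topology

private lemma tannery_key {ζ : ℂ} (h0 : ζ ≠ 0) (j : ℕ) :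
    (j : ℂ) * ζ ^ j * ∑ i ∈ Finset.range j, (ζ⁻¹) ^ (i + 1) / ((i : ℂ) + 1) =
      ∑' l : ℕ, (if l < j then (j : ℂ) / ((j : ℂ) - l) * ζ ^ l else 0) := by
  rw [tsum_eq_sum (s := Finset.range j)]
  · rw [← Finset.sum_range_reflect, Finset.mul_sum]
    refine Finset.sum_congr rfl (fun i hi => ?_)
    have hij : i < j := Finset.mem_range.mp hi
    rw [if_pos hij]
    have h2 : ((j - 1 - i : ℕ) : ℂ) = (j : ℂ) - 1 - i := by
      rw [Nat.cast_sub (by omega), Nat.cast_sub (by omega)]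
      simp
    have h3 : ζ ^ j = ζ ^ i * ζ ^ (j - 1 - i + 1) := by
      rw [← pow_add]
      congr 1
      omega
    have h5 : (j : ℂ) - 1 - i + 1 = (j : ℂ) - i := by ring
    have h4 : (j : ℂ) - i ≠ 0 := by
      rw [sub_ne_zero]
      intro h
      have : j = i := by exact_mod_cast h
      omega
    have h6 : ζ ^ (j - 1 - i + 1) ≠ 0 := pow_ne_zero _ h0
    rw [h2, h5, h3, inv_pow]
    field_simp
  · intro l hl
    rw [if_neg]
    intro h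
    exact hl (Finset.mem_range.mpr h)

theorem tannery {ζ : ℂ} (h0 : ζ ≠ 0) (h1 : ‖ζ‖ < 1) :
    Tendsto (fun j : ℕ => (j : ℂ) * ζ ^ j * ∑ i ∈ Finset.range j, (ζ⁻¹) ^ (i + 1) / ((i : ℂ) + 1)) atTop
      (𝓝 (1 / (1 - ζ))) := by
  have hg : (1 : ℂ) / (1 - ζ) = ∑' l : ℕ, ζ ^ l := by
    rw [tsum_geometric_of_norm_lt_one h1, one_div]
  rw [hg]
  simp_rw [tannery_key h0]
  refine tendsto_tsum_of_dominated_convergence (bound := fun l : ℕ => ((l : ℝ) + 1) * ‖ζ‖ ^ l)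
    ?_ ?_ ?_
  · have h2 : ‖(‖ζ‖ : ℝ)‖ < 1 := by rwa [norm_norm]
    have h3 := summable_pow_mul_geometric_of_norm_lt_one 1 h2
    have h4 := summable_pow_mul_geometric_of_norm_lt_one 0 h2
    refine (h3.add h4).congr (fun l => ?_)
    simp only [pow_one, pow_zero]
    ring
  · intro l
    have h2 : Tendsto (fun j : ℕ => (j : ℂ) / ((j : ℂ) - l) * ζ ^ l) atTop (𝓝 (1 * ζ ^ l)) := by
      refine Tendsto.mul_const _ ?_
      have h3 : Tendsto (fun j : ℕ => (1 : ℂ) + (l : ℂ) / ((j : ℂ))) atTop (𝓝 (1 + 0)) := by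
        refine tendsto_const_nhds.add ?_
        exact tendsto_const_div_atTop_nhds_zero_nat (l : ℂ)
      have h4 : Tendsto (fun j : ℕ => ((j + l : ℕ) : ℂ) / (((j + l : ℕ) : ℂ) - l)) atTop (𝓝 1) := by
        rw [add_zero] at h3
        refine h3.congr' ?_
        filter_upwards [eventually_gt_atTop 0] with j hj
        have hj' : (j : ℂ) ≠ 0 := by exact_mod_cast hj.ne'
        push_cast
        rw [add_sub_cancel_right]
        field_simp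
      exact (tendsto_add_atTop_iff_nat l).mp h4
    rw [one_mul] at h2
    refine h2.congr' ?_
    filter_upwards [eventually_gt_atTop l] with j hj
    rw [if_pos hj]
  · filter_upwards with j l
    by_cases hl : l < j
    · rw [if_pos hl, norm_mul, norm_pow, norm_div]
      have h2 : ‖((j : ℂ) - l)‖ = (j : ℝ) - l := by
        have h3 : ((j : ℂ) - l) = (((j : ℝ) - l : ℝ) : ℂ) := by push_cast; ring
        rw [h3, Complex.norm_real, Real.norm_of_nonneg]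
        have : (l : ℝ) < j := by exact_mod_cast hl
        linarith
      rw [h2, Complex.norm_natCast]
      have h4 : (0 : ℝ) < (j : ℝ) - l := by
        have : (l : ℝ) < j := by exact_mod_cast hl
        linarith
      refine mul_le_mul_of_nonneg_right ?_ (by positivity)
      rw [div_le_iff₀ h4]
      have h5 : (l : ℝ) + 1 ≤ j := by exact_mod_cast hl
      have h6 : (0 : ℝ) ≤ l := Nat.cast_nonneg l
      nlinarith
    · rw [if_neg hl, norm_zero]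
      positivity

private lemma sum_bound {ζ : ℂ} (j : ℕ) :
    ‖∑ i ∈ Finset.range j, (ζ⁻¹) ^ (i + 1) / ((i : ℂ) + 1)‖ ≤ (j : ℝ) * (max 1 ‖ζ⁻¹‖) ^ j := by
  have h1 : ∀ i ∈ Finset.range j, ‖(ζ⁻¹) ^ (i + 1) / ((i : ℂ) + 1)‖ ≤ (max 1 ‖ζ⁻¹‖) ^ j := by
    intro i hi
    have hij : i + 1 ≤ j := Finset.mem_range.mp hi
    have h2 : ‖((i : ℂ) + 1)‖ = (i : ℝ) + 1 := by
      have h3 : ((i : ℂ) + 1) = (((i + 1 : ℕ)) : ℂ) := by push_cast; ring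
      rw [h3, Complex.norm_natCast]
      push_cast
      ring
    rw [norm_div, norm_pow, h2]
    have h3 : (1 : ℝ) ≤ (i : ℝ) + 1 := by
      have : (0 : ℝ) ≤ i := Nat.cast_nonneg i
      linarith
    calc ‖ζ⁻¹‖ ^ (i + 1) / ((i : ℝ) + 1) ≤ ‖ζ⁻¹‖ ^ (i + 1) :=
          div_le_self (by positivity) h3
      _ ≤ (max 1 ‖ζ⁻¹‖) ^ (i + 1) := pow_le_pow_left₀ (norm_nonneg _) (le_max_right _ _) _
      _ ≤ (max 1 ‖ζ⁻¹‖) ^ j := pow_le_pow_right₀ (le_max_left _ _) hij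
  calc ‖∑ i ∈ Finset.range j, (ζ⁻¹) ^ (i + 1) / ((i : ℂ) + 1)‖
      ≤ ∑ i ∈ Finset.range j, ‖(ζ⁻¹) ^ (i + 1) / ((i : ℂ) + 1)‖ := norm_sum_le _ _
    _ ≤ ∑ i ∈ Finset.range j, (max 1 ‖ζ⁻¹‖) ^ j := Finset.sum_le_sum h1
    _ = (j : ℝ) * (max 1 ‖ζ⁻¹‖) ^ j := by
        rw [Finset.sum_const, Finset.card_range, nsmul_eq_mul]

theorem subdom {ρ : ℝ} {ζ : ℂ} (hρ : 0 < ρ) (hρ1 : ρ < 1) (h : ρ < ‖ζ‖) :
    Tendsto (fun j : ℕ => (j : ℂ) * (ρ : ℂ) ^ j * ∑ i ∈ Finset.range j, (ζ⁻¹) ^ (i + 1) / ((i : ℂ) + 1)) atTop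
      (𝓝 0) := by
  have hζ : 0 < ‖ζ‖ := lt_trans hρ h
  set M : ℝ := max 1 ‖ζ⁻¹‖ with hM
  have hM0 : 0 < M := lt_of_lt_of_le one_pos (le_max_left _ _)
  have hMρ : ρ * M < 1 := by
    rw [hM, mul_max_of_nonneg _ _ hρ.le]
    refine max_lt (by linarith) ?_
    rw [norm_inv, ← div_eq_mul_inv, div_lt_one hζ]
    exact h
  have habs : |ρ * M| < 1 := by
    rw [abs_of_pos (mul_pos hρ hM0)]
    exact hMρ
  have hlim := tendsto_pow_const_mul_const_pow_of_abs_lt_one 2 habs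
  refine squeeze_zero_norm (fun j => ?_) hlim
  rw [norm_mul, norm_mul, norm_pow, Complex.norm_natCast, Complex.norm_real,
    Real.norm_of_nonneg hρ.le]
  calc (j : ℝ) * ρ ^ j * ‖∑ i ∈ Finset.range j, (ζ⁻¹) ^ (i + 1) / ((i : ℂ) + 1)‖
      ≤ (j : ℝ) * ρ ^ j * ((j : ℝ) * M ^ j) :=
        mul_le_mul_of_nonneg_left (sum_bound j) (by positivity)
    _ = (j : ℝ) ^ 2 * (ρ * M) ^ j := by rw [mul_pow]; ring

theorem small_part {u : ℕ → ℂ} {q C : ℝ} (hq0 : 0 ≤ q) (hq1 : q < 1) (hu : ∀ j, ‖u j‖ ≤ C * q ^ j) :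
    ∃ l : ℂ, Tendsto (fun j : ℕ => ∑ i ∈ Finset.range j, u i / ((i : ℂ) + 1)) atTop (𝓝 l) := by
  have hs : Summable (fun i : ℕ => u i / ((i : ℂ) + 1)) := by
    refine Summable.of_norm_bounded (g := fun i : ℕ => C * q ^ i)
      ((summable_geometric_of_lt_one hq0 hq1).mul_left C) (fun i => ?_)
    have h2 : ‖((i : ℂ) + 1)‖ = (i : ℝ) + 1 := by
      have h3 : ((i : ℂ) + 1) = (((i + 1 : ℕ)) : ℂ) := by push_cast; ring
      rw [h3, Complex.norm_natCast]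
      push_cast
      ring
    rw [norm_div, h2]
    have h3 : (1 : ℝ) ≤ (i : ℝ) + 1 := by
      have : (0 : ℝ) ≤ i := Nat.cast_nonneg i
      linarith
    exact (div_le_self (norm_nonneg _) h3).trans (hu i)
  exact ⟨_, hs.hasSum.tendsto_sum_nat⟩

theorem circle_part {ζ : ℂ} (h : ‖ζ‖ = 1) (h1 : ζ ≠ 1) :
    ∃ l : ℂ, Tendsto (fun j : ℕ => ∑ i ∈ Finset.range j, (ζ⁻¹) ^ (i + 1) / ((i : ℂ) + 1)) atTop (𝓝 l) := by
  have hw1 : ζ⁻¹ ≠ 1 := by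
    intro h2
    exact h1 (inv_eq_one.mp h2)
  have hw : ‖ζ⁻¹‖ = 1 := by rw [norm_inv, h, inv_one]
  have hanti : Antitone (fun i : ℕ => (1 : ℝ) / ((i : ℝ) + 1)) := by
    intro i k hik
    have h2 : (i : ℝ) ≤ k := by exact_mod_cast hik
    exact one_div_le_one_div_of_le (by positivity) (by linarith)
  have hzero : Tendsto (fun i : ℕ => (1 : ℝ) / ((i : ℝ) + 1)) atTop (𝓝 0) :=
    tendsto_one_div_add_atTop_nhds_zero_nat
  have hb : ∀ n : ℕ, ‖∑ i ∈ Finset.range n, (ζ⁻¹) ^ (i + 1)‖ ≤ 2 / ‖ζ⁻¹ - 1‖ := by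
    intro n
    have h2 : ∑ i ∈ Finset.range n, (ζ⁻¹) ^ (i + 1) = ζ⁻¹ * (((ζ⁻¹) ^ n - 1) / (ζ⁻¹ - 1)) := by
      rw [← geom_sum_eq hw1 n, Finset.mul_sum]
      refine Finset.sum_congr rfl (fun i _ => ?_)
      rw [pow_succ]
      ring
    rw [h2, norm_mul, norm_div, hw, one_mul]
    have h3 : 0 < ‖ζ⁻¹ - 1‖ := norm_pos_iff.mpr (sub_ne_zero.mpr hw1)
    refine div_le_div_of_nonneg_right ?_ h3.le
    calc ‖(ζ⁻¹) ^ n - 1‖ ≤ ‖(ζ⁻¹) ^ n‖ + ‖(1 : ℂ)‖ := norm_sub_le _ _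
      _ = 2 := by rw [norm_pow, hw, one_pow, norm_one]; norm_num
  have hc := hanti.cauchySeq_series_mul_of_tendsto_zero_of_bounded hzero hb
  obtain ⟨l, hl⟩ := cauchySeq_tendsto_of_complete hc
  refine ⟨l, hl.congr (fun n => ?_)⟩
  refine Finset.sum_congr rfl (fun i _ => ?_)
  rw [Complex.real_smul]
  push_cast
  ring

end Pool.Agent.Helper7.GW
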