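import Pool.Agent.Helper7.GW.Defs
import Pool.Agent.Helper7.GW.Osc
import Pool.Agent.Helper7.GW.Tannery

/-!
# GW-08: a zero in the open disk

Sum the recursion: `M_j = M_0 + ∑_{i<j} (1/(i+1)) (∑_ζ m_ζ ζ^{-(i+1)} + u_i)`. Let `ρ = min_{ζ∈Z} ‖ζ‖ < 1` and
`T(j) = ∑_{ζ ∈ Z, ‖ζ‖ = ρ} c_ζ (ρ/ζ)^j`, `c_ζ = m_ζ/(1-ζ)`. By `tannery` (multiply by `(ρ/ζ)^j`, bounded), `subdom`, `small_part` (a convergent
sequence times `j ρ^j → 0`): `j ρ^j M_j - T(j) → 0` in `ℂ`. As `M_j` is real, `Im T(j) → 0`. Apply `osc` with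
`S = image (fun ζ => ρ/ζ)` of the zeros of modulus `ρ` (injective), `c u = m_ζ/(1-ζ)` for `ζ = ρ/u`; `1 ∈ S` iff `ζ = ρ ∈ Z`, and then
`c_1 = m_ρ/(1-ρ) > 0`. So in every block of `N` consecutive large `j` there is one with `Re T(j) ≥ η`, hence
`M_j ≥ (η/2) ρ^{-j}/j`. If `(ρ : ℂ) ∉ Z`, apply `osc` to `-c` for the upper bound.
-/

namespace Pool.Agent.Helper7.GW

open MeasureTheory Set Filter Topology

private lemma data_sum {M : ℕ → ℝ} {Z : Finset ℂ} {m : ℂ → ℕ} {u : ℕ → ℂ} {q C : ℝ}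
    (h : Data M Z m u q C) (j : ℕ) :
    (M j : ℂ) = (M 0 : ℂ) +
      ∑ ζ ∈ Z, (m ζ : ℂ) * ∑ i ∈ Finset.range j, (ζ⁻¹) ^ (i + 1) / ((i : ℂ) + 1) +
      ∑ i ∈ Finset.range j, u i / ((i : ℂ) + 1) := by
  induction j with
  | zero => simp
  | succ j ih =>
    have hj : ((j : ℂ) + 1) ≠ 0 := by
      have : ((j + 1 : ℕ) : ℂ) ≠ 0 := Nat.cast_ne_zero.2 (Nat.succ_ne_zero j)
      push_cast at this
      exact this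
    have h1 : (M (j + 1) : ℂ) = (M j : ℂ) +
        (∑ ζ ∈ Z, (m ζ : ℂ) * (ζ⁻¹) ^ (j + 1) + u j) / ((j : ℂ) + 1) := by
      rw [← h.hrec j]
      field_simp
      ring
    have h2 : ∑ ζ ∈ Z, (m ζ : ℂ) * ∑ i ∈ Finset.range (j + 1), (ζ⁻¹) ^ (i + 1) / ((i : ℂ) + 1) =
        ∑ ζ ∈ Z, (m ζ : ℂ) * ∑ i ∈ Finset.range j, (ζ⁻¹) ^ (i + 1) / ((i : ℂ) + 1) +
        (∑ ζ ∈ Z, (m ζ : ℂ) * (ζ⁻¹) ^ (j + 1)) / ((j : ℂ) + 1) := by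
      rw [Finset.sum_div, ← Finset.sum_add_distrib]
      refine Finset.sum_congr rfl fun ζ _ => ?_
      rw [Finset.sum_range_succ]
      ring
    rw [h1, h2, Finset.sum_range_succ, ih]
    ring

private lemma jrho {ρ : ℝ} (hρ0 : 0 < ρ) (hρ1 : ρ < 1) :
    Tendsto (fun j : ℕ => (j : ℂ) * (ρ : ℂ) ^ j) atTop (𝓝 0) := by
  have h1 := tendsto_self_mul_const_pow_of_lt_one hρ0.le hρ1
  have h2 : Tendsto (fun j : ℕ => (((j : ℝ) * ρ ^ j : ℝ) : ℂ)) atTop (𝓝 ((0 : ℝ) : ℂ)) :=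
    (Complex.continuous_ofReal.tendsto 0).comp h1
  simpa using h2

/-- the main term -/
private noncomputable def TT (Z : Finset ℂ) (m : ℂ → ℕ) (ρ : ℝ) (j : ℕ) : ℂ :=
  ∑ ζ ∈ Z with ‖ζ‖ = ρ, (m ζ : ℂ) / (1 - ζ) * ((ρ : ℂ) / ζ) ^ j

private lemma main_lim {M : ℕ → ℝ} {Z : Finset ℂ} {m : ℂ → ℕ} {u : ℕ → ℂ} {q C : ℝ}
    (h : Data M Z m u q C) {ρ : ℝ} (hρ1 : ρ < 1) (hρ0 : 0 < ρ) (hmin : ∀ ζ ∈ Z, ρ ≤ ‖ζ‖) :
    Tendsto (fun j : ℕ => (j : ℂ) * (ρ : ℂ) ^ j * (M j : ℂ) - TT Z m ρ j) atTop (𝓝 0) := by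
  have hA : Tendsto (fun j : ℕ => (j : ℂ) * (ρ : ℂ) ^ j * (M 0 : ℂ)) atTop (𝓝 0) := by
    simpa using (jrho hρ0 hρ1).mul_const (M 0 : ℂ)
  have hU : Tendsto (fun j : ℕ => (j : ℂ) * (ρ : ℂ) ^ j *
      ∑ i ∈ Finset.range j, u i / ((i : ℂ) + 1)) atTop (𝓝 0) := by
    obtain ⟨l, hl⟩ := small_part h.hq0 h.hq1 h.hu
    simpa using (jrho hρ0 hρ1).mul hl
  have hZ : Tendsto (fun j : ℕ => ∑ ζ ∈ Z, ((m ζ : ℂ) * ((j : ℂ) * (ρ : ℂ) ^ j *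
      ∑ i ∈ Finset.range j, (ζ⁻¹) ^ (i + 1) / ((i : ℂ) + 1)) -
      (if ‖ζ‖ = ρ then (m ζ : ℂ) / (1 - ζ) * ((ρ : ℂ) / ζ) ^ j else 0))) atTop
      (𝓝 (∑ ζ ∈ Z, 0)) := by
    refine tendsto_finsetSum _ fun ζ hζ => ?_
    by_cases hn : ‖ζ‖ = ρ
    · simp only [if_pos hn]
      have h0 := h.hZ0 ζ hζ
      have h1 := tannery h0 (by rw [hn]; exact hρ1)
      have h2 : Tendsto (fun j : ℕ => (j : ℂ) * ζ ^ j *
          ∑ i ∈ Finset.range j, (ζ⁻¹) ^ (i + 1) / ((i : ℂ) + 1) - 1 / (1 - ζ)) atTop (𝓝 0) := by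
        simpa using h1.sub_const (1 / (1 - ζ))
      have h3 : Tendsto (fun j : ℕ => (m ζ : ℂ) * ((j : ℂ) * ζ ^ j *
          ∑ i ∈ Finset.range j, (ζ⁻¹) ^ (i + 1) / ((i : ℂ) + 1) - 1 / (1 - ζ))) atTop (𝓝 0) := by
        simpa using h2.const_mul (m ζ : ℂ)
      refine squeeze_zero_norm (fun j => le_of_eq ?_) (tendsto_norm_zero.comp h3)
      simp only [Function.comp]
      have hr : ‖((ρ : ℂ) / ζ) ^ j‖ = 1 := by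
        rw [norm_pow, norm_div, hn, Complex.norm_real, Real.norm_of_nonneg hρ0.le,
          div_self hρ0.ne', one_pow]
      have e : (m ζ : ℂ) * ((j : ℂ) * (ρ : ℂ) ^ j *
          ∑ i ∈ Finset.range j, (ζ⁻¹) ^ (i + 1) / ((i : ℂ) + 1)) -
          (m ζ : ℂ) / (1 - ζ) * ((ρ : ℂ) / ζ) ^ j =
          ((ρ : ℂ) / ζ) ^ j * ((m ζ : ℂ) * ((j : ℂ) * ζ ^ j *
          ∑ i ∈ Finset.range j, (ζ⁻¹) ^ (i + 1) / ((i : ℂ) + 1) - 1 / (1 - ζ))) := by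
        have e1 : (ρ : ℂ) ^ j = ((ρ : ℂ) / ζ) ^ j * ζ ^ j := by
          rw [← mul_pow, div_mul_cancel₀ _ h0]
        rw [e1]
        ring
      rw [e, norm_mul, hr, one_mul]
    · simp only [if_neg hn, sub_zero]
      have hlt : ρ < ‖ζ‖ := lt_of_le_of_ne (hmin ζ hζ) (Ne.symm hn)
      simpa using (subdom hρ0 hρ1 hlt).const_mul (m ζ : ℂ)
  have hall := (hA.add hZ).add hU
  simp only [Finset.sum_const_zero, add_zero] at hall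
  refine hall.congr fun j => ?_
  rw [data_sum h j, TT, Finset.sum_filter, Finset.sum_sub_distrib, mul_add, mul_add]
  have : ∑ ζ ∈ Z, (m ζ : ℂ) * ((j : ℂ) * (ρ : ℂ) ^ j *
      ∑ i ∈ Finset.range j, (ζ⁻¹) ^ (i + 1) / ((i : ℂ) + 1)) =
      (j : ℂ) * (ρ : ℂ) ^ j * ∑ ζ ∈ Z, ((m ζ : ℂ) *
      ∑ i ∈ Finset.range j, (ζ⁻¹) ^ (i + 1) / ((i : ℂ) + 1)) := by
    rw [Finset.mul_sum]
    exact Finset.sum_congr rfl fun ζ _ => by ring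
  rw [this]
  ring

private lemma TT_eq (Z : Finset ℂ) (m : ℂ → ℕ) (ρ : ℝ) (hρ0 : 0 < ρ) (hZ0 : ∀ ζ ∈ Z, ζ ≠ 0)
    (j : ℕ) : ∑ v ∈ (Z.filter (fun ζ => ‖ζ‖ = ρ)).image (fun ζ => (ρ : ℂ) / ζ),
      ((m ((ρ : ℂ) / v) : ℂ) / (1 - (ρ : ℂ) / v)) * v ^ j = TT Z m ρ j := by
  have hρC : (ρ : ℂ) ≠ 0 := by exact_mod_cast hρ0.ne'
  rw [Finset.sum_image, TT]
  · refine Finset.sum_congr rfl fun ζ hζ => ?_
    have h0 := hZ0 ζ (Finset.mem_filter.1 hζ).1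
    have e : (ρ : ℂ) / ((ρ : ℂ) / ζ) = ζ := by
      field_simp
    rw [e]
  · intro x hx y hy hxy
    have hx0 := hZ0 x (Finset.mem_filter.1 hx).1
    have hy0 := hZ0 y (Finset.mem_filter.1 hy).1
    simp only at hxy
    rw [div_eq_div_iff hx0 hy0] at hxy
    exact (mul_left_cancel₀ hρC hxy).symm

private lemma re_lim {M : ℕ → ℝ} {Z : Finset ℂ} {m : ℂ → ℕ} {u : ℕ → ℂ} {q C : ℝ}
    (h : Data M Z m u q C) {ρ : ℝ} (hρ1 : ρ < 1) (hρ0 : 0 < ρ) (hmin : ∀ ζ ∈ Z, ρ ≤ ‖ζ‖) :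
    Tendsto (fun j : ℕ => (j : ℝ) * ρ ^ j * M j - (TT Z m ρ j).re) atTop (𝓝 0) ∧
      Tendsto (fun j : ℕ => (TT Z m ρ j).im) atTop (𝓝 0) := by
  have h1 := main_lim h hρ1 hρ0 hmin
  have e : ∀ j : ℕ, (j : ℂ) * (ρ : ℂ) ^ j * (M j : ℂ) = (((j : ℝ) * ρ ^ j * M j : ℝ) : ℂ) := by
    intro j; push_cast; ring
  constructor
  · have h2 := (Complex.continuous_re.tendsto 0).comp h1
    simp only [Complex.zero_re] at h2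
    refine h2.congr fun j => ?_
    simp only [Function.comp]
    rw [e, Complex.sub_re, Complex.ofReal_re]
  · have h2 := ((Complex.continuous_im.tendsto 0).comp h1).neg
    simp only [Complex.zero_im, neg_zero] at h2
    refine h2.congr fun j => ?_
    simp only [Function.comp]
    rw [e, Complex.sub_im, Complex.ofReal_im]
    ring

private lemma coef_ne {Z : Finset ℂ} {m : ℂ → ℕ} {ρ : ℝ} (hρ0 : 0 < ρ) (hρ1 : ρ < 1)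
    (hZ0 : ∀ ζ ∈ Z, ζ ≠ 0) (hm : ∀ ζ ∈ Z, 1 ≤ m ζ) (v : ℂ)
    (hv : v ∈ (Z.filter (fun ζ => ‖ζ‖ = ρ)).image (fun ζ => (ρ : ℂ) / ζ)) :
    ‖v‖ = 1 ∧ ((m ((ρ : ℂ) / v) : ℂ) / (1 - (ρ : ℂ) / v)) ≠ 0 := by
  have hρC : (ρ : ℂ) ≠ 0 := by exact_mod_cast hρ0.ne'
  obtain ⟨ζ, hζ, rfl⟩ := Finset.mem_image.1 hv
  obtain ⟨hζZ, hn⟩ := Finset.mem_filter.1 hζ
  have h0 := hZ0 ζ hζZ
  have e : (ρ : ℂ) / ((ρ : ℂ) / ζ) = ζ := by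
    field_simp
  refine ⟨?_, ?_⟩
  · rw [norm_div, hn, Complex.norm_real, Real.norm_of_nonneg hρ0.le, div_self hρ0.ne']
  · rw [e]
    refine div_ne_zero (Nat.cast_ne_zero.2 (by have := hm ζ hζZ; omega)) ?_
    intro h1
    have h2 : ζ = 1 := (sub_eq_zero.1 h1).symm
    rw [h2, norm_one] at hn
    linarith

private lemma rho_pos {Z : Finset ℂ} {ρ : ℝ} (hZ0 : ∀ ζ ∈ Z, ζ ≠ 0)
    (hρ : ∃ ζ ∈ Z, ‖ζ‖ = ρ) : 0 < ρ := by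
  obtain ⟨ζ, hζ, rfl⟩ := hρ
  exact norm_pos_iff.2 (hZ0 ζ hζ)

private lemma img_nonempty {Z : Finset ℂ} {ρ : ℝ} (hρ : ∃ ζ ∈ Z, ‖ζ‖ = ρ) :
    ((Z.filter (fun ζ => ‖ζ‖ = ρ)).image (fun ζ => (ρ : ℂ) / ζ)).Nonempty := by
  obtain ⟨ζ, hζ, hn⟩ := hρ
  exact ⟨(ρ : ℂ) / ζ, Finset.mem_image_of_mem _ (Finset.mem_filter.2 ⟨hζ, hn⟩)⟩

theorem caseI_lower {M : ℕ → ℝ} {Z : Finset ℂ} {m : ℂ → ℕ} {u : ℕ → ℂ} {q C : ℝ} (h : Data M Z m u q C)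
    {ρ : ℝ} (hρ1 : ρ < 1) (hρ : ∃ ζ ∈ Z, ‖ζ‖ = ρ) (hmin : ∀ ζ ∈ Z, ρ ≤ ‖ζ‖) :
    ∃ (N : ℕ) (η : ℝ), 0 < η ∧ ∀ᶠ J : ℕ in atTop, ∃ j : ℕ, J ≤ j ∧ j < J + N ∧
      η * (ρ⁻¹) ^ j / j ≤ M j := by
  have hρ0 : 0 < ρ := rho_pos h.hZ0 hρ
  have hρC : (ρ : ℂ) ≠ 0 := by exact_mod_cast hρ0.ne'
  obtain ⟨hre, him⟩ := re_lim h hρ1 hρ0 hmin
  obtain ⟨N, η, hη, hN⟩ := osc ((Z.filter (fun ζ => ‖ζ‖ = ρ)).image (fun ζ => (ρ : ℂ) / ζ))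
    (fun v => (m ((ρ : ℂ) / v) : ℂ) / (1 - (ρ : ℂ) / v))
    (fun v hv => (coef_ne hρ0 hρ1 h.hZ0 h.hm v hv).1)
    (fun v hv => (coef_ne hρ0 hρ1 h.hZ0 h.hm v hv).2)
    (img_nonempty hρ)
    (fun h1 => by
      obtain ⟨ζ, hζ, hζ1⟩ := Finset.mem_image.1 h1
      obtain ⟨hζZ, hn⟩ := Finset.mem_filter.1 hζ
      have h0 := h.hZ0 ζ hζZ
      have h2 : (ρ : ℂ) = ζ := by
        have := (div_eq_one_iff_eq h0).1 hζ1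
        exact this
      have h3 : 1 ≤ m (ρ : ℂ) := by rw [h2]; exact h.hm ζ hζZ
      show 0 < ((m ((ρ : ℂ) / 1) : ℂ) / (1 - (ρ : ℂ) / 1)).re
      rw [div_one]
      have e : ((m (ρ : ℂ) : ℂ) / (1 - (ρ : ℂ))) = (((m (ρ : ℂ) : ℝ) / (1 - ρ) : ℝ) : ℂ) := by
        push_cast; ring
      rw [e, Complex.ofReal_re]
      have h4 : (0 : ℝ) < m (ρ : ℂ) := by exact_mod_cast h3
      exact div_pos h4 (by linarith))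
    (by
      refine him.congr fun j => ?_
      rw [← TT_eq Z m ρ hρ0 h.hZ0 j])
  refine ⟨N, η / 2, by positivity, ?_⟩
  have hev : ∀ᶠ J : ℕ in atTop, ∀ j : ℕ, J ≤ j →
      |(j : ℝ) * ρ ^ j * M j - (TT Z m ρ j).re| < η / 2 := by
    have h1 : ∀ᶠ j : ℕ in atTop, |(j : ℝ) * ρ ^ j * M j - (TT Z m ρ j).re| < η / 2 := by
      have := (Metric.tendsto_atTop.1 hre) (η / 2) (by positivity)
      obtain ⟨J0, hJ0⟩ := this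
      filter_upwards [eventually_ge_atTop J0] with j hj
      have := hJ0 j hj
      rwa [Real.dist_eq, sub_zero] at this
    obtain ⟨J0, hJ0⟩ := eventually_atTop.1 h1
    filter_upwards [eventually_ge_atTop J0] with J hJ j hj
    exact hJ0 j (hJ.trans hj)
  filter_upwards [hN, hev, eventually_ge_atTop 1] with J hJ hJ2 hJ1
  obtain ⟨j, hj1, hj2, hj3⟩ := hJ
  refine ⟨j, hj1, hj2, ?_⟩
  rw [TT_eq Z m ρ hρ0 h.hZ0 j] at hj3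
  have h5 := (abs_lt.1 (hJ2 j hj1)).1
  have h6 : η / 2 ≤ (j : ℝ) * ρ ^ j * M j := by linarith
  have hjpos : (0 : ℝ) < j := by exact_mod_cast (by omega : 0 < j)
  have hpw : (0 : ℝ) < ρ ^ j := by positivity
  rw [inv_pow, mul_div_assoc, inv_eq_one_div, div_div, mul_one_div, div_le_iff₀ (by positivity)]
  calc η / 2 ≤ (j : ℝ) * ρ ^ j * M j := h6
    _ = M j * (ρ ^ j * j) := by ring

theorem caseI_upper {M : ℕ → ℝ} {Z : Finset ℂ} {m : ℂ → ℕ} {u : ℕ → ℂ} {q C : ℝ} (h : Data M Z m u q C)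
    {ρ : ℝ} (hρ1 : ρ < 1) (hρ : ∃ ζ ∈ Z, ‖ζ‖ = ρ) (hmin : ∀ ζ ∈ Z, ρ ≤ ‖ζ‖) (hreal : (ρ : ℂ) ∉ Z) :
    ∃ (N : ℕ) (η : ℝ), 0 < η ∧ ∀ᶠ J : ℕ in atTop, ∃ j : ℕ, J ≤ j ∧ j < J + N ∧
      M j ≤ -(η * (ρ⁻¹) ^ j / j) := by
  have hρ0 : 0 < ρ := rho_pos h.hZ0 hρ
  obtain ⟨hre, him⟩ := re_lim h hρ1 hρ0 hmin
  have eneg : ∀ j : ℕ, ∑ v ∈ (Z.filter (fun ζ => ‖ζ‖ = ρ)).image (fun ζ => (ρ : ℂ) / ζ),
      (-((m ((ρ : ℂ) / v) : ℂ) / (1 - (ρ : ℂ) / v))) * v ^ j = -TT Z m ρ j := by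
    intro j
    rw [← TT_eq Z m ρ hρ0 h.hZ0 j, ← Finset.sum_neg_distrib]
    exact Finset.sum_congr rfl fun v _ => by ring
  obtain ⟨N, η, hη, hN⟩ := osc ((Z.filter (fun ζ => ‖ζ‖ = ρ)).image (fun ζ => (ρ : ℂ) / ζ))
    (fun v => -((m ((ρ : ℂ) / v) : ℂ) / (1 - (ρ : ℂ) / v)))
    (fun v hv => (coef_ne hρ0 hρ1 h.hZ0 h.hm v hv).1)
    (fun v hv => neg_ne_zero.2 (coef_ne hρ0 hρ1 h.hZ0 h.hm v hv).2)
    (img_nonempty hρ)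
    (fun h1 => by
      obtain ⟨ζ, hζ, hζ1⟩ := Finset.mem_image.1 h1
      obtain ⟨hζZ, hn⟩ := Finset.mem_filter.1 hζ
      have h0 := h.hZ0 ζ hζZ
      have h2 : (ρ : ℂ) = ζ := (div_eq_one_iff_eq h0).1 hζ1
      exact absurd (h2 ▸ hζZ) hreal)
    (by
      have h1 : Tendsto (fun j : ℕ => -(TT Z m ρ j).im) atTop (𝓝 0) := by simpa using him.neg
      refine h1.congr fun j => ?_
      rw [eneg j, Complex.neg_im])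
  refine ⟨N, η / 2, by positivity, ?_⟩
  have hev : ∀ᶠ J : ℕ in atTop, ∀ j : ℕ, J ≤ j →
      |(j : ℝ) * ρ ^ j * M j - (TT Z m ρ j).re| < η / 2 := by
    have h1 : ∀ᶠ j : ℕ in atTop, |(j : ℝ) * ρ ^ j * M j - (TT Z m ρ j).re| < η / 2 := by
      have := (Metric.tendsto_atTop.1 hre) (η / 2) (by positivity)
      obtain ⟨J0, hJ0⟩ := this
      filter_upwards [eventually_ge_atTop J0] with j hj
      have := hJ0 j hj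
      rwa [Real.dist_eq, sub_zero] at this
    obtain ⟨J0, hJ0⟩ := eventually_atTop.1 h1
    filter_upwards [eventually_ge_atTop J0] with J hJ j hj
    exact hJ0 j (hJ.trans hj)
  filter_upwards [hN, hev, eventually_ge_atTop 1] with J hJ hJ2 hJ1
  obtain ⟨j, hj1, hj2, hj3⟩ := hJ
  refine ⟨j, hj1, hj2, ?_⟩
  rw [eneg j, Complex.neg_re] at hj3
  have h5 := (abs_lt.1 (hJ2 j hj1)).2
  have h6 : η / 2 ≤ -((j : ℝ) * ρ ^ j * M j) := by linarith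
  have hjpos : (0 : ℝ) < j := by exact_mod_cast (by omega : 0 < j)
  have hpw : (0 : ℝ) < ρ ^ j := by positivity
  rw [le_neg, inv_pow, mul_div_assoc, inv_eq_one_div, div_div, mul_one_div,
    div_le_iff₀ (by positivity)]
  calc η / 2 ≤ -((j : ℝ) * ρ ^ j * M j) := h6
    _ = -M j * (ρ ^ j * j) := by ring

end Pool.Agent.Helper7.GW
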