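import Mathlib

/-!
# GW-12: for large `w` the real zeros are not the nearest ones

`G` is holomorphic in `Re s > -η`, not identically zero, without real zeros `> a`. If there is no real zero `β > 0`, nothing to do (`W1 = 0`). Otherwise the zeros
of `G` in the compact set `[0, a]` are finitely many (isolated zeros), let `β*` be the largest positive one, and `s0` a zero with
`Re s0 > β*` (hypothesis). For `0 < β ≤ β*` and `w ≥ W1 := |s0|²/(Re s0 - β*) + a + 1`: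
`‖s0 - w‖² = w² - 2 w Re s0 + |s0|² < w² - 2 w β* + β*² = (w - β*)² ≤ (w - β)²` because `2 w (Re s0 - β*) > |s0|²`.
-/

namespace Pool.Agent.Helper7.GW

open Filter Topology

theorem exists_WH {G : ℂ → ℂ} {η : ℝ} (hη : 0 < η) (hG : DifferentiableOn ℂ G {s : ℂ | -η < s.re}) {a : ℝ}
    (ha : ∀ x : ℝ, a < x → G x ≠ 0)
    (hH : ∀ β : ℝ, 0 < β → G β = 0 → ∃ s : ℂ, β < s.re ∧ G s = 0) :
    ∃ W1 : ℝ, ∀ w : ℝ, W1 ≤ w → ∀ β : ℝ, 0 < β → G β = 0 → ∃ s : ℂ, G s = 0 ∧ ‖s - w‖ < w - β := by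
  by_cases hex : ∃ β : ℝ, 0 < β ∧ G β = 0
  · obtain ⟨β₀, hβ₀, hβ₀'⟩ := hex
    have hβ₀a : β₀ ≤ a := by
      by_contra h
      exact ha β₀ (not_le.1 h) hβ₀'
    have hcont : ContinuousOn (fun x : ℝ => G x) (Set.Icc β₀ a) := by
      refine hG.continuousOn.comp Complex.continuous_ofReal.continuousOn ?_
      intro x hx
      show -η < ((x : ℝ) : ℂ).re
      rw [Complex.ofReal_re]
      linarith [hx.1]
    have hclosed : IsClosed (Set.Icc β₀ a ∩ (fun x : ℝ => G x) ⁻¹' {0}) :=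
      hcont.preimage_isClosed_of_isClosed isClosed_Icc isClosed_singleton
    have hcomp : IsCompact (Set.Icc β₀ a ∩ (fun x : ℝ => G x) ⁻¹' {0}) :=
      isCompact_Icc.of_isClosed_subset hclosed Set.inter_subset_left
    obtain ⟨βs, hβs⟩ := hcomp.exists_isGreatest ⟨β₀, ⟨le_rfl, hβ₀a⟩, hβ₀'⟩
    obtain ⟨⟨⟨h1, h2⟩, h3⟩, h4⟩ := hβs
    have h3' : G βs = 0 := h3
    have hβs0 : 0 < βs := lt_of_lt_of_le hβ₀ h1
    obtain ⟨s₀, hs₀, hs₀'⟩ := hH βs hβs0 h3'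
    have hδ : 0 < s₀.re - βs := sub_pos.2 hs₀
    have ha0 : 0 < a := lt_of_lt_of_le hβ₀ hβ₀a
    refine ⟨‖s₀‖ ^ 2 / (s₀.re - βs) + a + 1, ?_⟩
    intro w hw β hβ hβ'
    have hβle : β ≤ βs := by
      rcases lt_or_ge β β₀ with h | h
      · exact h.le.trans h1
      · refine h4 ⟨⟨h, ?_⟩, hβ'⟩
        by_contra h5
        exact ha β (not_le.1 h5) hβ'
    refine ⟨s₀, hs₀', ?_⟩
    have hq : 0 ≤ ‖s₀‖ ^ 2 / (s₀.re - βs) := by positivity
    have hwβ : 0 < w - βs := by linarith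
    have hww : ‖s₀‖ ^ 2 < w * (s₀.re - βs) := by
      have h5 : ‖s₀‖ ^ 2 = ‖s₀‖ ^ 2 / (s₀.re - βs) * (s₀.re - βs) := by
        field_simp
      rw [h5]
      exact mul_lt_mul_of_pos_right (by linarith) hδ
    have hnorm : ‖s₀‖ ^ 2 = s₀.re ^ 2 + s₀.im ^ 2 := by
      rw [Complex.sq_norm, Complex.normSq_apply]
      ring
    have hdist : ‖s₀ - w‖ ^ 2 = (s₀.re - w) ^ 2 + s₀.im ^ 2 := by
      rw [Complex.sq_norm, Complex.normSq_apply, Complex.sub_re, Complex.sub_im,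
        Complex.ofReal_re, Complex.ofReal_im]
      ring
    have hlt : ‖s₀ - w‖ ^ 2 < (w - βs) ^ 2 := by
      rw [hdist]
      nlinarith [sq_nonneg βs, sq_nonneg s₀.re, sq_nonneg s₀.im]
    have h6 : ‖s₀ - w‖ < w - βs := lt_of_pow_lt_pow_left₀ 2 hwβ.le hlt
    linarith
  · exact ⟨0, fun w _ β hβ hβ' => absurd ⟨β, hβ, hβ'⟩ hex⟩

/-- a zero `s` with `Re s = θ > 0` is at distance `< w` of `w`, quantitatively. -/
theorem dist_bound {s : ℂ} {w : ℝ} (hw : 0 < w) (hs : 0 < ‖s - w‖) (hlt : ‖s - w‖ < w) (j : ℕ) :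
    Real.exp ((j / w) * (s.re - ‖s‖ ^ 2 / (2 * w))) ≤ (w / ‖s - w‖) ^ j := by
  -- `‖s - w‖²/w² = 1 - 2 Re s/w + |s|²/w² ≤ exp(-(2 Re s/w - |s|²/w²))`
  have hnorm : ‖s‖ ^ 2 = s.re ^ 2 + s.im ^ 2 := by
    rw [Complex.sq_norm, Complex.normSq_apply]
    ring
  have hdist : ‖s - w‖ ^ 2 = (s.re - w) ^ 2 + s.im ^ 2 := by
    rw [Complex.sq_norm, Complex.normSq_apply, Complex.sub_re, Complex.sub_im,
      Complex.ofReal_re, Complex.ofReal_im]
    ring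
  obtain ⟨X, hX⟩ : ∃ X : ℝ, X = (s.re - ‖s‖ ^ 2 / (2 * w)) / w := ⟨_, rfl⟩
  have h1 : ‖s - w‖ ^ 2 / w ^ 2 = 1 - 2 * X := by
    rw [hX, hdist, hnorm]
    field_simp
    ring
  have h2 : ‖s - w‖ ^ 2 / w ^ 2 ≤ Real.exp (-(2 * X)) := by
    rw [h1]
    have := Real.add_one_le_exp (-(2 * X))
    linarith
  have h3 : Real.exp X ≤ w / ‖s - w‖ := by
    refine le_of_pow_le_pow_left₀ two_ne_zero (by positivity) ?_
    rw [div_pow, ← Real.exp_nat_mul, le_div_iff₀ (by positivity)]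
    rw [div_le_iff₀ (by positivity)] at h2
    have h4 : Real.exp (((2 : ℕ) : ℝ) * X) * ‖s - w‖ ^ 2 ≤
        Real.exp (((2 : ℕ) : ℝ) * X) * (Real.exp (-(2 * X)) * w ^ 2) :=
      mul_le_mul_of_nonneg_left h2 (Real.exp_pos _).le
    refine h4.trans (le_of_eq ?_)
    rw [← mul_assoc, ← Real.exp_add]
    have : ((2 : ℕ) : ℝ) * X + -(2 * X) = 0 := by push_cast; ring
    rw [this, Real.exp_zero, one_mul]
  have h5 : (j / w) * (s.re - ‖s‖ ^ 2 / (2 * w)) = (j : ℝ) * X := by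
    rw [hX]
    ring
  rw [h5, Real.exp_nat_mul]
  exact pow_le_pow_left₀ (Real.exp_pos _).le h3 j

end Pool.Agent.Helper7.GW
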