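import Pool.Agent.Helper7.GW.AbsII
import Pool.Agent.Helper7.GW.CaseI
import Pool.Agent.Helper7.GW.WH

/-!
# GW-14: the Gamma means when there is a zero in the open disk

`setup_data` and `ρ = min_{ζ∈Z} ‖ζ‖ < 1` (there is `ζ = 1 - s/w ∈ Z`, `‖ζ‖ = ‖s-w‖/w < 1`), `0 < ρ` as `0 ∉ Z`; `ρ ≤ ‖s - w‖/w` for
every zero `s` with `‖s - w‖ ≤ w`. `caseI_lower`. For the upper bound: `(ρ : ℂ) ∉ Z`, because `ρ ∈ Z` gives the real zero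
`β = w(1-ρ) > 0`, and `hW` a zero `s'` with `‖s' - w‖ < w - β = wρ`, so `1 - s'/w ∈ Z` has modulus `< ρ`, contradiction.
-/

namespace Pool.Agent.Helper7.GW

open MeasureTheory Set Filter Topology

private theorem ai_setup {v : ℝ → ℝ} {G : ℂ → ℂ} {A a η₀ w : ℝ} (h : Setup v G A a η₀) (haw : a < w)
    {s : ℂ} (hs : G s = 0) (hsw : ‖s - w‖ < w) :
    ∃ (Z : Finset ℂ) (m : ℂ → ℕ) (u : ℕ → ℂ) (q C ρ : ℝ), Data (gm v w) Z m u q C ∧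
      (∀ ζ, ζ ∈ Z ↔ (‖ζ‖ ≤ 1 ∧ G (w * (1 - ζ)) = 0)) ∧ 0 < ρ ∧ ρ < 1 ∧ (∃ ζ ∈ Z, ‖ζ‖ = ρ) ∧
      (∀ ζ ∈ Z, ρ ≤ ‖ζ‖) ∧ (∀ s' : ℂ, G s' = 0 → ‖s' - w‖ < w → ρ ≤ ‖s' - w‖ / w) := by
  obtain ⟨Z, m, u, q, C, hD, hZ⟩ := setup_data h haw
  have hw : 0 < w := h.grow.ha.trans_lt haw
  have hwc : (w : ℂ) ≠ 0 := Complex.ofReal_ne_zero.2 hw.ne'
  have hnorm : ∀ s' : ℂ, ‖1 - s' / w‖ = ‖s' - w‖ / w := by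
    intro s'
    have h1 : 1 - s' / w = -(s' - w) / w := by field_simp; ring
    rw [h1, norm_div, norm_neg, Complex.norm_real, Real.norm_of_nonneg hw.le]
  have hmem : ∀ s' : ℂ, G s' = 0 → ‖s' - w‖ < w → (1 - s' / w) ∈ Z := by
    intro s' hs' hs'w
    rw [hZ, hnorm]
    refine ⟨(div_le_one hw).2 hs'w.le, ?_⟩
    have h1 : (w : ℂ) * (1 - (1 - s' / w)) = s' := by field_simp; ring
    rw [h1, hs']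
  have h0 := hmem s hs hsw
  obtain ⟨ζm, hζm, hmin⟩ := Finset.exists_min_image Z (fun ζ => ‖ζ‖) ⟨_, h0⟩
  refine ⟨Z, m, u, q, C, ‖ζm‖, hD, hZ, norm_pos_iff.2 (hD.hZ0 ζm hζm), ?_, ⟨ζm, hζm, rfl⟩, hmin, ?_⟩
  · have h1 := hmin _ h0
    simp only [hnorm] at h1
    exact h1.trans_lt ((div_lt_one hw).2 hsw)
  · intro s' hs' hs'w
    have h1 := hmin _ (hmem s' hs' hs'w)
    simp only [hnorm] at h1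
    exact h1

theorem gm_big {v : ℝ → ℝ} {G : ℂ → ℂ} {A a η₀ w : ℝ} (h : Setup v G A a η₀) (haw : a < w)
    {s : ℂ} (hs : G s = 0) (hsw : ‖s - w‖ < w) :
    ∃ (N : ℕ) (η ρ : ℝ), 0 < η ∧ 0 < ρ ∧ ρ < 1 ∧ (∀ s' : ℂ, G s' = 0 → ‖s' - w‖ < w → ρ ≤ ‖s' - w‖ / w) ∧
      ∀ᶠ J : ℕ in atTop, ∃ j : ℕ, J ≤ j ∧ j < J + N ∧ η * (ρ⁻¹) ^ j / j ≤ gm v w j := by
  obtain ⟨Z, m, u, q, C, ρ, hD, hZ, hρ0, hρ1, hρ, hmin, hs'⟩ := ai_setup h haw hs hsw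
  obtain ⟨N, η, hη, hev⟩ := caseI_lower hD hρ1 hρ hmin
  exact ⟨N, η, ρ, hη, hρ0, hρ1, hs', hev⟩

theorem gm_small {v : ℝ → ℝ} {G : ℂ → ℂ} {A a η₀ w : ℝ} (h : Setup v G A a η₀) (haw : a < w)
    {s : ℂ} (hs : G s = 0) (hsw : ‖s - w‖ < w)
    (hW : ∀ β : ℝ, 0 < β → G β = 0 → ∃ s' : ℂ, G s' = 0 ∧ ‖s' - w‖ < w - β) :
    ∃ (N : ℕ) (η ρ : ℝ), 0 < η ∧ 0 < ρ ∧ ρ < 1 ∧ (∀ s' : ℂ, G s' = 0 → ‖s' - w‖ < w → ρ ≤ ‖s' - w‖ / w) ∧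
      ∀ᶠ J : ℕ in atTop, ∃ j : ℕ, J ≤ j ∧ j < J + N ∧ gm v w j ≤ -(η * (ρ⁻¹) ^ j / j) := by
  obtain ⟨Z, m, u, q, C, ρ, hD, hZ, hρ0, hρ1, hρ, hmin, hs'⟩ := ai_setup h haw hs hsw
  have hw : 0 < w := h.grow.ha.trans_lt haw
  have hreal : (ρ : ℂ) ∉ Z := by
    intro hmem
    have h1 := ((hZ _).1 hmem).2
    have h2 : (w : ℂ) * (1 - (ρ : ℂ)) = ((w * (1 - ρ) : ℝ) : ℂ) := by push_cast; ring
    rw [h2] at h1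
    obtain ⟨s', hs1, hs2⟩ := hW (w * (1 - ρ)) (mul_pos hw (by linarith)) h1
    have h3 : ‖s' - w‖ < w * ρ := by
      calc ‖s' - w‖ < w - w * (1 - ρ) := hs2
        _ = w * ρ := by ring
    have h4 : w * ρ < w := by nlinarith
    have h5 := hs' s' hs1 (h3.trans h4)
    rw [le_div_iff₀ hw] at h5
    linarith
  obtain ⟨N, η, hη, hev⟩ := caseI_upper hD hρ1 hρ hmin hreal
  exact ⟨N, η, ρ, hη, hρ0, hρ1, hs', hev⟩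

end Pool.Agent.Helper7.GW
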