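import Pool.Agent.Helper7.GW.Defs
import Pool.Agent.Helper7.GW.Tannery

/-!
# GW-09: no zero in the open disk

All `ζ ∈ Z` have modulus one. Sum the recursion: `M_j = M_0 + ∑_{i<j} (1/(i+1)) (∑_ζ m_ζ ζ^{-(i+1)} + u_i)`; the term `ζ = 1` (if `1 ∈ Z`)
gives `m_1 H_j` (`harmonic`), the others converge (`circle_part`), the `u` part converges (`small_part`). The limit is real
because the sequence is.
-/

namespace Pool.Agent.Helper7.GW

open MeasureTheory Set Filter Topology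

open Classical in
theorem caseII {M : ℕ → ℝ} {Z : Finset ℂ} {m : ℂ → ℕ} {u : ℕ → ℂ} {q C : ℝ} (h : Data M Z m u q C)
    (hZ : ∀ ζ ∈ Z, ‖ζ‖ = 1) :
    ∃ L : ℝ, Tendsto (fun j : ℕ => M j - (if (1 : ℂ) ∈ Z then m 1 else 0 : ℕ) * ((harmonic j : ℚ) : ℝ)) atTop (𝓝 L) := by
  set S : ℂ → ℕ → ℂ := fun ζ j => ∑ i ∈ Finset.range j, (ζ⁻¹) ^ (i + 1) / ((i : ℂ) + 1) with hS
  set U : ℕ → ℂ := fun j => ∑ i ∈ Finset.range j, u i / ((i : ℂ) + 1) with hU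
  -- the sum of the recursion
  have hM : ∀ j : ℕ, (M j : ℂ) = M 0 + (∑ ζ ∈ Z, (m ζ : ℂ) * S ζ j) + U j := by
    intro j
    induction j with
    | zero => simp [hS, hU]
    | succ j ih =>
      have h1 := h.hrec j
      have h2 : ((j : ℂ) + 1) ≠ 0 := Nat.cast_add_one_ne_zero j
      have h3 : (M (j + 1) : ℂ) = M j +
          (∑ ζ ∈ Z, (m ζ : ℂ) * (ζ⁻¹) ^ (j + 1) + u j) / ((j : ℂ) + 1) := by
        rw [← h1]
        field_simp
        ring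
      have h4 : ∀ ζ, S ζ (j + 1) = S ζ j + (ζ⁻¹) ^ (j + 1) / ((j : ℂ) + 1) := fun ζ =>
        Finset.sum_range_succ _ _
      have h5 : U (j + 1) = U j + u j / ((j : ℂ) + 1) := Finset.sum_range_succ _ _
      have h6 : ∑ ζ ∈ Z, (m ζ : ℂ) * S ζ (j + 1) = ∑ ζ ∈ Z, (m ζ : ℂ) * S ζ j +
          (∑ ζ ∈ Z, (m ζ : ℂ) * (ζ⁻¹) ^ (j + 1)) / ((j : ℂ) + 1) := by
        rw [Finset.sum_div, ← Finset.sum_add_distrib]
        refine Finset.sum_congr rfl fun ζ _ => ?_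
        rw [h4]
        ring
      rw [h3, ih, h6, h5]
      ring
  obtain ⟨lu, hlu⟩ := small_part h.hq0 h.hq1 h.hu
  have hlim : ∃ l : ℂ, Tendsto (fun j => ∑ ζ ∈ Z.erase 1, (m ζ : ℂ) * S ζ j) atTop (𝓝 l) := by
    have h1 : ∀ ζ : ℂ, ∃ l : ℂ, ζ ∈ Z.erase 1 → Tendsto (S ζ) atTop (𝓝 l) := by
      intro ζ
      by_cases hζ : ζ ∈ Z.erase 1
      · obtain ⟨l, hl⟩ := circle_part (hZ ζ (Finset.mem_of_mem_erase hζ))
          (Finset.ne_of_mem_erase hζ)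
        exact ⟨l, fun _ => hl⟩
      · exact ⟨0, fun h => absurd h hζ⟩
    choose l hl using h1
    exact ⟨∑ ζ ∈ Z.erase 1, (m ζ : ℂ) * l ζ,
      tendsto_finsetSum _ fun ζ hζ => (hl ζ hζ).const_mul _⟩
  obtain ⟨l, hl⟩ := hlim
  have hS1 : ∀ j, S 1 j = (((harmonic j : ℚ) : ℝ) : ℂ) := by
    intro j
    simp only [hS, harmonic]
    push_cast
    refine Finset.sum_congr rfl fun i _ => ?_
    simp
  have hkey : ∀ j, (((M j - (if (1 : ℂ) ∈ Z then m 1 else 0 : ℕ) * ((harmonic j : ℚ) : ℝ) : ℝ)) : ℂ) =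
      M 0 + (∑ ζ ∈ Z.erase 1, (m ζ : ℂ) * S ζ j) + U j := by
    intro j
    rw [Complex.ofReal_sub, hM j, Complex.ofReal_mul, ← hS1, Complex.ofReal_natCast]
    by_cases h1 : (1 : ℂ) ∈ Z
    · rw [if_pos h1, ← Finset.add_sum_erase Z _ h1]
      ring
    · rw [if_neg h1, Finset.erase_eq_of_notMem h1]
      simp
  have ht : Tendsto (fun j : ℕ =>
      (((M j - (if (1 : ℂ) ∈ Z then m 1 else 0 : ℕ) * ((harmonic j : ℚ) : ℝ) : ℝ)) : ℂ)) atTop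
      (𝓝 (M 0 + l + lu)) := by
    simp only [hkey]
    exact (tendsto_const_nhds.add hl).add hlu
  refine ⟨(M 0 + l + lu : ℂ).re, ?_⟩
  have h2 := (Complex.continuous_re.tendsto _).comp ht
  refine h2.congr fun j => ?_
  exact Complex.ofReal_re _

end Pool.Agent.Helper7.GW
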