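import Pool.Agent.Helper7.GW.Defs

/-!
# GW-05: logarithmic derivative of the factorization

Let `h_0 = M_0`, `h_{j+1} = M_{j+1} - M_j`. For `‖z‖ < r0`: `(1 - z) S0(z) = ∑ h_j z^j =: S(z)` (Cauchy product with `1 - z`, or subtract the
shifted series), `exp(-S(z)) = B(z)`. Differentiate: `-S'(z) = B'(z)/B(z) = ∑_ζ m_ζ/(z-ζ) + U'(z)/U(z)` for small `z`
(`logDeriv_mul`, `logDeriv_prod`, `logDeriv_pow`; `0 ∉ Z` since `B 0 = exp(-M_0) ≠ 0`).
Coefficients: `S'(z) = ∑ (j+1) h_{j+1} z^j`, `-1/(z-ζ) = ∑ ζ^{-(j+1)} z^j` for `‖z‖ < ‖ζ‖`, and `-U'/U = ∑ u_j z^j` is analytic on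
`ball 0 R`, so `|u_j| ≤ C q^j` with `q = 2/(1+R) < 1` (power series with radius of convergence `≥ R`:
`HasFPowerSeriesOnBall`, `FormalMultilinearSeries.norm_mul_pow_le_of_lt_radius`, or Cauchy estimates; e.g.
`DifferentiableOn.hasFPowerSeriesOnBall`, `Complex.norm_iteratedDeriv_le...`). Uniqueness of power series
(`HasFPowerSeriesAt.eq_formalMultilinearSeries`) gives the recursion.
-/

namespace Pool.Agent.Helper7.GW

open MeasureTheory Set Filter Topology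

private lemma h86_coef {f : ℂ → ℂ} {c : ℕ → ℂ}
    (h : ∀ᶠ z in 𝓝 (0 : ℂ), HasSum (fun n => z ^ n * c n) (f z)) (n : ℕ) :
    AnalyticAt ℂ f 0 ∧ iteratedDeriv n f 0 = (n.factorial : ℂ) * c n := by
  have h1 : HasFPowerSeriesAt f (FormalMultilinearSeries.ofScalars ℂ c) 0 := by
    rw [hasFPowerSeriesAt_iff]
    filter_upwards [h] with z hz
    rw [zero_add]
    simpa [FormalMultilinearSeries.coeff_ofScalars] using hz
  refine ⟨h1.analyticAt, ?_⟩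
  obtain ⟨r, hr⟩ := h1
  have h2 := hr.factorial_smul (1 : ℂ) n
  rw [iteratedDeriv_eq_iteratedFDeriv, ← h2]
  have h3 : (FormalMultilinearSeries.ofScalars ℂ c n fun _ => (1 : ℂ)) = c n := by
    have := FormalMultilinearSeries.coeff_ofScalars (𝕜 := ℂ) (p := c) (n := n)
    rw [← this]
    rfl
  rw [h3, nsmul_eq_mul]

/-- the logarithmic derivative of the factorization -/
private lemma h86_log {B U : ℂ → ℂ} {Z : Finset ℂ} {m : ℂ → ℕ} {R : ℝ}
    (hU : DifferentiableOn ℂ U (Metric.ball 0 R)) (hU0 : ∀ z, ‖z‖ < R → U z ≠ 0)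
    (hB : ∀ z, ‖z‖ < R → B z = (∏ ζ ∈ Z, (z - ζ) ^ (m ζ)) * U z) {z : ℂ} (hz : ‖z‖ < R)
    (hzZ : ∀ ζ ∈ Z, z ≠ ζ) :
    -(deriv B z / B z) = ∑ ζ ∈ Z, (m ζ : ℂ) * (ζ - z)⁻¹ + -(deriv U z / U z) := by
  have hball : Metric.ball (0 : ℂ) R ∈ 𝓝 z :=
    Metric.isOpen_ball.mem_nhds (by rwa [mem_ball_zero_iff])
  have h1 : B =ᶠ[𝓝 z] fun z => (∏ ζ ∈ Z, (z - ζ) ^ (m ζ)) * U z := by
    filter_upwards [hball] with x hx
    exact hB x (by rwa [mem_ball_zero_iff] at hx)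
  have h2 : logDeriv B z = logDeriv (fun z => (∏ ζ ∈ Z, (z - ζ) ^ (m ζ)) * U z) z :=
    (logDeriv_congr_nhds h1).eq_of_nhds
  have hne : ∀ ζ ∈ Z, (z - ζ) ^ (m ζ) ≠ 0 := fun ζ hζ =>
    pow_ne_zero _ (sub_ne_zero.2 (hzZ ζ hζ))
  have hd : ∀ ζ ∈ Z, DifferentiableAt ℂ (fun z : ℂ => (z - ζ) ^ (m ζ)) z := fun ζ _ =>
    ((differentiableAt_id.sub_const ζ).pow _)
  have h3 : logDeriv (fun z => (∏ ζ ∈ Z, (z - ζ) ^ (m ζ)) * U z) z =
      logDeriv (fun z => ∏ ζ ∈ Z, (z - ζ) ^ (m ζ)) z + logDeriv U z := by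
    refine logDeriv_mul z (Finset.prod_ne_zero_iff.2 hne) (hU0 z hz) ?_
      (hU.differentiableAt hball)
    exact DifferentiableAt.fun_finsetProd hd
  have h4 : logDeriv (fun z => ∏ ζ ∈ Z, (z - ζ) ^ (m ζ)) z =
      ∑ ζ ∈ Z, logDeriv (fun z : ℂ => (z - ζ) ^ (m ζ)) z := logDeriv_prod hne hd
  have h5 : ∀ ζ ∈ Z, logDeriv (fun z : ℂ => (z - ζ) ^ (m ζ)) z = -((m ζ : ℂ) * (ζ - z)⁻¹) := by
    intro ζ _
    have h6 : logDeriv (fun z : ℂ => (z - ζ) ^ (m ζ)) z = (m ζ : ℂ) * logDeriv (fun z => z - ζ) z :=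
      logDeriv_fun_pow (differentiableAt_id.sub_const ζ) (m ζ)
    rw [h6, logDeriv_apply, deriv_sub_const, deriv_id'', one_div, ← mul_neg, ← inv_neg, neg_sub]
  rw [← logDeriv_apply B z, h2, h3, h4, Finset.sum_congr rfl h5, logDeriv_apply,
    Finset.sum_neg_distrib]
  ring

theorem exists_data {M : ℕ → ℝ} {B : ℂ → ℂ} {r0 : ℝ} (hr0 : 0 < r0)
    (hM : ∀ z : ℂ, ‖z‖ < r0 → ∃ S0 : ℂ, HasSum (fun j : ℕ => (M j : ℂ) * z ^ j) S0 ∧
      B z = Complex.exp (-((1 - z) * S0)))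
    {Z : Finset ℂ} {m : ℂ → ℕ} {U : ℂ → ℂ} {R : ℝ} (hR : 1 < R) (hZ : ∀ ζ, ζ ∈ Z ↔ (‖ζ‖ ≤ 1 ∧ B ζ = 0))
    (hm : ∀ ζ ∈ Z, 1 ≤ m ζ) (hU : DifferentiableOn ℂ U (Metric.ball 0 R)) (hU0 : ∀ z, ‖z‖ < R → U z ≠ 0)
    (hB : ∀ z, ‖z‖ < R → B z = (∏ ζ ∈ Z, (z - ζ) ^ (m ζ)) * U z) :
    ∃ (u : ℕ → ℂ) (q C : ℝ), Data M Z m u q C := by
  have hR0 : 0 < R := by linarith
  -- zero is not in Z
  have h0Z : ∀ ζ ∈ Z, ζ ≠ 0 := by
    rintro ζ hζ rfl
    obtain ⟨S0, -, h2⟩ := hM 0 (by rwa [norm_zero])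
    rw [((hZ 0).1 hζ).2] at h2
    exact Complex.exp_ne_zero _ h2.symm
  -- the series
  set T : ℂ → ℂ := fun z => ∑' j : ℕ, (M j : ℂ) * z ^ j with hT
  set S : ℂ → ℂ := fun z => (1 - z) * T z with hS
  set h : ℕ → ℂ := fun j => if j = 0 then (M 0 : ℂ) else (M j : ℂ) - (M (j - 1) : ℂ) with hh
  have hTs : ∀ z : ℂ, ‖z‖ < r0 → HasSum (fun j : ℕ => (M j : ℂ) * z ^ j) (T z) ∧
      B z = Complex.exp (-S z) := by
    intro z hz
    obtain ⟨S0, h1, h2⟩ := hM z hz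
    have h3 : T z = S0 := h1.tsum_eq
    rw [h3]
    exact ⟨h1, by rw [h2, hS]; simp only [h3]⟩
  have hSs : ∀ z : ℂ, ‖z‖ < r0 → HasSum (fun j : ℕ => z ^ j * h j) (S z) := by
    intro z hz
    obtain ⟨h1, -⟩ := hTs z hz
    have h2 : HasSum (fun j : ℕ => (if j = 0 then 0 else (M (j - 1) : ℂ)) * z ^ j) (z * T z) := by
      rw [← hasSum_nat_add_iff' 1]
      have h3 := h1.mul_left z
      simp only [Finset.range_one, Finset.sum_singleton, if_true, zero_mul, sub_zero]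
      refine h3.congr_fun fun j => ?_
      rw [if_neg (Nat.succ_ne_zero j), Nat.add_sub_cancel, pow_succ]
      ring
    have h4 := h1.sub h2
    have h5 : T z - z * T z = S z := by rw [hS]; ring
    rw [h5] at h4
    refine h4.congr_fun fun j => ?_
    rw [hh]
    by_cases hj : j = 0
    · simp only [hj, if_true]; ring
    · simp only [hj, if_false]; ring
  have hball0 : ∀ᶠ z in 𝓝 (0 : ℂ), ‖z‖ < r0 := by
    have := Metric.ball_mem_nhds (0 : ℂ) hr0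
    filter_upwards [this] with z hz
    rwa [mem_ball_zero_iff] at hz
  have hballR : ∀ᶠ z in 𝓝 (0 : ℂ), ‖z‖ < R := by
    have := Metric.ball_mem_nhds (0 : ℂ) hR0
    filter_upwards [this] with z hz
    rwa [mem_ball_zero_iff] at hz
  have hSev : ∀ᶠ z in 𝓝 (0 : ℂ), HasSum (fun j : ℕ => z ^ j * h j) (S z) :=
    hball0.mono fun z hz => hSs z hz
  have hSan : AnalyticAt ℂ S 0 := (h86_coef hSev 0).1
  -- the analytic part
  set g : ℂ → ℂ := fun z => -(deriv U z / U z) with hg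
  have hgd : DifferentiableOn ℂ g (Metric.ball 0 R) := by
    refine ((hU.deriv Metric.isOpen_ball).div hU ?_).neg
    intro z hz
    exact hU0 z (by rwa [mem_ball_zero_iff] at hz)
  set u : ℕ → ℂ := fun j => (j.factorial : ℂ)⁻¹ * iteratedDeriv j g 0 with hu
  have hgs : ∀ z : ℂ, ‖z‖ < R → HasSum (fun j : ℕ => z ^ j * u j) (g z) := by
    intro z hz
    have h1 := Complex.hasSum_taylorSeries_on_ball hgd (by rwa [mem_ball_zero_iff] : z ∈ Metric.ball (0 : ℂ) R)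
    refine h1.congr_fun fun j => ?_
    rw [hu, sub_zero, smul_eq_mul, smul_eq_mul]
    ring
  -- the whole logarithmic derivative
  set c : ℕ → ℂ := fun j => ∑ ζ ∈ Z, (m ζ : ℂ) * (ζ⁻¹) ^ (j + 1) + u j with hc
  set D : ℂ → ℂ := fun z => ∑ ζ ∈ Z, (m ζ : ℂ) * (ζ - z)⁻¹ + g z with hD
  have hsmall : ∀ᶠ z in 𝓝 (0 : ℂ), ∀ ζ ∈ Z, ‖z‖ < ‖ζ‖ := by
    rw [Filter.eventually_all_finset]
    intro ζ hζ
    have := Metric.ball_mem_nhds (0 : ℂ) (norm_pos_iff.2 (h0Z ζ hζ))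
    filter_upwards [this] with z hz
    rwa [mem_ball_zero_iff] at hz
  have hDs : ∀ᶠ z in 𝓝 (0 : ℂ), HasSum (fun j : ℕ => z ^ j * c j) (D z) := by
    filter_upwards [hballR, hsmall] with z hz hz2
    have h1 : HasSum (fun j : ℕ => ∑ ζ ∈ Z, (m ζ : ℂ) * ((ζ⁻¹) ^ (j + 1) * z ^ j))
        (∑ ζ ∈ Z, (m ζ : ℂ) * (ζ - z)⁻¹) := by
      refine hasSum_sum fun ζ hζ => HasSum.mul_left _ ?_
      have h2 : ‖z * ζ⁻¹‖ < 1 := by
        rw [norm_mul, norm_inv, ← div_eq_mul_inv, div_lt_one (norm_pos_iff.2 (h0Z ζ hζ))]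
        exact hz2 ζ hζ
      have h3 := (hasSum_geometric_of_norm_lt_one h2).mul_left ζ⁻¹
      have h4 : ζ⁻¹ * (1 - z * ζ⁻¹)⁻¹ = (ζ - z)⁻¹ := by
        rw [← mul_inv]
        congr 1
        have := h0Z ζ hζ
        field_simp
      rw [h4] at h3
      refine h3.congr_fun fun j => ?_
      rw [mul_pow, pow_succ]
      ring
    have h5 := h1.add (hgs z hz)
    refine h5.congr_fun fun j => ?_
    rw [hc]
    simp only
    rw [mul_add, Finset.mul_sum]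
    congr 1
    refine Finset.sum_congr rfl fun ζ _ => ?_
    ring
  -- the derivative of S
  have hder : deriv S =ᶠ[𝓝 0] D := by
    have h1 : ∀ᶠ z in 𝓝 (0 : ℂ), AnalyticAt ℂ S z := hSan.eventually_analyticAt
    have h2 : ∀ᶠ z in 𝓝 (0 : ℂ), ∀ᶠ x in 𝓝 z, ‖x‖ < r0 := hball0.eventually_nhds
    filter_upwards [h1, h2, hball0, hballR, hsmall] with z hz1 hz2 hz3 hz4 hz5
    have h3 : B =ᶠ[𝓝 z] fun x => Complex.exp (-S x) := by
      filter_upwards [hz2] with x hx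
      exact (hTs x hx).2
    have h4 : HasDerivAt (fun x => Complex.exp (-S x)) (Complex.exp (-S z) * -deriv S z) z :=
      (hz1.differentiableAt.hasDerivAt.neg).cexp
    have h5 : deriv B z = B z * -deriv S z := by
      rw [h3.deriv_eq, h4.deriv, (hTs z hz3).2]
    have h6 : B z ≠ 0 := by
      rw [(hTs z hz3).2]
      exact Complex.exp_ne_zero _
    have h7 := h86_log hU hU0 hB hz4 (fun ζ hζ hzζ => by
      have := hz5 ζ hζ
      rw [hzζ] at this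
      exact lt_irrefl _ this)
    rw [h5, mul_div_cancel_left₀ _ h6, neg_neg] at h7
    rw [h7]
  have hrec : ∀ j : ℕ, ((j : ℂ) + 1) * h (j + 1) = c j := by
    intro j
    have h1 := (h86_coef hSev (j + 1)).2
    have h2 := (h86_coef hDs j).2
    rw [iteratedDeriv_succ', hder.iteratedDeriv_eq j, h2, Nat.factorial_succ] at h1
    have h3 : (j.factorial : ℂ) ≠ 0 := by exact_mod_cast j.factorial_ne_zero
    push_cast at h1
    have h4 : (j.factorial : ℂ) * c j = (j.factorial : ℂ) * (((j : ℂ) + 1) * h (j + 1)) := by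
      rw [h1]; ring
    exact (mul_left_cancel₀ h3 h4).symm
  -- bound for u
  set ρ : ℝ := (1 + R) / 2 with hρ
  have hρ1 : 1 < ρ := by rw [hρ]; linarith
  have hρR : ρ < R := by rw [hρ]; linarith
  have hρ0 : 0 < ρ := by linarith
  have hcl : Metric.closedBall (0 : ℂ) ρ ⊆ Metric.ball 0 R := Metric.closedBall_subset_ball hρR
  obtain ⟨C, hC⟩ : ∃ C, ∀ z ∈ Metric.closedBall (0 : ℂ) ρ, ‖g z‖ ≤ C :=
    (isCompact_closedBall (0 : ℂ) ρ).exists_bound_of_continuousOn (hgd.continuousOn.mono hcl)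
  have hC0 : 0 ≤ C := (norm_nonneg _).trans (hC 0 (by simp [hρ0.le]))
  refine ⟨u, ρ⁻¹, C, h0Z, fun ζ hζ => ((hZ ζ).1 hζ).1, hm, by positivity,
    inv_lt_one_of_one_lt₀ hρ1, hC0, ?_, ?_⟩
  · intro j
    have h1 : DiffContOnCl ℂ g (Metric.ball 0 ρ) := by
      refine (hgd.mono ?_).diffContOnCl
      rw [closure_ball _ hρ0.ne']
      exact hcl
    have h2 := Complex.norm_iteratedDeriv_le_of_forall_mem_sphere_norm_le j hρ0 h1
      (fun z hz => hC z (Metric.sphere_subset_closedBall hz))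
    rw [hu]
    simp only
    rw [norm_mul, norm_inv, Complex.norm_natCast]
    have h3 : (0 : ℝ) < j.factorial := by exact_mod_cast j.factorial_pos
    calc (j.factorial : ℝ)⁻¹ * ‖iteratedDeriv j g 0‖
        ≤ (j.factorial : ℝ)⁻¹ * (j.factorial * C / ρ ^ j) :=
          mul_le_mul_of_nonneg_left h2 (by positivity)
      _ = C * ρ⁻¹ ^ j := by
          rw [inv_pow]
          field_simp
  · intro j
    have h1 := hrec j
    rw [hh, hc] at h1
    simp only [Nat.succ_ne_zero, if_false, Nat.add_sub_cancel] at h1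
    exact h1

end Pool.Agent.Helper7.GW
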