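import Mathlib

/-!
# GW-04: splitting off the zeros in the closed unit disk

`B` holomorphic on `ball 0 R0`, `R0 > 1`, `B 0 ≠ 0`. The zeros in the closed unit disk are finitely many (compactness + isolated
zeros, `B` is not locally zero anywhere in the ball by the identity theorem). Divide them out one after the other, or use
`MeromorphicOn.extract_zeros_poles` on `closedBall 0 1` etc. `U = B / ∏ (z - ζ)^{m ζ}` is holomorphic on the ball (removable
singularities; e.g. by induction on the finite set: near `ζ`, `B z = (z - ζ)^{m} g z` with `g` analytic, `g ζ ≠ 0`; take `g` near `ζ` and the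
quotient elsewhere), it has no zero on the closed disk, hence none on a bigger open disk `ball 0 R`, `1 < R ≤ R0`
(compactness of `closedBall 0 1`, openness of `{U ≠ 0}`; `IsCompact.exists_thickening_subset_open`).
-/

namespace Pool.Agent.Helper7.GW

open Filter Topology

private theorem not_loc_zero {R0 : ℝ} (hR0 : 1 < R0) {U : ℂ → ℂ}
    (hU : DifferentiableOn ℂ U (Metric.ball 0 R0)) (h0 : U 0 ≠ 0) {x : ℂ}
    (hx : x ∈ Metric.ball (0 : ℂ) R0) : ¬ ∃ᶠ z in 𝓝[≠] x, U z = 0 := by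
  intro h
  have han : AnalyticOnNhd ℂ U (Metric.ball 0 R0) := hU.analyticOnNhd Metric.isOpen_ball
  have h1 := han.eqOn_zero_of_preconnected_of_frequently_eq_zero
    (convex_ball (0 : ℂ) R0).isPreconnected hx h
  exact h0 (h1 (Metric.mem_ball_self (by linarith)))

private theorem split_one {R0 : ℝ} (hR0 : 1 < R0) {U : ℂ → ℂ}
    (hU : DifferentiableOn ℂ U (Metric.ball 0 R0)) (h0 : U 0 ≠ 0) {x : ℂ}
    (hx : x ∈ Metric.ball (0 : ℂ) R0) :
    ∃ (k : ℕ) (V : ℂ → ℂ), DifferentiableOn ℂ V (Metric.ball 0 R0) ∧ V x ≠ 0 ∧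
      ∀ z ∈ Metric.ball (0 : ℂ) R0, U z = (z - x) ^ k * V z := by
  have hball : Metric.ball (0 : ℂ) R0 ∈ 𝓝 x := Metric.isOpen_ball.mem_nhds hx
  have han : AnalyticAt ℂ U x := hU.analyticAt hball
  have hne : ¬ ∀ᶠ z in 𝓝 x, U z = 0 := by
    intro h
    exact not_loc_zero hR0 hU h0 hx (h.filter_mono nhdsWithin_le_nhds).frequently
  obtain ⟨k, g, hg, hgx, heq⟩ := han.exists_eventuallyEq_pow_smul_nonzero_iff.2 hne
  refine ⟨k, fun z => if z = x then g x else U z / (z - x) ^ k, ?_, by simpa using hgx, ?_⟩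
  · intro z hz
    by_cases hzx : z = x
    · subst hzx
      have h1 : (fun y => if y = z then g z else U y / (y - z) ^ k) =ᶠ[𝓝 z] g := by
        filter_upwards [heq] with y hy
        by_cases hyz : y = z
        · rw [if_pos hyz, hyz]
        · rw [if_neg hyz, hy, smul_eq_mul]
          field_simp [sub_ne_zero.2 hyz]
      exact (hg.differentiableAt.congr_of_eventuallyEq h1).differentiableWithinAt
    · have h1 : (fun y => if y = x then g x else U y / (y - x) ^ k) =ᶠ[𝓝 z]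
          fun y => U y / (y - x) ^ k := by
        filter_upwards [isOpen_ne.mem_nhds hzx] with y hy
        exact if_neg hy
      have h2 : DifferentiableAt ℂ (fun y => U y / (y - x) ^ k) z := by
        apply (hU.differentiableAt (Metric.isOpen_ball.mem_nhds hz)).div
        · fun_prop
        · exact pow_ne_zero _ (sub_ne_zero.2 hzx)
      exact (h2.congr_of_eventuallyEq h1).differentiableWithinAt
  · intro z hz
    by_cases hzx : z = x
    · subst hzx
      have h1 := heq.self_of_nhds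
      simpa using h1
    · have h2 : (z - x) ^ k ≠ 0 := pow_ne_zero _ (sub_ne_zero.2 hzx)
      show U z = (z - x) ^ k * (if z = x then g x else U z / (z - x) ^ k)
      rw [if_neg hzx, mul_div_cancel₀ _ h2]

private theorem split_fin {B : ℂ → ℂ} {R0 : ℝ} (hR0 : 1 < R0)
    (hB : DifferentiableOn ℂ B (Metric.ball 0 R0)) (h0 : B 0 ≠ 0) (Z : Finset ℂ) :
    (∀ ζ ∈ Z, ζ ∈ Metric.ball (0 : ℂ) R0) →
    ∃ (m : ℂ → ℕ) (U : ℂ → ℂ), DifferentiableOn ℂ U (Metric.ball 0 R0) ∧ (∀ ζ ∈ Z, U ζ ≠ 0) ∧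
      ∀ z ∈ Metric.ball (0 : ℂ) R0, B z = (∏ ζ ∈ Z, (z - ζ) ^ (m ζ)) * U z := by
  classical
  induction Z using Finset.induction_on with
  | empty => exact fun _ => ⟨fun _ => 0, B, hB, by simp, by simp⟩
  | insert x Z hx ih =>
    intro hZ
    obtain ⟨m, U, hU, hUZ, hBU⟩ := ih fun ζ hζ => hZ ζ (Finset.mem_insert_of_mem hζ)
    have hU0 : U 0 ≠ 0 := by
      intro h
      have := hBU 0 (Metric.mem_ball_self (by linarith))
      rw [h, mul_zero] at this
      exact h0 this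
    obtain ⟨k, V, hV, hVx, hUV⟩ := split_one hR0 hU hU0 (hZ x (Finset.mem_insert_self _ _))
    refine ⟨Function.update m x k, V, hV, ?_, ?_⟩
    · intro ζ hζ
      rcases Finset.mem_insert.1 hζ with rfl | hζ'
      · exact hVx
      · intro h
        have := hUV ζ (hZ ζ hζ)
        rw [h, mul_zero] at this
        exact hUZ ζ hζ' this
    · intro z hz
      rw [hBU z hz, hUV z hz, Finset.prod_insert hx, Function.update_self]
      have h1 : ∏ ζ ∈ Z, (z - ζ) ^ (Function.update m x k ζ) = ∏ ζ ∈ Z, (z - ζ) ^ (m ζ) := by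
        apply Finset.prod_congr rfl
        intro ζ hζ
        rw [Function.update_of_ne]
        rintro rfl
        exact hx hζ
      rw [h1]
      ring

theorem exists_factor {B : ℂ → ℂ} {R0 : ℝ} (hR0 : 1 < R0) (hB : DifferentiableOn ℂ B (Metric.ball 0 R0))
    (h0 : B 0 ≠ 0) :
    ∃ (Z : Finset ℂ) (m : ℂ → ℕ) (U : ℂ → ℂ) (R : ℝ), 1 < R ∧ R ≤ R0 ∧ (∀ ζ, ζ ∈ Z ↔ (‖ζ‖ ≤ 1 ∧ B ζ = 0)) ∧
      (∀ ζ ∈ Z, 1 ≤ m ζ) ∧ DifferentiableOn ℂ U (Metric.ball 0 R) ∧ (∀ z, ‖z‖ < R → U z ≠ 0) ∧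
      ∀ z, ‖z‖ < R → B z = (∏ ζ ∈ Z, (z - ζ) ^ (m ζ)) * U z := by
  classical
  have hsub : Metric.closedBall (0 : ℂ) 1 ⊆ Metric.ball 0 R0 := Metric.closedBall_subset_ball hR0
  have hfin : {ζ : ℂ | ‖ζ‖ ≤ 1 ∧ B ζ = 0}.Finite := by
    by_contra hinf
    obtain ⟨x, hx, hacc⟩ := Set.Infinite.exists_accPt_of_subset_isCompact hinf
      (isCompact_closedBall (0 : ℂ) 1) (fun ζ hζ => mem_closedBall_zero_iff.2 hζ.1)
    rw [accPt_iff_frequently] at hacc
    apply not_loc_zero hR0 hB h0 (hsub hx)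
    rw [frequently_nhdsWithin_iff]
    exact hacc.mono fun y hy => ⟨hy.2.2, hy.1⟩
  obtain ⟨m, U, hU, hUZ, hBU⟩ := split_fin hR0 hB h0 hfin.toFinset
    (fun ζ hζ => hsub (mem_closedBall_zero_iff.2 (hfin.mem_toFinset.1 hζ).1))
  have hne : ∀ z ∈ Metric.closedBall (0 : ℂ) 1, U z ≠ 0 := by
    intro z hz
    by_cases hBz : B z = 0
    · exact hUZ z (hfin.mem_toFinset.2 ⟨mem_closedBall_zero_iff.1 hz, hBz⟩)
    · intro h
      apply hBz
      rw [hBU z (hsub hz), h, mul_zero]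
  have hopen : IsOpen (Metric.ball (0 : ℂ) R0 ∩ U ⁻¹' {0}ᶜ) :=
    hU.continuousOn.isOpen_inter_preimage Metric.isOpen_ball isOpen_compl_singleton
  obtain ⟨δ, hδ, hδs⟩ := (isCompact_closedBall (0 : ℂ) 1).exists_cthickening_subset_open hopen
    (fun z hz => ⟨hsub hz, hne z hz⟩)
  rw [cthickening_closedBall hδ.le zero_le_one] at hδs
  have hR : ∀ z : ℂ, ‖z‖ < min R0 (1 + δ) → z ∈ Metric.ball (0 : ℂ) R0 ∧ U z ≠ 0 := by
    intro z hz
    have h1 : z ∈ Metric.closedBall (0 : ℂ) (δ + 1) := by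
      rw [mem_closedBall_zero_iff]
      have := hz.trans_le (min_le_right _ _)
      linarith
    exact hδs h1
  refine ⟨hfin.toFinset, m, U, min R0 (1 + δ), lt_min hR0 (by linarith), min_le_left _ _, ?_, ?_,
    hU.mono fun z hz => (hR z (mem_ball_zero_iff.1 hz)).1, fun z hz => (hR z hz).2,
    fun z hz => hBU z (hR z hz).1⟩
  · intro ζ
    rw [hfin.mem_toFinset]
    rfl
  · intro ζ hζ
    have h1 := hfin.mem_toFinset.1 hζ
    have h2 := hBU ζ (hsub (mem_closedBall_zero_iff.2 h1.1))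
    rw [h1.2] at h2
    have h3 := (mul_eq_zero.1 h2.symm).resolve_right (hUZ ζ hζ)
    obtain ⟨ζ', _, h4⟩ := Finset.prod_eq_zero_iff.1 h3
    by_contra hm
    rcases eq_or_ne ζ' ζ with rfl | hne'
    · have h6 : m ζ' = 0 := by omega
      rw [h6, pow_zero] at h4
      exact one_ne_zero h4
    · exact pow_ne_zero _ (sub_ne_zero.2 hne'.symm) h4

end Pool.Agent.Helper7.GW
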