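import Pool.Agent.Helper7.GW.Power
import Pool.Agent.Helper7.GW.Factor
import Pool.Agent.Helper7.GW.Coeff
import Pool.Agent.Helper7.GW.CaseII
import Pool.Agent.Helper7.GW.AbelId

/-!
# GW-13: the Gamma means when there is no zero in the open disk

`B(z) = G(w(1-z))`. `setup_series` (for `‖z‖ < 1 - a/w`: `Re (w(1-z)) > a`, take `S0 = w lap v (w(1-z))`, `gm_hasSum`).
`B 0 = G w = exp(..) ≠ 0`, `B` is holomorphic on `ball 0 (1 + η₀/w)` (`Re (w(1-z)) ≥ w(1-‖z‖)... > -η₀`), so `exists_factor` and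
`exists_data` apply.
If `G` has no zero in `|s - w| < w`, all `ζ ∈ Z` have `‖ζ‖ = 1` (`s = w(1-ζ)`, `‖s - w‖ = w‖ζ‖`), `caseII` gives `L`, with
`r' = m 1` if `1 ∈ Z`, else `0`. From the factorization `‖B x‖/(1-x)^{r'} → b1 > 0` for `x → 1-` (the factor `ζ = 1` gives `(1-x)^{r'}`, the others and
`U` are continuous and nonzero at `1`); from `hg` with `y = w(1-x)`: `‖B x‖/(1-x)^r → w^r g > 0`. Two such limits force `r = r'`. Now `abel_id`:
`exp(-L) = w^r g`, `L = -r log w - log g`, and `H_j - log j → γ` (`Real.tendsto_harmonic_sub_log`).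
-/

namespace Pool.Agent.Helper7.GW

open MeasureTheory Set Filter Topology

private theorem w77_re {w : ℝ} (z : ℂ) : ((w : ℂ) * (1 - z)).re = w * (1 - z.re) := by
  simp

private theorem w77_eq {v : ℝ → ℝ} {G : ℂ → ℂ} {A a η₀ w : ℝ} (h : Setup v G A a η₀) (haw : a < w)
    {z : ℂ} (hz : ‖z‖ < 1 - a / w) :
    G (w * (1 - z)) = Complex.exp (-((1 - z) * (w * lap v (w * (1 - z))))) := by
  have hw : 0 < w := lt_of_le_of_lt h.grow.ha haw
  have h1 : a < ((w : ℂ) * (1 - z)).re := by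
    rw [w77_re]
    have h2 : z.re ≤ ‖z‖ := Complex.re_le_norm z
    have h3 : w * (a / w) = a := mul_div_cancel₀ a hw.ne'
    nlinarith
  rw [h.eq _ h1]
  congr 1
  ring

theorem setup_series {v : ℝ → ℝ} {G : ℂ → ℂ} {A a η₀ w : ℝ} (h : Setup v G A a η₀) (haw : a < w) :
    ∃ r0 : ℝ, 0 < r0 ∧ ∀ z : ℂ, ‖z‖ < r0 → ∃ S0 : ℂ, HasSum (fun j : ℕ => (gm v w j : ℂ) * z ^ j) S0 ∧
      G (w * (1 - z)) = Complex.exp (-((1 - z) * S0)) := by
  have hw : 0 < w := lt_of_le_of_lt h.grow.ha haw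
  refine ⟨1 - a / w, ?_, fun z hz => ⟨w * lap v (w * (1 - z)), gm_hasSum h.grow haw hz, w77_eq h haw hz⟩⟩
  rw [sub_pos, div_lt_one hw]
  exact haw

theorem setup_ne {v : ℝ → ℝ} {G : ℂ → ℂ} {A a η₀ w : ℝ} (h : Setup v G A a η₀) (haw : a < w) : G (w : ℂ) ≠ 0 := by
  rw [h.eq (w : ℂ) (by rw [Complex.ofReal_re]; exact haw)]
  exact Complex.exp_ne_zero _

/-- everything in one statement -/
private theorem w77_all {v : ℝ → ℝ} {G : ℂ → ℂ} {A a η₀ w : ℝ} (h : Setup v G A a η₀) (haw : a < w) :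
    ∃ (Z : Finset ℂ) (m : ℂ → ℕ) (u : ℕ → ℂ) (q C : ℝ) (U : ℂ → ℂ) (R : ℝ), Data (gm v w) Z m u q C ∧
      (∀ ζ, ζ ∈ Z ↔ (‖ζ‖ ≤ 1 ∧ G (w * (1 - ζ)) = 0)) ∧ 1 < R ∧
      DifferentiableOn ℂ (fun z => G (w * (1 - z))) (Metric.ball 0 R) ∧
      DifferentiableOn ℂ U (Metric.ball 0 R) ∧ (∀ z, ‖z‖ < R → U z ≠ 0) ∧
      ∀ z, ‖z‖ < R → G (w * (1 - z)) = (∏ ζ ∈ Z, (z - ζ) ^ (m ζ)) * U z := by
  have hw : 0 < w := lt_of_le_of_lt h.grow.ha haw
  have hR0 : 1 < 1 + η₀ / w := by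
    have := div_pos h.hη hw
    linarith
  have hB : DifferentiableOn ℂ (fun z => G (w * (1 - z))) (Metric.ball 0 (1 + η₀ / w)) := by
    have h1 : DifferentiableOn ℂ (fun z : ℂ => (w : ℂ) * (1 - z)) (Metric.ball 0 (1 + η₀ / w)) := by
      fun_prop
    refine DifferentiableOn.comp (g := G) h.diff h1 ?_
    intro z hz
    rw [mem_ball_zero_iff] at hz
    show -η₀ < ((w : ℂ) * (1 - z)).re
    rw [w77_re]
    have h2 : z.re ≤ ‖z‖ := Complex.re_le_norm z
    have h3 : w * (η₀ / w) = η₀ := mul_div_cancel₀ η₀ hw.ne'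
    nlinarith
  have h0 : (fun z => G (w * (1 - z))) 0 ≠ 0 := by
    show G (w * (1 - 0)) ≠ 0
    rw [sub_zero, mul_one]
    exact setup_ne h haw
  obtain ⟨Z, m, U, R, hR, hRR0, hZ, hm, hU, hU0, hBU⟩ := exists_factor hR0 hB h0
  obtain ⟨r0, hr0, hM⟩ := setup_series h haw
  obtain ⟨u, q, C, hD⟩ := exists_data (M := gm v w) (B := fun z => G (w * (1 - z))) hr0 hM hR hZ hm hU hU0 hBU
  exact ⟨Z, m, u, q, C, U, R, hD, hZ, hR, hB.mono (Metric.ball_subset_ball hRR0), hU, hU0, hBU⟩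

theorem setup_data {v : ℝ → ℝ} {G : ℂ → ℂ} {A a η₀ w : ℝ} (h : Setup v G A a η₀) (haw : a < w) :
    ∃ (Z : Finset ℂ) (m : ℂ → ℕ) (u : ℕ → ℂ) (q C : ℝ), Data (gm v w) Z m u q C ∧
      (∀ ζ, ζ ∈ Z ↔ (‖ζ‖ ≤ 1 ∧ G (w * (1 - ζ)) = 0)) := by
  obtain ⟨Z, m, u, q, C, U, R, hD, hZ, -⟩ := w77_all h haw
  exact ⟨Z, m, u, q, C, hD, hZ⟩

private theorem w77_tend : Tendsto (fun x : ℝ => 1 - x) (𝓝[<] 1) (𝓝[>] 0) := by
  refine tendsto_nhdsWithin_of_tendsto_nhds_of_eventually_within _ ?_ ?_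
  · have h1 : Tendsto (fun x : ℝ => 1 - x) (𝓝 1) (𝓝 (1 - 1)) := by
      exact tendsto_const_nhds.sub tendsto_id
    rw [sub_self] at h1
    exact h1.mono_left nhdsWithin_le_nhds
  · filter_upwards [self_mem_nhdsWithin] with x hx
    have : x < 1 := hx
    show 0 < 1 - x
    linarith

/-- two limits with different exponents -/
private theorem w77_lt {f : ℝ → ℝ} {r s : ℕ} {b c : ℝ} (hc : 0 < c) (hrs : r < s)
    (h1 : Tendsto (fun x : ℝ => f x / (1 - x) ^ s) (𝓝[<] 1) (𝓝 b))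
    (h2 : Tendsto (fun x : ℝ => f x / (1 - x) ^ r) (𝓝[<] 1) (𝓝 c)) : False := by
  obtain ⟨k, rfl⟩ := Nat.exists_eq_add_of_lt hrs
  have h3 : Tendsto (fun x : ℝ => (1 - x) ^ (k + 1)) (𝓝[<] 1) (𝓝 0) := by
    have h4 : Tendsto (fun x : ℝ => (1 - x)) (𝓝[<] 1) (𝓝 0) :=
      w77_tend.mono_right nhdsWithin_le_nhds
    have h5 := h4.pow (k + 1)
    rwa [zero_pow (Nat.succ_ne_zero k)] at h5
  have h6 := h1.mul h3
  rw [mul_zero] at h6
  have h7 : (fun x : ℝ => f x / (1 - x) ^ r) =ᶠ[𝓝[<] 1]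
      fun x => f x / (1 - x) ^ (r + k + 1) * (1 - x) ^ (k + 1) := by
    filter_upwards [self_mem_nhdsWithin] with x hx
    have hx1 : x < 1 := hx
    have h8 : (1 - x) ≠ 0 := by
      have : 0 < 1 - x := by linarith
      exact this.ne'
    rw [add_assoc, pow_add]
    field_simp
  have h8 := tendsto_nhds_unique (h2.congr' h7) h6
  exact hc.ne' h8

theorem gm_limit {v : ℝ → ℝ} {G : ℂ → ℂ} {A a η₀ w : ℝ} (h : Setup v G A a η₀) (haw : a < w)
    (hzf : ∀ s : ℂ, ‖s - w‖ < w → G s ≠ 0) {r : ℕ} {g : ℝ} (hg0 : 0 < g)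
    (hg : Tendsto (fun y : ℝ => ‖G (y : ℂ)‖ / y ^ r) (𝓝[>] 0) (𝓝 g)) :
    Tendsto (fun j : ℕ => gm v w j - r * Real.log (j / w)) atTop
      (𝓝 (r * Real.eulerMascheroniConstant - Real.log g)) := by
  classical
  have hw : 0 < w := lt_of_le_of_lt h.grow.ha haw
  obtain ⟨Z, m, u, q, C, U, R, hD, hZ, hR, hB, hU, hU0, hBU⟩ := w77_all h haw
  have hZ1 : ∀ ζ ∈ Z, ‖ζ‖ = 1 := by
    intro ζ hζ
    obtain ⟨h1, h2⟩ := (hZ ζ).1 hζ
    by_contra hne
    have h3 : ‖ζ‖ < 1 := lt_of_le_of_ne h1 hne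
    refine hzf (w * (1 - ζ)) ?_ h2
    have h4 : (w : ℂ) * (1 - ζ) - w = -((w : ℂ) * ζ) := by ring
    rw [h4, norm_neg, norm_mul, Complex.norm_real, Real.norm_of_nonneg hw.le]
    nlinarith
  obtain ⟨L, hL⟩ := caseII hD hZ1
  set r' : ℕ := if (1 : ℂ) ∈ Z then m 1 else 0 with hr'
  -- the limit from the factorization
  set b1 : ℝ := (∏ ζ ∈ Z.erase 1, ‖(1 : ℂ) - ζ‖ ^ (m ζ)) * ‖U 1‖ with hb1
  have hb1pos : 0 < b1 := by
    refine mul_pos (Finset.prod_pos fun ζ hζ => pow_pos (norm_pos_iff.2 (sub_ne_zero.2 ?_)) _)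
      (norm_pos_iff.2 (hU0 1 (by rw [norm_one]; exact hR)))
    exact (Finset.ne_of_mem_erase hζ).symm
  have hfac : Tendsto (fun x : ℝ => ‖G (w * (1 - (x : ℂ)))‖ / (1 - x) ^ r') (𝓝[<] 1) (𝓝 b1) := by
    have hcont : Tendsto (fun x : ℝ => (∏ ζ ∈ Z.erase 1, ‖(x : ℂ) - ζ‖ ^ (m ζ)) * ‖U (x : ℂ)‖)
        (𝓝[<] 1) (𝓝 b1) := by
      refine Tendsto.mono_left ?_ nhdsWithin_le_nhds
      have hx : Tendsto (fun x : ℝ => (x : ℂ)) (𝓝 1) (𝓝 1) := by
        have := Complex.continuous_ofReal.tendsto (1 : ℝ)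
        rwa [Complex.ofReal_one] at this
      refine Tendsto.mul ?_ ?_
      · refine tendsto_finsetProd _ fun ζ _ => ?_
        exact ((hx.sub tendsto_const_nhds).norm).pow _
      · have h1 : ContinuousAt U 1 :=
          (hU.differentiableAt (Metric.isOpen_ball.mem_nhds
            (by rw [mem_ball_zero_iff, norm_one]; exact hR))).continuousAt
        exact (h1.tendsto.comp hx).norm
    refine hcont.congr' ?_
    have hnear : ∀ᶠ x : ℝ in 𝓝[<] (1 : ℝ), 0 < x :=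
      (eventually_gt_nhds (zero_lt_one' ℝ)).filter_mono nhdsWithin_le_nhds
    filter_upwards [self_mem_nhdsWithin, hnear] with x hx hx0
    have hx1 : x < 1 := hx
    have hxR : ‖(x : ℂ)‖ < R := by
      rw [Complex.norm_real, Real.norm_of_nonneg hx0.le]
      linarith
    rw [hBU _ hxR, norm_mul, norm_prod]
    have h1x : (0 : ℝ) < 1 - x := by linarith
    have hprod : ∏ ζ ∈ Z, ‖((x : ℂ) - ζ) ^ (m ζ)‖ =
        (1 - x) ^ r' * ∏ ζ ∈ Z.erase 1, ‖(x : ℂ) - ζ‖ ^ (m ζ) := by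
      by_cases h1 : (1 : ℂ) ∈ Z
      · rw [← Finset.mul_prod_erase Z _ h1, hr', if_pos h1]
        congr 1
        · rw [norm_pow]
          congr 1
          have h2 : (x : ℂ) - 1 = -(((1 - x : ℝ)) : ℂ) := by push_cast; ring
          rw [h2, norm_neg, Complex.norm_real, Real.norm_of_nonneg h1x.le]
        · exact Finset.prod_congr rfl fun ζ _ => norm_pow _ _
      · rw [hr', if_neg h1, pow_zero, one_mul, Finset.erase_eq_of_notMem h1]
        exact Finset.prod_congr rfl fun ζ _ => norm_pow _ _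
    rw [hprod, mul_assoc, mul_div_cancel_left₀]
    exact (pow_pos h1x _).ne'
  -- the limit from the hypothesis
  have hhyp : Tendsto (fun x : ℝ => ‖G (w * (1 - (x : ℂ)))‖ / (1 - x) ^ r) (𝓝[<] 1) (𝓝 (g * w ^ r)) := by
    have h1 : Tendsto (fun x : ℝ => w * (1 - x)) (𝓝[<] 1) (𝓝[>] 0) := by
      refine tendsto_nhdsWithin_of_tendsto_nhds_of_eventually_within _ ?_ ?_
      · have h2 := (w77_tend.mono_right nhdsWithin_le_nhds).const_mul w
        rwa [mul_zero] at h2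
      · filter_upwards [self_mem_nhdsWithin] with x hx
        have hx1 : x < 1 := hx
        show 0 < w * (1 - x)
        exact mul_pos hw (by linarith)
    have h2 := (hg.comp h1).mul_const (w ^ r)
    refine h2.congr' ?_
    filter_upwards [self_mem_nhdsWithin] with x hx
    have hx1 : x < 1 := hx
    have h1x : (0 : ℝ) < 1 - x := by linarith
    simp only [Function.comp_apply]
    have h3 : (((w * (1 - x) : ℝ)) : ℂ) = w * (1 - (x : ℂ)) := by push_cast; ring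
    rw [h3, mul_pow]
    field_simp
  have hgw : 0 < g * w ^ r := by positivity
  have hrr : r = r' := by
    rcases lt_trichotomy r r' with h1 | h1 | h1
    · exact (w77_lt hgw h1 hfac hhyp).elim
    · exact h1
    · exact (w77_lt hb1pos h1 hhyp hfac).elim
  rw [← hrr] at hL
  obtain ⟨r0, hr0, hM⟩ := setup_series h haw
  have hab : Real.exp (-L) = g * w ^ r := by
    refine abel_id (M := gm v w) (B := fun z => G (w * (1 - z))) hr0
      (hB.mono (Metric.ball_subset_ball hR.le)) hM hL ?_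
    exact hhyp
  have hLval : L = -(Real.log g + r * Real.log w) := by
    have h1 := congrArg Real.log hab
    rw [Real.log_exp, Real.log_mul hg0.ne' (by positivity), Real.log_pow] at h1
    linarith
  have hharm := Real.tendsto_harmonic_sub_log
  have hsum := (hL.add (hharm.const_mul (r : ℝ))).add_const ((r : ℝ) * Real.log w)
  have hval : L + r * Real.eulerMascheroniConstant + r * Real.log w =
      r * Real.eulerMascheroniConstant - Real.log g := by
    rw [hLval]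
    ring
  rw [hval] at hsum
  refine hsum.congr' ?_
  filter_upwards [eventually_gt_atTop 0] with j hj
  have hj0 : (0 : ℝ) < j := by exact_mod_cast hj
  rw [Real.log_div hj0.ne' hw.ne']
  ring

end Pool.Agent.Helper7.GW
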