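import Pool.Agent.Helper7.GW.AbsI
import Pool.Agent.Helper7.GW.Tail
import Pool.Agent.Helper7.GW.WinUB
import Pool.Agent.Helper7.GW.Loc

/-!
# GW-15: `v(t)` is near `r log t + κ` from both sides in every window, `κ = r γ - log g`

WLOG `δ ≤ 1`. Put `δ' = min (δ/8) (ε/(8(r+1)))`, `δ' ≤ 1/8`, `w` large (`gamma_tail` for `a, δ'`; for the upper half also
`w ≥ W1` of `exists_WH`), `J(T) = ⌈w(1+δ/2)T⌉₊`. Suppose `v t < r log t + κ - ε` for all `t ∈ [T,(1+δ)T]`, `T` large.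
For `J ≤ j < J+N` (`win_subset`) and `t ∈ win δ' w j`: `v t ≤ K := r log(j/w) + κ - ε/2` (`log_win`: `r · 2δ' ≤ ε/4`),
so `gm v w j ≤ K + (|K| + A) C q^j` (`window_ub`), where `(|K|+A) C q^j → 0` (`tendsto_log_mul_pow`).
* no zero in `|s - w| < w`: `gm v w j ≥ r log(j/w) + κ - ε/8` for `j` large (`gm_limit`), contradiction with `j = J`.
* otherwise `gm_big` gives `j ∈ [J, J+N)` with `gm v w j ≥ η ρ^{-j}/j`, which beats `|K| + 1` (`eventually_log_lt`).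
Upper half: the same for `-v` (`gm_neg`, `Grow` for `-v`), with `gm_small` instead of `gm_big`; the hypothesis `hW` of `gm_small` is
`exists_WH` (`G x = exp(..) ≠ 0` for real `x > a`).
-/

namespace Pool.Agent.Helper7.GW

open MeasureTheory Set Filter Topology

/-- An upper bound `v t < r log t + c` in the whole window bounds a Gamma mean in every block. -/
private theorem lu_ub {f : ℝ → ℝ} {A a δ δ' w q C : ℝ} (hf : Grow f A a) (haw : a < w) (hw : 0 < w)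
    (hδ : 0 < δ) (hδ1 : δ ≤ 1) (hδ' : 0 < δ') (hδ'' : δ' ≤ δ / 8) (hT : TailBd a δ' w q C) (r c : ℝ)
    {ε : ℝ} (hε : 0 < ε) (hr : |r| * (2 * δ') ≤ ε / 4) (N : ℕ) :
    ∀ᶠ T : ℝ in atTop, (∀ t ∈ Icc T ((1 + δ) * T), f t ≤ r * Real.log t + c) →
      ∀ j : ℕ, ⌈w * (1 + δ / 2) * T⌉₊ ≤ j → j < ⌈w * (1 + δ / 2) * T⌉₊ + N →
        gm f w j ≤ r * Real.log (j / w) + c + ε / 2 := by
  have h1 := tendsto_log_mul_pow hT.hq0 hT.hq1 w r (c + ε / 4) C
  have h2 : Tendsto (fun j : ℕ => A * (C * q ^ j)) atTop (𝓝 0) := by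
    have h3 := ((tendsto_pow_atTop_nhds_zero_of_lt_one hT.hq0.le hT.hq1).const_mul C).const_mul A
    simpa using h3
  have h4 := h1.add h2
  rw [add_zero] at h4
  have h5 : ∀ᶠ j : ℕ in atTop, (|r * Real.log (j / w) + (c + ε / 4)| + |c + ε / 4|) * (C * q ^ j) +
      A * (C * q ^ j) < ε / 4 := h4.eventually (gt_mem_nhds (by linarith))
  obtain ⟨j0, hj0⟩ := eventually_atTop.1 (h5.and (eventually_ge_atTop 1))
  filter_upwards [win_subset hδ hδ1 hδ'.le hδ'' hw N,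
    (tendsto_J hδ hw).eventually (eventually_ge_atTop j0)] with T hwin hJ hub j hj1 hj2
  obtain ⟨h6, hj1'⟩ := hj0 j (hJ.trans hj1)
  have hsub := hwin j hj1 hj2
  have hKb : ∀ t ∈ win δ' w j, 0 < t → f t ≤ r * Real.log (j / w) + (c + ε / 4) := by
    intro t ht _
    have h7 := hub t (hsub ht)
    have h8 := log_win hδ'.le (by linarith) hw hj1' ht
    have h9 : r * Real.log t - r * Real.log (j / w) ≤ ε / 4 := by
      calc r * Real.log t - r * Real.log (j / w) = r * (Real.log t - Real.log (j / w)) := by ring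
        _ ≤ |r * (Real.log t - Real.log (j / w))| := le_abs_self _
        _ = |r| * |Real.log t - Real.log (j / w)| := abs_mul _ _
        _ ≤ |r| * (2 * δ') := by gcongr
        _ ≤ ε / 4 := hr
    linarith
  have h10 := window_ub hf haw hT j _ hKb
  have hCq : 0 ≤ C * q ^ j := mul_nonneg hT.hC (pow_nonneg hT.hq0.le j)
  have h11 : (|r * Real.log (j / w) + (c + ε / 4)| + A) * (C * q ^ j) ≤
      (|r * Real.log (j / w) + (c + ε / 4)| + |c + ε / 4|) * (C * q ^ j) + A * (C * q ^ j) := by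
    have h12 : 0 ≤ |c + ε / 4| * (C * q ^ j) := mul_nonneg (abs_nonneg _) hCq
    nlinarith
  linarith

/-- In every block some Gamma mean is at least the prediction. -/
private theorem lu_big {v : ℝ → ℝ} {G : ℂ → ℂ} {A a η₀ w : ℝ} (h : Setup v G A a η₀) (haw : a < w)
    {r : ℕ} {g : ℝ} (hg0 : 0 < g) (hg : Tendsto (fun y : ℝ => ‖G (y : ℂ)‖ / y ^ r) (𝓝[>] 0) (𝓝 g))
    {ε : ℝ} (hε : 0 < ε) :
    ∃ N : ℕ, ∀ᶠ J : ℕ in atTop, ∃ j : ℕ, J ≤ j ∧ j < J + N ∧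
      r * Real.log (j / w) + (r * Real.eulerMascheroniConstant - Real.log g) - ε < gm v w j := by
  by_cases hz : ∀ s : ℂ, ‖s - w‖ < w → G s ≠ 0
  · have h1 := gm_limit h haw hz hg0 hg
    refine ⟨1, ?_⟩
    filter_upwards [h1.eventually (lt_mem_nhds (show (r * Real.eulerMascheroniConstant - Real.log g) -
      ε < _ by linarith))] with J hJ
    exact ⟨J, le_rfl, by omega, by linarith⟩
  · push Not at hz
    obtain ⟨s, hs1, hs2⟩ := hz
    obtain ⟨N, η, ρ, hη, hρ0, hρ1, _, hev⟩ := gm_big h haw hs2 hs1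
    refine ⟨N, ?_⟩
    have h2 := eventually_log_lt hρ0 hρ1 hη w r
      |r * Real.eulerMascheroniConstant - Real.log g|
    obtain ⟨j0, hj0⟩ := eventually_atTop.1 h2
    filter_upwards [hev, eventually_ge_atTop j0] with J hJ hJ0
    obtain ⟨j, hj1, hj2, hj3⟩ := hJ
    refine ⟨j, hj1, hj2, ?_⟩
    have h3 := hj0 j (hJ0.trans hj1)
    have h4 := le_abs_self ((r : ℝ) * Real.log (j / w))
    have h5 := le_abs_self (r * Real.eulerMascheroniConstant - Real.log g)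
    linarith

/-- In every block some Gamma mean is at most the prediction. -/
private theorem lu_small {v : ℝ → ℝ} {G : ℂ → ℂ} {A a η₀ w : ℝ} (h : Setup v G A a η₀) (haw : a < w)
    (hW : ∀ β : ℝ, 0 < β → G β = 0 → ∃ s' : ℂ, G s' = 0 ∧ ‖s' - w‖ < w - β)
    {r : ℕ} {g : ℝ} (hg0 : 0 < g) (hg : Tendsto (fun y : ℝ => ‖G (y : ℂ)‖ / y ^ r) (𝓝[>] 0) (𝓝 g))
    {ε : ℝ} (hε : 0 < ε) :
    ∃ N : ℕ, ∀ᶠ J : ℕ in atTop, ∃ j : ℕ, J ≤ j ∧ j < J + N ∧
      gm v w j < r * Real.log (j / w) + (r * Real.eulerMascheroniConstant - Real.log g) + ε := by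
  by_cases hz : ∀ s : ℂ, ‖s - w‖ < w → G s ≠ 0
  · have h1 := gm_limit h haw hz hg0 hg
    refine ⟨1, ?_⟩
    filter_upwards [h1.eventually (gt_mem_nhds (show _ <
      (r * Real.eulerMascheroniConstant - Real.log g) + ε by linarith))] with J hJ
    exact ⟨J, le_rfl, by omega, by linarith⟩
  · push Not at hz
    obtain ⟨s, hs1, hs2⟩ := hz
    obtain ⟨N, η, ρ, hη, hρ0, hρ1, _, hev⟩ := gm_small h haw hs2 hs1 hW
    refine ⟨N, ?_⟩
    have h2 := eventually_log_lt hρ0 hρ1 hη w r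
      |r * Real.eulerMascheroniConstant - Real.log g|
    obtain ⟨j0, hj0⟩ := eventually_atTop.1 h2
    filter_upwards [hev, eventually_ge_atTop j0] with J hJ hJ0
    obtain ⟨j, hj1, hj2, hj3⟩ := hJ
    refine ⟨j, hj1, hj2, ?_⟩
    have h3 := hj0 j (hJ0.trans hj1)
    have h4 := neg_abs_le ((r : ℝ) * Real.log (j / w))
    have h5 := neg_abs_le (r * Real.eulerMascheroniConstant - Real.log g)
    linarith

private theorem lu_neg {f : ℝ → ℝ} {A a : ℝ} (hf : Grow f A a) : Grow (fun t => -f t) A a :=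
  ⟨hf.meas.neg, hf.hA, hf.ha, fun t ht => by rw [abs_neg]; exact hf.bd t ht⟩

private theorem lu_lower {v : ℝ → ℝ} {G : ℂ → ℂ} {A a η₀ : ℝ} (h : Setup v G A a η₀) {r : ℕ} {g : ℝ}
    (hg0 : 0 < g) (hg : Tendsto (fun y : ℝ => ‖G (y : ℂ)‖ / y ^ r) (𝓝[>] 0) (𝓝 g)) {δ ε : ℝ}
    (hδ : 0 < δ) (hδ1 : δ ≤ 1) (hε : 0 < ε) :
    ∀ᶠ T : ℝ in atTop, ∃ t ∈ Icc T ((1 + δ) * T),
      r * Real.log t + (r * Real.eulerMascheroniConstant - Real.log g) - ε ≤ v t := by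
  obtain ⟨δ', hδ', hδ8, hδr⟩ : ∃ δ' : ℝ, 0 < δ' ∧ δ' ≤ δ / 8 ∧ |(r : ℝ)| * (2 * δ') ≤ ε / 4 := by
    refine ⟨min (δ / 8) (ε / (8 * (r + 1))), lt_min (by linarith) (by positivity),
      min_le_left _ _, ?_⟩
    have h1 := min_le_right (δ / 8) (ε / (8 * ((r : ℝ) + 1)))
    rw [abs_of_nonneg (Nat.cast_nonneg r)]
    calc (r : ℝ) * (2 * min (δ / 8) (ε / (8 * (r + 1))))
        ≤ (r + 1) * (2 * (ε / (8 * (r + 1)))) := by
          have h2 : 0 ≤ min (δ / 8) (ε / (8 * ((r : ℝ) + 1))) := le_min (by linarith) (by positivity)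
          gcongr
          linarith
      _ = ε / 4 := by field_simp; ring
  obtain ⟨W0, haW, hW1, hW⟩ := gamma_tail h.grow.ha hδ' (by linarith)
  obtain ⟨q, C, hT⟩ := hW W0 le_rfl
  have hw : 0 < W0 := by linarith
  obtain ⟨N, hN⟩ := lu_big h haW hg0 hg (show 0 < ε / 4 by linarith)
  filter_upwards [lu_ub h.grow haW hw hδ hδ1 hδ' hδ8 hT r
    ((r * Real.eulerMascheroniConstant - Real.log g) - ε) hε hδr N,
    (tendsto_J hδ hw).eventually hN] with T hub hbig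
  by_contra hcon
  push Not at hcon
  obtain ⟨j, hj1, hj2, hj3⟩ := hbig
  have h1 := hub (fun t ht => by linarith [hcon t ht]) j hj1 hj2
  linarith

private theorem lu_upper {v : ℝ → ℝ} {G : ℂ → ℂ} {A a η₀ : ℝ} (h : Setup v G A a η₀)
    (hH : ∀ β : ℝ, 0 < β → G β = 0 → ∃ s : ℂ, β < s.re ∧ G s = 0) {r : ℕ} {g : ℝ}
    (hg0 : 0 < g) (hg : Tendsto (fun y : ℝ => ‖G (y : ℂ)‖ / y ^ r) (𝓝[>] 0) (𝓝 g)) {δ ε : ℝ}
    (hδ : 0 < δ) (hδ1 : δ ≤ 1) (hε : 0 < ε) :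
    ∀ᶠ T : ℝ in atTop, ∃ t ∈ Icc T ((1 + δ) * T),
      v t ≤ r * Real.log t + (r * Real.eulerMascheroniConstant - Real.log g) + ε := by
  obtain ⟨δ', hδ', hδ8, hδr⟩ : ∃ δ' : ℝ, 0 < δ' ∧ δ' ≤ δ / 8 ∧ |-(r : ℝ)| * (2 * δ') ≤ ε / 4 := by
    refine ⟨min (δ / 8) (ε / (8 * (r + 1))), lt_min (by linarith) (by positivity),
      min_le_left _ _, ?_⟩
    have h1 := min_le_right (δ / 8) (ε / (8 * ((r : ℝ) + 1)))
    rw [abs_neg, abs_of_nonneg (Nat.cast_nonneg r)]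
    calc (r : ℝ) * (2 * min (δ / 8) (ε / (8 * (r + 1))))
        ≤ (r + 1) * (2 * (ε / (8 * (r + 1)))) := by
          have h2 : 0 ≤ min (δ / 8) (ε / (8 * ((r : ℝ) + 1))) := le_min (by linarith) (by positivity)
          gcongr
          linarith
      _ = ε / 4 := by field_simp; ring
  obtain ⟨W0, haW, hW1, hW⟩ := gamma_tail h.grow.ha hδ' (by linarith)
  obtain ⟨W1, hWH⟩ := exists_WH h.hη h.diff (a := a) (fun x hx => by
    rw [h.eq (x : ℂ) (by simpa using hx)]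
    exact Complex.exp_ne_zero _) hH
  obtain ⟨q, C, hT⟩ := hW (max W0 W1) (le_max_left _ _)
  have haw : a < max W0 W1 := haW.trans_le (le_max_left _ _)
  have hw : 0 < max W0 W1 := by linarith [le_max_left W0 W1]
  obtain ⟨N, hN⟩ := lu_small h haw (hWH _ (le_max_right _ _)) hg0 hg (show 0 < ε / 4 by linarith)
  filter_upwards [lu_ub (lu_neg h.grow) haw hw hδ hδ1 hδ' hδ8 hT (-(r : ℝ))
    (-(r * Real.eulerMascheroniConstant - Real.log g) - ε) hε hδr N,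
    (tendsto_J hδ hw).eventually hN] with T hub hbig
  by_contra hcon
  push Not at hcon
  obtain ⟨j, hj1, hj2, hj3⟩ := hbig
  have h1 := hub (fun t ht => by linarith [hcon t ht]) j hj1 hj2
  rw [gm_neg] at h1
  linarith

theorem abs_lower {v : ℝ → ℝ} {G : ℂ → ℂ} {A a η₀ : ℝ} (h : Setup v G A a η₀) {r : ℕ} {g : ℝ} (hg0 : 0 < g)
    (hg : Tendsto (fun y : ℝ => ‖G (y : ℂ)‖ / y ^ r) (𝓝[>] 0) (𝓝 g)) {δ ε : ℝ} (hδ : 0 < δ) (hε : 0 < ε) :
    ∀ᶠ T : ℝ in atTop, ∃ t ∈ Icc T ((1 + δ) * T),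
      r * Real.log t + (r * Real.eulerMascheroniConstant - Real.log g) - ε ≤ v t := by
  have h1 := lu_lower h hg0 hg (lt_min hδ one_pos) (min_le_right δ 1) hε
  filter_upwards [h1, eventually_ge_atTop 0] with T hT hT0
  obtain ⟨t, ht, hv⟩ := hT
  refine ⟨t, ⟨ht.1, ht.2.trans ?_⟩, hv⟩
  have h2 := min_le_left δ 1
  gcongr

theorem abs_upper {v : ℝ → ℝ} {G : ℂ → ℂ} {A a η₀ : ℝ} (h : Setup v G A a η₀)
    (hH : ∀ β : ℝ, 0 < β → G β = 0 → ∃ s : ℂ, β < s.re ∧ G s = 0) {r : ℕ} {g : ℝ} (hg0 : 0 < g)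
    (hg : Tendsto (fun y : ℝ => ‖G (y : ℂ)‖ / y ^ r) (𝓝[>] 0) (𝓝 g)) {δ ε : ℝ} (hδ : 0 < δ) (hε : 0 < ε) :
    ∀ᶠ T : ℝ in atTop, ∃ t ∈ Icc T ((1 + δ) * T),
      v t ≤ r * Real.log t + (r * Real.eulerMascheroniConstant - Real.log g) + ε := by
  have h1 := lu_upper h hH hg0 hg (lt_min hδ one_pos) (min_le_right δ 1) hε
  filter_upwards [h1, eventually_ge_atTop 0] with T hT hT0
  obtain ⟨t, ht, hv⟩ := hT
  refine ⟨t, ⟨ht.1, ht.2.trans ?_⟩, hv⟩
  have h2 := min_le_left δ 1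
  gcongr

end Pool.Agent.Helper7.GW
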