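import Pool.Agent.Helper7.GW.Defs

/-!
# GW-01: the Gamma means are Taylor coefficients

(1) `∫_0^∞ e^{a t} ker w j t dt = (w / (w - a))^{j+1}` for `a < w`, `0 < w` (Gamma integral `∫ t^j e^{-bt} dt = j!/b^{j+1}`, `b = w - a`;
Mathlib `Real.integral_rpow_mul_exp_neg_mul_Ioi` or `integral_rpow_mul_exp...`; `a` may be negative or zero here).
(2) Hence `|gm f w j| ≤ A (w/(w-a))^{j+1}`, and the integrand is integrable.
(3) `w * lap f (w (1 - z)) = ∫ f(t) w e^{-wt} e^{wtz} dt`, expand `e^{wtz} = ∑ (wtz)^j/j!` and integrate term by term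
(`hasSum_integral_of_summable_integral_norm`): the norm of the `j`-th term is at most `A |z|^j e^{a t} ker w j t` with integral
`A |z|^j (w/(w-a))^{j+1}`, summable because `|z| w/(w-a) < 1`.
-/

namespace Pool.Agent.Helper7.GW

open MeasureTheory Set Filter Topology

theorem ker_nonneg {w : ℝ} (hw : 0 < w) (j : ℕ) {t : ℝ} (ht : 0 ≤ t) : 0 ≤ ker w j t := by
  unfold ker; positivity

private lemma gw1_int_pow {b : ℝ} (hb : 0 < b) (j : ℕ) :
    IntegrableOn (fun t : ℝ => t ^ j * Real.exp (-(b * t))) (Ioi 0) := by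
  have h := integrableOn_rpow_mul_exp_neg_mul_rpow (p := 1) (s := (j : ℝ)) (b := b)
    (lt_of_lt_of_le (by norm_num) (Nat.cast_nonneg j)) one_pos hb
  refine h.congr_fun (fun t _ => ?_) measurableSet_Ioi
  simp only [Real.rpow_natCast, Real.rpow_one, neg_mul]

private lemma gw1_integral_pow {b : ℝ} (hb : 0 < b) (j : ℕ) :
    ∫ t in Ioi (0 : ℝ), t ^ j * Real.exp (-(b * t)) = (j.factorial : ℝ) / b ^ (j + 1) := by
  have h := Real.integral_rpow_mul_exp_neg_mul_Ioi (a := (j : ℝ) + 1) (r := b) (by positivity) hb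
  rw [Real.Gamma_nat_eq_factorial] at h
  have h1 : ∫ t in Ioi (0 : ℝ), t ^ j * Real.exp (-(b * t)) =
      ∫ t in Ioi (0 : ℝ), t ^ ((j : ℝ) + 1 - 1) * Real.exp (-(b * t)) := by
    refine setIntegral_congr_fun measurableSet_Ioi fun t _ => ?_
    simp only [add_sub_cancel_right, Real.rpow_natCast]
  rw [h1, h]
  have h2 : ((1 / b) ^ ((j : ℝ) + 1)) = (1 / b) ^ (j + 1) := by
    rw [← Nat.cast_add_one, Real.rpow_natCast]
  rw [h2, one_div, inv_pow, div_eq_mul_inv, mul_comm]

private lemma gw1_exp_ker {a w : ℝ} (j : ℕ) (t : ℝ) :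
    Real.exp (a * t) * ker w j t =
      (w ^ (j + 1) / (j.factorial : ℝ)) * (t ^ j * Real.exp (-((w - a) * t))) := by
  unfold ker
  have h : Real.exp (-((w - a) * t)) = Real.exp (a * t) * Real.exp (-w * t) := by
    rw [← Real.exp_add]
    congr 1
    ring
  rw [h, mul_pow]
  ring

theorem integrableOn_exp_ker {a w : ℝ} (hw : 0 < w) (haw : a < w) (j : ℕ) :
    IntegrableOn (fun t => Real.exp (a * t) * ker w j t) (Ioi 0) := by
  have h : IntegrableOn (fun t : ℝ => (w ^ (j + 1) / (j.factorial : ℝ)) *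
      (t ^ j * Real.exp (-((w - a) * t)))) (Ioi 0) :=
    (gw1_int_pow (sub_pos.2 haw) j).const_mul (w ^ (j + 1) / (j.factorial : ℝ))
  refine h.congr_fun (fun t _ => ?_) measurableSet_Ioi
  exact (gw1_exp_ker j t).symm

theorem integral_exp_ker {a w : ℝ} (hw : 0 < w) (haw : a < w) (j : ℕ) :
    ∫ t in Ioi (0 : ℝ), Real.exp (a * t) * ker w j t = (w / (w - a)) ^ (j + 1) := by
  have h1 : ∫ t in Ioi (0 : ℝ), Real.exp (a * t) * ker w j t =
      ∫ t in Ioi (0 : ℝ), (w ^ (j + 1) / (j.factorial : ℝ)) *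
        (t ^ j * Real.exp (-((w - a) * t))) :=
    setIntegral_congr_fun measurableSet_Ioi fun t _ => gw1_exp_ker j t
  have hj : (j.factorial : ℝ) ≠ 0 := Nat.cast_ne_zero.2 j.factorial_ne_zero
  rw [h1, integral_const_mul, gw1_integral_pow (sub_pos.2 haw), div_pow]
  field_simp

theorem integrableOn_ker {w : ℝ} (hw : 0 < w) (j : ℕ) : IntegrableOn (ker w j) (Ioi 0) := by
  have h := integrableOn_exp_ker (a := 0) hw hw j
  simpa using h

theorem integral_ker {w : ℝ} (hw : 0 < w) (j : ℕ) : ∫ t in Ioi (0 : ℝ), ker w j t = 1 := by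
  have h := integral_exp_ker (a := 0) hw hw j
  rw [sub_zero, div_self hw.ne', one_pow] at h
  simpa using h

private lemma gw1_meas_ker (w : ℝ) (j : ℕ) : Measurable (ker w j) := by
  unfold ker
  fun_prop

private lemma gw1_bd {f : ℝ → ℝ} {A a w : ℝ} (hf : Grow f A a) (haw : a < w) (j : ℕ) :
    ∀ᵐ t ∂(volume.restrict (Ioi (0 : ℝ))),
      ‖f t * ker w j t‖ ≤ A * (Real.exp (a * t) * ker w j t) := by
  have hw : 0 < w := lt_of_le_of_lt hf.ha haw
  refine (ae_restrict_iff' measurableSet_Ioi).2 (Eventually.of_forall fun t ht => ?_)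
  have ht0 : 0 < t := ht
  have h1 := hf.bd t ht0
  have h2 := ker_nonneg hw j ht0.le
  rw [norm_mul, Real.norm_eq_abs, Real.norm_eq_abs, abs_of_nonneg h2, ← mul_assoc]
  exact mul_le_mul_of_nonneg_right h1 h2

theorem integrableOn_mul_ker {f : ℝ → ℝ} {A a w : ℝ} (hf : Grow f A a) (haw : a < w) (j : ℕ) :
    IntegrableOn (fun t => f t * ker w j t) (Ioi 0) := by
  have hw : 0 < w := lt_of_le_of_lt hf.ha haw
  exact ((integrableOn_exp_ker hw haw j).const_mul A).mono'
    ((hf.meas.mul (gw1_meas_ker w j)).aestronglyMeasurable) (gw1_bd hf haw j)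

theorem gm_bound {f : ℝ → ℝ} {A a w : ℝ} (hf : Grow f A a) (haw : a < w) (j : ℕ) :
    |gm f w j| ≤ A * (w / (w - a)) ^ (j + 1) := by
  have hw : 0 < w := lt_of_le_of_lt hf.ha haw
  have h := norm_integral_le_of_norm_le ((integrableOn_exp_ker hw haw j).const_mul A)
    (gw1_bd hf haw j)
  rw [integral_const_mul, integral_exp_ker hw haw j] at h
  exact h

theorem gm_hasSum {f : ℝ → ℝ} {A a w : ℝ} (hf : Grow f A a) (haw : a < w) {z : ℂ} (hz : ‖z‖ < 1 - a / w) :
    HasSum (fun j : ℕ => (gm f w j : ℂ) * z ^ j) (w * lap f (w * (1 - z))) := by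
  have hw : 0 < w := lt_of_le_of_lt hf.ha haw
  have hint : ∀ j, Integrable (fun t => f t * ker w j t) (volume.restrict (Ioi (0 : ℝ))) :=
    fun j => integrableOn_mul_ker hf haw j
  set F : ℕ → ℝ → ℂ := fun j t => ((f t * ker w j t : ℝ) : ℂ) * z ^ j with hF
  have hFint : ∀ j, Integrable (F j) (volume.restrict (Ioi (0 : ℝ))) :=
    fun j => ((hint j).ofReal).mul_const (z ^ j)
  have hratio : ‖z‖ * (w / (w - a)) < 1 := by
    have h1 : 0 < w - a := sub_pos.2 haw
    have h2 : 1 - a / w = (w - a) / w := by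
      rw [sub_div, div_self hw.ne']
    rw [h2, lt_div_iff₀ hw] at hz
    rw [← mul_div_assoc, div_lt_one h1]
    exact hz
  have hratio0 : 0 ≤ ‖z‖ * (w / (w - a)) := by
    have h1 : 0 < w - a := sub_pos.2 haw
    positivity
  have hsum : Summable fun j => ∫ t in Ioi (0 : ℝ), ‖F j t‖ := by
    refine Summable.of_nonneg_of_le (fun j => integral_nonneg fun t => norm_nonneg _) (fun j => ?_)
      ((summable_geometric_of_lt_one hratio0 hratio).mul_left (A * (w / (w - a))))
    have h1 : ∀ t, ‖F j t‖ = ‖f t * ker w j t‖ * ‖z‖ ^ j := by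
      intro t
      rw [hF]
      simp only [norm_mul, norm_pow, Complex.norm_real]
    have h2 : ∫ t in Ioi (0 : ℝ), ‖f t * ker w j t‖ ≤ A * (w / (w - a)) ^ (j + 1) := by
      have h3 := integral_mono_ae (hint j).norm ((integrableOn_exp_ker hw haw j).const_mul A)
        (gw1_bd hf haw j)
      rw [integral_const_mul, integral_exp_ker hw haw j] at h3
      exact h3
    calc ∫ t in Ioi (0 : ℝ), ‖F j t‖ = (∫ t in Ioi (0 : ℝ), ‖f t * ker w j t‖) * ‖z‖ ^ j := by
          rw [← integral_mul_const]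
          exact integral_congr_ae (Eventually.of_forall fun t => h1 t)
      _ ≤ A * (w / (w - a)) ^ (j + 1) * ‖z‖ ^ j :=
          mul_le_mul_of_nonneg_right h2 (by positivity)
      _ = A * (w / (w - a)) * (‖z‖ * (w / (w - a))) ^ j := by
          rw [mul_pow, pow_succ]
          ring
  have hmain := hasSum_integral_of_summable_integral_norm hFint hsum
  have hterm : ∀ j, ∫ t in Ioi (0 : ℝ), F j t = (gm f w j : ℂ) * z ^ j := by
    intro j
    have h7 : ∫ a in Ioi (0 : ℝ), ((f a * ker w j a : ℝ) : ℂ) = ((gm f w j : ℝ) : ℂ) :=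
      integral_ofReal
    rw [hF]
    simp only
    rw [integral_mul_const, h7]
  have hlim : ∫ t in Ioi (0 : ℝ), ∑' j, F j t = w * lap f (w * (1 - z)) := by
    unfold lap
    rw [← integral_const_mul]
    refine setIntegral_congr_fun measurableSet_Ioi fun t _ => ?_
    have h1 : HasSum (fun j => F j t) (w * ((f t : ℂ) * Complex.exp (-(w * (1 - z)) * t))) := by
      have h2 := NormedSpace.expSeries_div_hasSum_exp ((w : ℂ) * t * z)
      rw [← Complex.exp_eq_exp_ℂ] at h2
      have h3 := h2.mul_left ((f t : ℂ) * w * Complex.exp (-w * t))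
      have h4 : (f t : ℂ) * w * Complex.exp (-w * t) * Complex.exp ((w : ℂ) * t * z) =
          w * ((f t : ℂ) * Complex.exp (-(w * (1 - z)) * t)) := by
        have h5 : Complex.exp (-(w * (1 - z)) * t) =
            Complex.exp (-w * t) * Complex.exp ((w : ℂ) * t * z) := by
          rw [← Complex.exp_add]
          congr 1
          ring
        rw [h5]
        ring
      rw [h4] at h3
      have h6 : (fun j => F j t) = fun j : ℕ => (f t : ℂ) * w * Complex.exp (-w * t) *
          (((w : ℂ) * t * z) ^ j / (j.factorial : ℂ)) := by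
        funext j
        rw [hF]
        simp only [ker]
        push_cast
        rw [mul_pow ((w : ℂ) * t) z j]
        ring
      rw [h6]
      exact h3
    exact h1.tsum_eq
  rw [hlim] at hmain
  simp only [hterm] at hmain
  exact hmain

theorem gm_add {f g : ℝ → ℝ} {A a A' a' w : ℝ} (hf : Grow f A a) (hg : Grow g A' a') (haw : a < w) (haw' : a' < w)
    (j : ℕ) : gm (fun t => f t + g t) w j = gm f w j + gm g w j := by
  unfold gm
  rw [← integral_add (integrableOn_mul_ker hf haw j) (integrableOn_mul_ker hg haw' j)]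
  refine integral_congr_ae (Eventually.of_forall fun t => ?_)
  simp only
  ring

theorem gm_neg (f : ℝ → ℝ) (w : ℝ) (j : ℕ) : gm (fun t => - f t) w j = - gm f w j := by
  unfold gm
  rw [← integral_neg]
  refine integral_congr_ae (Eventually.of_forall fun t => ?_)
  simp only
  ring

/-- The Gamma mean of a bounded function is bounded. -/
theorem gm_of_bounded {f : ℝ → ℝ} {K w : ℝ} (hf : Measurable f) (hK : ∀ t, 0 < t → |f t| ≤ K) (hw : 0 < w) (j : ℕ) :
    |gm f w j| ≤ K := by
  have hbd : ∀ᵐ t ∂(volume.restrict (Ioi (0 : ℝ))), ‖f t * ker w j t‖ ≤ K * ker w j t := by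
    refine (ae_restrict_iff' measurableSet_Ioi).2 (Eventually.of_forall fun t ht => ?_)
    have ht0 : 0 < t := ht
    have h2 := ker_nonneg hw j ht0.le
    rw [norm_mul, Real.norm_eq_abs, Real.norm_eq_abs, abs_of_nonneg h2]
    exact mul_le_mul_of_nonneg_right (hK t ht0) h2
  have h := norm_integral_le_of_norm_le ((integrableOn_ker hw j).const_mul K) hbd
  rw [integral_const_mul, integral_ker hw j, mul_one] at h
  exact h

end Pool.Agent.Helper7.GW
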