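import Pool.Agent.Helper7.GW.Defs
import Pool.Agent.Helper13.Bsd.Main

namespace Pool.Agent.Helper7.GW

/-- `(1/2) ∑_{√x ≤ p < x, p ∤ Δ} (a_p/p)²`. -/
noncomputable def SS (W : WeierstrassCurve ℤ) (N : ℕ → ℕ) (x : ℝ) : ℝ := (1 / 2) * ∑ p ∈ (Finset.range ⌈x⌉₊).filter
    (fun p : ℕ => Nat.Prime p ∧ ¬ (((p : ℕ) : ℤ) ∣ W.Δ) ∧ x ≤ (p : ℝ) ^ 2), (((p : ℝ) + 1 - N p) / p) ^ 2

end Pool.Agent.Helper7.GW
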