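import Pool.Agent.Helper7.GW.WFinal
import Pool.Agent.Helper7.GW.Frame

/-!
# Windows theorem, assembled
-/

namespace Pool.Agent.Helper7.GW

open MeasureTheory Set Filter Topology Pool.Agent.Helper13.Bsd

theorem FrameData.hH {W : WeierstrassCurve ℤ} {N : ℕ → ℕ} {F : ℂ → ℂ} {e : ℝ → ℝ} {G : ℂ → ℂ} {A η C0 E0 : ℝ}
    (h : FrameData W N F e G A η C0 E0)
    (hno : ¬ ∃ β : ℝ, 1 < β ∧ F β = 0 ∧ ∀ ρ : ℂ, F ρ = 0 → ρ.re ≤ β) :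
    ∀ β : ℝ, 0 < β → G β = 0 → ∃ s : ℂ, β < s.re ∧ G s = 0 := by
  intro β hβ h0
  rw [h.zeros _ (by simpa using hβ)] at h0
  push Not at hno
  obtain ⟨ρ, hρ, hρ2⟩ := hno (1 + β) (by linarith) (by push_cast; exact h0)
  refine ⟨ρ - 1, ?_, ?_⟩
  · simp; linarith
  · rw [h.zeros _ (by simp; linarith), show (1 : ℂ) + (ρ - 1) = ρ by ring]
    exact hρ

theorem windows (W : WeierstrassCurve ℤ) (N : ℕ → ℕ) (hΔ : W.Δ ≠ 0)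
    (hNdef : ∀ p : ℕ, N p = 1 + ((Finset.range p ×ˢ Finset.range p).filter
      (fun q : ℕ × ℕ => (p : ℤ) ∣ ((q.2 : ℤ) ^ 2 + W.a₁ * (q.1 : ℤ) * (q.2 : ℤ) + W.a₃ * (q.2 : ℤ)
        - ((q.1 : ℤ) ^ 3 + W.a₂ * (q.1 : ℤ) ^ 2 + W.a₄ * (q.1 : ℤ) + W.a₆)))).card)
    (F : ℂ → ℂ) (hFd : Differentiable ℂ F) (hF : EulerHyp W N F) :
    (∃ K : ℝ, ∀ x, 0 ≤ SS W N x ∧ SS W N x ≤ K) ∧ 0 < CC F ∧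
    (∀ δ : ℝ, 0 < δ → ∀ ε : ℝ, 0 < ε → ∀ᶠ X : ℝ in atTop, ∃ x, X ≤ x ∧ x ≤ X ^ (1 + δ) ∧
      (CC F - ε) * Real.log x ^ (analyticOrderNatAt F 1) ≤ PE W N x * Real.exp (SS W N x)) ∧
    (∀ ρ : ℂ, F ρ = 0 → 1 < ρ.re → ∀ δ : ℝ, 0 < δ → ∀ ε : ℝ, 0 < ε → ∀ᶠ X : ℝ in atTop,
      ∃ x, X ≤ x ∧ x ≤ X ^ (1 + δ) ∧ Real.exp (x ^ (ρ.re - 1 - ε)) ≤ PE W N x) ∧
    ((∃ β : ℝ, 1 < β ∧ F β = 0 ∧ ∀ ρ : ℂ, F ρ = 0 → ρ.re ≤ β) ∨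
      ((∀ δ : ℝ, 0 < δ → ∀ ε : ℝ, 0 < ε → ∀ᶠ X : ℝ in atTop, ∃ x, X ≤ x ∧ x ≤ X ^ (1 + δ) ∧
        |PE W N x * Real.exp (SS W N x) / Real.log x ^ (analyticOrderNatAt F 1) - CC F| ≤ ε) ∧
       (∀ ρ : ℂ, F ρ = 0 → 1 < ρ.re → ∀ δ : ℝ, 0 < δ → ∀ ε : ℝ, 0 < ε → ∀ᶠ X : ℝ in atTop,
        ∃ x, X ≤ x ∧ x ≤ X ^ (1 + δ) ∧ PE W N x ≤ Real.exp (-x ^ (ρ.re - 1 - ε))))) := by
  obtain ⟨e, G, A, η, C0, E0, h1, -, h3, h4, h5, h6, h7, h8⟩ := bsd_frame W N hΔ hNdef F hFd hF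
  have h : FrameData W N F e G A η C0 E0 := ⟨h1, h3, h4, h5, h6, h7⟩
  refine ⟨h8, h.CC_pos, fun δ hδ ε hε => h.part1 hNdef hδ hε, fun ρ hρ hρ1 δ hδ ε hε => h.part2 hNdef hρ hρ1 hδ hε, ?_⟩
  by_cases hno : ∃ β : ℝ, 1 < β ∧ F β = 0 ∧ ∀ ρ : ℂ, F ρ = 0 → ρ.re ≤ β
  · exact Or.inl hno
  · exact Or.inr ⟨fun δ hδ ε hε => h.part4 hNdef (h.hH hno) hδ hε,
      fun ρ hρ hρ1 δ hδ ε hε => h.part3 hNdef (h.hH hno) hρ hρ1 hδ hε⟩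

end Pool.Agent.Helper7.GW
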